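import Pool.Agent.Work.MP_4cb49c_pr.Lattice

/-!
# Plaquette-connected components of edge sets, counting, and filling
-/

namespace Pool.Agent.Work.MP_4cb49c_pr

open Finset

/-- The edges sharing a plaquette with `e`. -/
def N (e : E) : Finset E :=
  if e.2 then
    {(e.1, false), ((e.1.1, e.1.2 + 1), false), ((e.1.1 + 1, e.1.2), true),
      ((e.1.1 - 1, e.1.2), false), ((e.1.1 - 1, e.1.2 + 1), false), ((e.1.1 - 1, e.1.2), true)}
  else
    {(e.1, true), ((e.1.1, e.1.2 + 1), false), ((e.1.1 + 1, e.1.2), true),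
      ((e.1.1, e.1.2 - 1), false), ((e.1.1, e.1.2 - 1), true), ((e.1.1 + 1, e.1.2 - 1), true)}

lemma N_card_le (e : E) : (N e).card ≤ 6 := by
  unfold N
  split_ifs <;> exact card_le_six

lemma N_symm {e f : E} (h : f ∈ N e) : e ∈ N f := by
  obtain ⟨⟨a, b⟩, c⟩ := e
  obtain ⟨⟨u, v⟩, d⟩ := f
  cases c <;> cases d <;> simp [N] at h ⊢ <;> omega

/-- `f` can be reached inside `γ` from a root in `r`. -/
inductive Reach (γ r : Finset E) : E → Prop
  | base {f : E} : f ∈ r → f ∈ γ → Reach γ r f
  | step {f g : E} : Reach γ r f → g ∈ N f → g ∈ γ → Reach γ r g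

lemma Reach.mem {γ r : Finset E} {f : E} (h : Reach γ r f) : f ∈ γ := by
  cases h <;> assumption

lemma Reach.mono {γ δ r s : Finset E} (h1 : γ ⊆ δ) (h2 : r ⊆ s) {f : E} (h : Reach γ r f) :
    Reach δ s f := by
  induction h with
  | base a b => exact Reach.base (h2 a) (h1 b)
  | step _ b c ih => exact Reach.step ih b (h1 c)

lemma Reach.trans {γ r : Finset E} {e f : E} (h1 : Reach γ r e) (h2 : Reach γ {e} f) :
    Reach γ r f := by
  induction h2 with
  | base a b => rw [mem_singleton] at a; subst a; exact h1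
  | step _ b c ih => exact Reach.step ih b c

lemma Reach.symm {γ : Finset E} {e f : E} (h : Reach γ {e} f) : Reach γ {f} e := by
  induction h with
  | base a b => rw [mem_singleton] at a; subst a; exact Reach.base (mem_singleton_self _) b
  | step a b c ih =>
    have h1 : Reach γ {_} _ := Reach.base (mem_singleton_self _) c
    exact (Reach.step h1 (N_symm b) a.mem).trans ih

lemma Reach.exists_root {γ r : Finset E} {f : E} (h : Reach γ r f) : ∃ e ∈ r, e ∈ γ := by
  induction h with
  | base a b => exact ⟨_, a, b⟩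
  | step _ _ _ ih => exact ih

lemma Reach.erase {γ r : Finset E} {f v : E} (h : Reach γ r f) :
    f = v ∨ Reach (γ.erase v) (N v ∪ r.erase v) f := by
  induction h with
  | @base f a b =>
    by_cases hf : f = v
    · exact Or.inl hf
    · right
      exact Reach.base (mem_union_right _ (mem_erase.mpr ⟨hf, a⟩)) (mem_erase.mpr ⟨hf, b⟩)
  | @step f g a b c ih =>
    by_cases hg : g = v
    · exact Or.inl hg
    · right
      rcases ih with h | h
      · subst h
        exact Reach.base (mem_union_left _ b) (mem_erase.mpr ⟨hg, c⟩)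
      · exact Reach.step h b (mem_erase.mpr ⟨hg, c⟩)

lemma Reach.erase_root {γ r : Finset E} {f v : E} (h : Reach γ r f) (hv : v ∉ γ) :
    Reach γ (r.erase v) f := by
  induction h with
  | @base f a b =>
    exact Reach.base (mem_erase.mpr ⟨fun h => hv (h ▸ b), a⟩) b
  | @step f g a b c ih => exact Reach.step ih b c

open Classical in
/-- The subsets of `U` all of whose elements can be reached from `r`. -/
noncomputable def Rt (U r : Finset E) : Finset (Finset E) :=
  U.powerset.filter (fun γ => ∀ f ∈ γ, Reach γ r f)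

lemma mem_Rt {U r γ : Finset E} : γ ∈ Rt U r ↔ γ ⊆ U ∧ ∀ f ∈ γ, Reach γ r f := by
  simp only [Rt, mem_filter, mem_powerset]

lemma sum_Rt {z w : ℝ} (hz : 0 ≤ z) (hw0 : 0 ≤ w) (hw : z * (1 + w) ^ 6 ≤ w) :
    ∀ (n : ℕ) (U : Finset E), U.card = n → ∀ r : Finset E,
      ∑ γ ∈ Rt U r, z ^ γ.card ≤ (1 + w) ^ r.card := by
  classical
  intro n
  induction n with
  | zero =>
    intro U hU r
    rw [card_eq_zero] at hU
    subst hU
    have h : Rt ∅ r = {∅} := by
      ext γ
      rw [mem_Rt, mem_singleton, subset_empty]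
      constructor
      · exact fun h => h.1
      · rintro rfl; simp
    rw [h, sum_singleton, card_empty, pow_zero]
    exact one_le_pow₀ (by linarith)
  | succ n ih =>
    intro U hU r
    by_cases hr : ∃ v ∈ r, v ∈ U
    · obtain ⟨v, hvr, hvU⟩ := hr
      have hcard : (U.erase v).card = n := by rw [card_erase_of_mem hvU, hU]; rfl
      have hrc : r.card = (r.erase v).card + 1 := by
        rw [card_erase_add_one hvr]
      rw [← sum_filter_add_sum_filter_not (Rt U r) (fun γ => v ∉ γ)]
      have h1 : ∑ γ ∈ (Rt U r).filter (fun γ => v ∉ γ), z ^ γ.card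
          ≤ (1 + w) ^ (r.erase v).card := by
        refine le_trans (sum_le_sum_of_subset_of_nonneg ?_ ?_) (ih (U.erase v) hcard (r.erase v))
        · intro γ hγ
          rw [mem_filter, mem_Rt] at hγ
          rw [mem_Rt]
          obtain ⟨⟨h1, h2⟩, h3⟩ := hγ
          refine ⟨subset_erase.mpr ⟨h1, h3⟩, fun f hf => (h2 f hf).erase_root h3⟩
        · intros; positivity
      have h2 : ∑ γ ∈ (Rt U r).filter (fun γ => ¬ v ∉ γ), z ^ γ.card
          ≤ z * (1 + w) ^ ((r.erase v).card + 6) := by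
        have e1 : ∑ γ ∈ (Rt U r).filter (fun γ => ¬ v ∉ γ), z ^ γ.card
            = z * ∑ γ ∈ (Rt U r).filter (fun γ => ¬ v ∉ γ), z ^ (γ.erase v).card := by
          rw [mul_sum]
          apply sum_congr rfl
          intro γ hγ
          rw [mem_filter, not_not] at hγ
          rw [← card_erase_add_one hγ.2, pow_succ, mul_comm]
        rw [e1]
        apply mul_le_mul_of_nonneg_left _ hz
        have e2 : ∑ γ ∈ (Rt U r).filter (fun γ => ¬ v ∉ γ), z ^ (γ.erase v).card
            = ∑ γ ∈ ((Rt U r).filter (fun γ => ¬ v ∉ γ)).image (fun γ => γ.erase v),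
              z ^ γ.card := by
          rw [sum_image]
          intro γ hγ δ hδ h
          rw [mem_coe, mem_filter, not_not] at hγ hδ
          simp only at h
          rw [← insert_erase hγ.2, ← insert_erase hδ.2, h]
        rw [e2]
        have hcc : (N v ∪ r.erase v).card ≤ (r.erase v).card + 6 := by
          refine (card_union_le _ _).trans ?_
          have := N_card_le v
          omega
        refine le_trans (le_trans (sum_le_sum_of_subset_of_nonneg ?_ ?_)
          (ih (U.erase v) hcard (N v ∪ r.erase v))) (pow_le_pow_right₀ (by linarith) hcc)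
        · intro γ hγ
          rw [mem_image] at hγ
          obtain ⟨δ, hδ, rfl⟩ := hγ
          rw [mem_filter, mem_Rt, not_not] at hδ
          obtain ⟨⟨h1, h2⟩, h3⟩ := hδ
          rw [mem_Rt]
          refine ⟨erase_subset_erase _ h1, fun f hf => ?_⟩
          rw [mem_erase] at hf
          rcases (h2 f hf.2).erase (v := v) with h | h
          · exact absurd h hf.1
          · exact h
        · intros; positivity
      calc _ ≤ (1 + w) ^ (r.erase v).card + z * (1 + w) ^ ((r.erase v).card + 6) :=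
            add_le_add h1 h2
        _ = (1 + w) ^ (r.erase v).card * (1 + z * (1 + w) ^ 6) := by ring
        _ ≤ (1 + w) ^ (r.erase v).card * (1 + w) := by
            apply mul_le_mul_of_nonneg_left _ (by positivity)
            linarith
        _ = (1 + w) ^ r.card := by rw [hrc, pow_succ]
    · push Not at hr
      have h : Rt U r = {∅} := by
        ext γ
        rw [mem_Rt, mem_singleton]
        constructor
        · rintro ⟨h1, h2⟩
          rw [eq_empty_iff_forall_notMem]
          intro f hf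
          obtain ⟨e, he, he'⟩ := (h2 f hf).exists_root
          exact hr e he (h1 he')
        · rintro rfl; simp
      rw [h, sum_singleton, card_empty, pow_zero]
      exact one_le_pow₀ (by linarith)

/-- Connectedness. -/
def Conn (γ : Finset E) : Prop := ∀ e ∈ γ, ∀ f ∈ γ, Reach γ {e} f

open Classical in
/-- The nonempty connected subsets of `U`. -/
noncomputable def Kon (U : Finset E) : Finset (Finset E) :=
  U.powerset.filter (fun γ => γ.Nonempty ∧ Conn γ)

lemma mem_Kon {U γ : Finset E} : γ ∈ Kon U ↔ γ ⊆ U ∧ γ.Nonempty ∧ Conn γ := by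
  simp only [Kon, mem_filter, mem_powerset]

lemma sum_Kon_at (U : Finset E) (e : E) :
    ∑ γ ∈ (Kon U).filter (fun γ => e ∈ γ), (1 / 15 : ℝ) ^ γ.card ≤ 1 / 5 := by
  classical
  have key := sum_Rt (z := 1 / 15) (w := 1 / 5) (by norm_num) (by norm_num) (by norm_num)
  have e1 : ∑ γ ∈ (Kon U).filter (fun γ => e ∈ γ), (1 / 15 : ℝ) ^ γ.card
      = (1 / 15) * ∑ γ ∈ (Kon U).filter (fun γ => e ∈ γ), (1 / 15 : ℝ) ^ (γ.erase e).card := by
    rw [mul_sum]
    apply sum_congr rfl
    intro γ hγ
    rw [mem_filter] at hγ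
    rw [← card_erase_add_one hγ.2, pow_succ, mul_comm]
  have e2 : ∑ γ ∈ (Kon U).filter (fun γ => e ∈ γ), (1 / 15 : ℝ) ^ (γ.erase e).card
      = ∑ γ ∈ ((Kon U).filter (fun γ => e ∈ γ)).image (fun γ => γ.erase e),
        (1 / 15 : ℝ) ^ γ.card := by
    rw [sum_image]
    intro γ hγ δ hδ h
    rw [mem_coe, mem_filter] at hγ hδ
    simp only at h
    rw [← insert_erase hγ.2, ← insert_erase hδ.2, h]
  rw [e1, e2]
  have h1 : ∑ γ ∈ ((Kon U).filter (fun γ => e ∈ γ)).image (fun γ => γ.erase e),
        (1 / 15 : ℝ) ^ γ.card ≤ (1 + 1 / 5) ^ 6 := by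
    refine le_trans (le_trans (sum_le_sum_of_subset_of_nonneg ?_ ?_)
      (key _ (U.erase e) rfl (N e))) (pow_le_pow_right₀ (by norm_num) (N_card_le e))
    · intro γ hγ
      rw [mem_image] at hγ
      obtain ⟨δ, hδ, rfl⟩ := hγ
      rw [mem_filter, mem_Kon] at hδ
      obtain ⟨⟨h1, h2, h3⟩, h4⟩ := hδ
      rw [mem_Rt]
      refine ⟨erase_subset_erase _ h1, fun f hf => ?_⟩
      rw [mem_erase] at hf
      rcases (h3 e h4 f hf.2).erase (v := e) with h | h
      · exact absurd h hf.1
      · have : N e ∪ ({e} : Finset E).erase e = N e := by simp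
        rw [this] at h
        exact h
    · intros; positivity
  calc _ ≤ (1 / 15 : ℝ) * (1 + 1 / 5) ^ 6 := by
        exact mul_le_mul_of_nonneg_left h1 (by norm_num)
    _ ≤ 1 / 5 := by norm_num

/-- Sum over connected sets containing a given edge, of size at least `m`. -/
lemma sum_Kon_at' (U : Finset E) (e : E) (F : Finset E → ℝ) (c : ℝ) (hc : 0 ≤ c)
    (P : Finset E → Prop) [DecidablePred P]
    (hF : ∀ γ, P γ → γ.Nonempty → F γ ≤ c * (1 / 15 : ℝ) ^ γ.card) :
    ∑ γ ∈ (Kon U).filter (fun γ => e ∈ γ ∧ P γ), F γ ≤ c / 5 := by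
  calc ∑ γ ∈ (Kon U).filter (fun γ => e ∈ γ ∧ P γ), F γ
      ≤ ∑ γ ∈ (Kon U).filter (fun γ => e ∈ γ ∧ P γ), c * (1 / 15 : ℝ) ^ γ.card := by
        apply sum_le_sum
        intro γ hγ
        rw [mem_filter, mem_Kon] at hγ
        exact hF γ hγ.2.2 hγ.1.2.1
    _ ≤ ∑ γ ∈ (Kon U).filter (fun γ => e ∈ γ), c * (1 / 15 : ℝ) ^ γ.card := by
        apply sum_le_sum_of_subset_of_nonneg
        · intro γ hγ
          rw [mem_filter] at hγ ⊢
          exact ⟨hγ.1, hγ.2.1⟩
        · intros; positivity
    _ = c * ∑ γ ∈ (Kon U).filter (fun γ => e ∈ γ), (1 / 15 : ℝ) ^ γ.card := by rw [mul_sum]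
    _ ≤ c * (1 / 5) := mul_le_mul_of_nonneg_left (sum_Kon_at U e) hc
    _ = c / 5 := by ring

/-- Sum over all connected sets. -/
lemma sum_Kon (U : Finset E) (F : Finset E → ℝ) (c : ℝ) (hc : 0 ≤ c)
    (P : Finset E → Prop) [DecidablePred P] (hF0 : ∀ γ, P γ → 0 ≤ F γ)
    (hF : ∀ γ, P γ → γ.Nonempty → F γ ≤ c * (1 / 15 : ℝ) ^ γ.card) :
    ∑ γ ∈ (Kon U).filter P, F γ ≤ U.card * (c / 5) := by
  calc ∑ γ ∈ (Kon U).filter P, F γ
      ≤ ∑ γ ∈ (Kon U).filter P, ∑ e ∈ U, if e ∈ γ then F γ else 0 := by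
        apply sum_le_sum
        intro γ hγ
        rw [mem_filter, mem_Kon] at hγ
        obtain ⟨e, he⟩ := hγ.1.2.1
        have := single_le_sum (f := fun e => if e ∈ γ then F γ else 0) (s := U)
          (fun i _ => by
            split_ifs
            · exact hF0 γ hγ.2
            · exact le_rfl) (hγ.1.1 he)
        simpa [he] using this
    _ = ∑ e ∈ U, ∑ γ ∈ (Kon U).filter (fun γ => e ∈ γ ∧ P γ), F γ := by
        rw [sum_comm]
        apply sum_congr rfl
        intro e _
        rw [← sum_filter, filter_filter]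
        apply sum_congr _ (fun _ _ => rfl)
        ext γ
        simp only [mem_filter]
        tauto
    _ ≤ ∑ _e ∈ U, c / 5 := sum_le_sum (fun e _ => sum_Kon_at' U e F c hc P hF)
    _ = U.card * (c / 5) := by rw [sum_const, nsmul_eq_mul]

/-- `γ` is a connected component of `D`. -/
def IsComp (D γ : Finset E) : Prop :=
  γ ⊆ D ∧ γ.Nonempty ∧ Conn γ ∧ ∀ e ∈ γ, ∀ f ∈ N e, f ∈ D → f ∈ γ

open Classical in
/-- The component of `e` in `D`. -/
noncomputable def comp (D : Finset E) (e : E) : Finset E := D.filter (fun f => Reach D {e} f)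

lemma mem_comp {D : Finset E} {e f : E} : f ∈ comp D e ↔ Reach D {e} f := by
  simp only [comp, mem_filter]
  exact ⟨fun h => h.2, fun h => ⟨h.mem, h⟩⟩

lemma self_mem_comp {D : Finset E} {e : E} (he : e ∈ D) : e ∈ comp D e :=
  mem_comp.mpr (Reach.base (mem_singleton_self _) he)

lemma comp_reach {D : Finset E} {e f : E} (h : Reach D {e} f) : Reach (comp D e) {e} f := by
  induction h with
  | base a b =>
    rw [mem_singleton] at a; subst a
    exact Reach.base (mem_singleton_self _) (self_mem_comp b)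
  | step a b c ih => exact Reach.step ih b (mem_comp.mpr (Reach.step a b c))

lemma comp_isComp {D : Finset E} {e : E} (he : e ∈ D) : IsComp D (comp D e) := by
  refine ⟨?_, ⟨e, self_mem_comp he⟩, ?_, ?_⟩
  · intro f hf
    exact (mem_comp.mp hf).mem
  · intro f hf g hg
    exact (comp_reach (mem_comp.mp hf)).symm.trans (comp_reach (mem_comp.mp hg))
  · intro f hf g hg hgD
    exact mem_comp.mpr (Reach.step (mem_comp.mp hf) hg hgD)

lemma IsComp.subset_of_mem {D γ δ : Finset E} (hγ : IsComp D γ) (hδ : IsComp D δ) {e : E}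
    (h1 : e ∈ γ) (h2 : e ∈ δ) : γ ⊆ δ := by
  intro f hf
  have h := hγ.2.2.1 e h1 f hf
  clear hf
  induction h with
  | base a b => rw [mem_singleton] at a; subst a; exact h2
  | step _ b c ih => exact hδ.2.2.2 _ ih _ b (hγ.1 c)

lemma IsComp.eq_of_mem {D γ δ : Finset E} (hγ : IsComp D γ) (hδ : IsComp D δ) {e : E}
    (h1 : e ∈ γ) (h2 : e ∈ δ) : γ = δ :=
  Subset.antisymm (hγ.subset_of_mem hδ h1 h2) (hδ.subset_of_mem hγ h2 h1)

lemma IsComp.eq_comp {D γ : Finset E} (hγ : IsComp D γ) {e : E} (h : e ∈ γ) : γ = comp D e :=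
  hγ.eq_of_mem (comp_isComp (hγ.1 h)) h (self_mem_comp (hγ.1 h))

open Classical in
/-- The set of components. -/
noncomputable def comps (D : Finset E) : Finset (Finset E) := D.powerset.filter (IsComp D)

lemma mem_comps {D γ : Finset E} : γ ∈ comps D ↔ IsComp D γ := by
  simp only [comps, mem_filter, mem_powerset]
  exact ⟨fun h => h.2, fun h => ⟨h.1, h⟩⟩

lemma comps_subset_Kon {D U : Finset E} (h : D ⊆ U) : comps D ⊆ Kon U := by
  intro γ hγ
  rw [mem_comps] at hγ
  exact mem_Kon.mpr ⟨hγ.1.trans h, hγ.2.1, hγ.2.2.1⟩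

/-- The edges in `B` or adjacent to an edge of `B`. -/
def nb (B : Finset E) : Finset E := B ∪ B.biUnion N

lemma nb_card_le (B : Finset E) : (nb B).card ≤ 7 * B.card := by
  unfold nb
  calc (B ∪ B.biUnion N).card ≤ B.card + (B.biUnion N).card := card_union_le _ _
    _ ≤ B.card + ∑ e ∈ B, (N e).card := by gcongr; exact card_biUnion_le
    _ ≤ B.card + ∑ _e ∈ B, 6 := by gcongr with e _; exact N_card_le e
    _ = 7 * B.card := by rw [sum_const, smul_eq_mul]; ring

lemma mem_nb {B : Finset E} {e : E} : e ∈ nb B ↔ e ∈ B ∨ ∃ f ∈ B, e ∈ N f := by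
  unfold nb
  rw [mem_union, mem_biUnion]

lemma IsComp.local {D D' γ B : Finset E} (h : IsComp D γ) (hB : ∀ e ∈ γ, e ∉ nb B)
    (hD : symmDiff D D' ⊆ B) : IsComp D' γ := by
  refine ⟨?_, h.2.1, h.2.2.1, ?_⟩
  · intro e he
    by_contra hcon
    have : e ∈ symmDiff D D' := by
      rw [mem_symmDiff]; left; exact ⟨h.1 he, hcon⟩
    exact hB e he (mem_nb.mpr (Or.inl (hD this)))
  · intro e he f hf hfD'
    by_cases hfD : f ∈ D
    · exact h.2.2.2 e he f hf hfD
    · exfalso
      have : f ∈ symmDiff D D' := by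
        rw [mem_symmDiff]; right; exact ⟨hfD', hfD⟩
      exact hB e he (mem_nb.mpr (Or.inr ⟨f, hD this, N_symm hf⟩))

end Pool.Agent.Work.MP_4cb49c_pr
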