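import Mathlib

/-!
# Heat-bath Glauber dynamics for the planar Ising model with plus boundary condition
-/

namespace Pool.Agent.Work.MP_4cb49c_pr

/-- The four nearest neighbours (at `ℓ¹`-distance one) of a site of the square lattice. -/
def nbrs (x : ℤ × ℤ) : Finset (ℤ × ℤ) :=
  {(x.1 + 1, x.2), (x.1 - 1, x.2), (x.1, x.2 + 1), (x.1, x.2 - 1)}

/-- The box `{1, ..., L}²`. -/
noncomputable def box (L : ℕ) : Finset (ℤ × ℤ) := Finset.Icc 1 (L : ℤ) ×ˢ Finset.Icc 1 (L : ℤ)

/-- Spin configurations on the finite set `Λ` of sites: `true` is the spin `+1` and `false` is the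
spin `-1`. -/
abbrev Config (Λ : Finset (ℤ × ℤ)) : Type := {x : ℤ × ℤ // x ∈ Λ} → Bool

/-- The spin of the configuration `σ` at the site `y`; every site outside `Λ` carries the
spin `+1`. -/
def spin (Λ : Finset (ℤ × ℤ)) (σ : Config Λ) (y : ℤ × ℤ) : ℝ :=
  if h : y ∈ Λ then (if σ ⟨y, h⟩ then 1 else -1) else 1

/-- The interaction `∑ σ_x σ_y` over the nearest neighbour pairs inside `Λ` (each pair once, hence
the factor `1 / 2`), plus `∑ σ_x` over the nearest neighbour pairs `x ∈ Λ`, `y ∉ Λ`. -/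
noncomputable def interaction (Λ : Finset (ℤ × ℤ)) (σ : Config Λ) : ℝ :=
  (1 / 2) * ∑ x ∈ Λ, ∑ y ∈ (nbrs x).filter (fun y => y ∈ Λ), spin Λ σ x * spin Λ σ y
    + ∑ x ∈ Λ, ∑ _y ∈ (nbrs x).filter (fun y => y ∉ Λ), spin Λ σ x

/-- The Ising measure on `Λ` at inverse temperature `β`, zero field, plus boundary condition. -/
noncomputable def gibbs (β : ℝ) (Λ : Finset (ℤ × ℤ)) (σ : Config Λ) : ℝ :=
  Real.exp (β * interaction Λ σ) / ∑ τ : Config Λ, Real.exp (β * interaction Λ τ)

/-- The conditional probability, given all the spins `σ y` with `y ≠ x`, of the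
configuration `τ`. -/
noncomputable def condAt (β : ℝ) (Λ : Finset (ℤ × ℤ)) (x : {x : ℤ × ℤ // x ∈ Λ})
    (σ τ : Config Λ) : ℝ :=
  if (∀ y, y ≠ x → τ y = σ y) then
    gibbs β Λ τ / ∑ ρ ∈ Finset.univ.filter (fun ρ : Config Λ => ∀ y, y ≠ x → ρ y = σ y),
      gibbs β Λ ρ
  else 0

/-- Transition matrix of the heat-bath Glauber dynamics: a uniformly chosen site is resampled from
the conditional law of the Ising measure given all the other spins. -/
noncomputable def glauber (β : ℝ) (Λ : Finset (ℤ × ℤ)) : Matrix (Config Λ) (Config Λ) ℝ :=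
  fun σ τ => (1 / (Λ.card : ℝ)) * ∑ x : {x : ℤ × ℤ // x ∈ Λ}, condAt β Λ x σ τ

/-- The law at time `t` of the dynamics with initial law `ν`. -/
noncomputable def law (β : ℝ) (Λ : Finset (ℤ × ℤ)) (ν : Config Λ → ℝ) (t : ℕ) : Config Λ → ℝ :=
  Matrix.vecMul ν (glauber β Λ ^ t)

/-- Total variation distance. -/
noncomputable def tv {Λ : Finset (ℤ × ℤ)} (μ ν : Config Λ → ℝ) : ℝ :=
  (1 / 2) * ∑ σ : Config Λ, |μ σ - ν σ|

/-- The point mass at the all-plus configuration. -/
def allPlus (Λ : Finset (ℤ × ℤ)) (σ : Config Λ) : ℝ := if σ = fun _ => true then 1 else 0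

/-- The law of independent uniform spins. -/
noncomputable def uniformLaw (Λ : Finset (ℤ × ℤ)) (_σ : Config Λ) : ℝ :=
  1 / (Fintype.card (Config Λ) : ℝ)

/-- The spontaneous magnetization: the infimum (equivalently, the limit) over `L` of the mean spin
at the centre of the box of side `2 L + 1` with plus boundary condition. -/
noncomputable def spontMag (β : ℝ) : ℝ :=
  ⨅ L : ℕ, ∑ σ : Config (box (2 * L + 1)),
    gibbs β (box (2 * L + 1)) σ * spin (box (2 * L + 1)) σ ((L : ℤ) + 1, (L : ℤ) + 1)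

/-- The critical inverse temperature of the planar Ising model. -/
noncomputable def betaC : ℝ := sInf {β : ℝ | 0 ≤ β ∧ 0 < spontMag β}

end Pool.Agent.Work.MP_4cb49c_pr
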