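import Pool.Agent.Work.MP_4cb49c_pr.Peierls

/-!
# The dynamics on functions of the minus set
-/

namespace Pool.Agent.Work.MP_4cb49c_pr

open Finset

/-- Heat-bath resampling at `x`. -/
noncomputable def P (β : ℝ) (x : V) (f : Finset V → ℝ) (S : Finset V) : ℝ :=
  q β x S * f (insert x S) + (1 - q β x S) * f (S.erase x)

/-- One step: each site of `A` is resampled with probability `1 / n`. -/
noncomputable def Q (β n : ℝ) (A : Finset V) (f : Finset V → ℝ) (S : Finset V) : ℝ :=
  f S + (1 / n) * ∑ x ∈ A, (P β x f S - f S)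

lemma P_mono {β : ℝ} {x : V} {f g : Finset V → ℝ} {S T : Finset V} (hq : q β x S = q β x T)
    (h1 : f (insert x S) ≤ g (insert x T)) (h2 : f (S.erase x) ≤ g (T.erase x)) :
    P β x f S ≤ P β x g T := by
  unfold P
  rw [hq]
  have := q_pos β x T
  have := q_lt_one β x T
  gcongr

lemma P_const (β : ℝ) (x : V) (c : ℝ) (S : Finset V) : P β x (fun _ => c) S = c := by
  unfold P; ring

lemma P_add (β : ℝ) (x : V) (f g : Finset V → ℝ) (S : Finset V) :
    P β x (fun T => f T + g T) S = P β x f S + P β x g S := by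
  unfold P; ring

lemma P_sub (β : ℝ) (x : V) (f g : Finset V → ℝ) (S : Finset V) :
    P β x (fun T => f T - g T) S = P β x f S - P β x g S := by
  unfold P; ring

lemma P_mul (β : ℝ) (x : V) (c : ℝ) (f : Finset V → ℝ) (S : Finset V) :
    P β x (fun T => c * f T) S = c * P β x f S := by
  unfold P; ring

lemma P_nonneg {β : ℝ} {x : V} {f : Finset V → ℝ} (h : ∀ S, 0 ≤ f S) (S : Finset V) :
    0 ≤ P β x f S := by
  unfold P
  have := q_pos β x S
  have := q_lt_one β x S
  have := h (insert x S)
  have := h (S.erase x)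
  have : 0 ≤ 1 - q β x S := by linarith
  positivity

lemma P_insert (β : ℝ) (x : V) (f : Finset V → ℝ) (S : Finset V) :
    P β x f (insert x S) = P β x f S := by
  unfold P
  rw [q_insert]
  have h1 : insert x (insert x S) = insert x S := by simp
  have h2 : (insert x S).erase x = S.erase x := erase_insert_eq_erase S x
  rw [h1, h2]

lemma P_erase (β : ℝ) (x : V) (f : Finset V → ℝ) (S : Finset V) :
    P β x f (S.erase x) = P β x f S := by
  unfold P
  rw [q_erase]
  have h1 : insert x (S.erase x) = insert x S := by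
    ext y; simp only [mem_insert, mem_erase]; tauto
  have h2 : (S.erase x).erase x = S.erase x := erase_idem
  rw [h1, h2]

/-- If `h` does not depend on the spin at `x` it can be pulled out. -/
lemma P_pull {β : ℝ} {x : V} {h : Finset V → ℝ} (hi : ∀ S, h (insert x S) = h S)
    (he : ∀ S, h (S.erase x) = h S) (f : Finset V → ℝ) (S : Finset V) :
    P β x (fun T => h T * f T) S = h S * P β x f S := by
  unfold P
  beta_reduce
  rw [hi, he]; ring

lemma P_inv {β : ℝ} {x : V} {h : Finset V → ℝ} (hi : ∀ S, h (insert x S) = h S)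
    (he : ∀ S, h (S.erase x) = h S) (S : Finset V) : P β x h S = h S := by
  unfold P
  rw [hi, he]; ring

section Qlemmas

variable {β n : ℝ} {A : Finset V}

lemma Q_eq (β n : ℝ) (A : Finset V) (f : Finset V → ℝ) (S : Finset V) :
    Q β n A f S = (1 - A.card / n) * f S + (1 / n) * ∑ x ∈ A, P β x f S := by
  unfold Q
  rw [sum_sub_distrib, sum_const, nsmul_eq_mul]
  ring

lemma Q_const (β n : ℝ) (A : Finset V) (c : ℝ) (S : Finset V) : Q β n A (fun _ => c) S = c := by
  unfold Q
  simp [P_const]

lemma Q_add (β n : ℝ) (A : Finset V) (f g : Finset V → ℝ) (S : Finset V) :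
    Q β n A (fun T => f T + g T) S = Q β n A f S + Q β n A g S := by
  unfold Q
  simp only [P_add]
  have : ∑ x ∈ A, (P β x f S + P β x g S - (f S + g S)) = ∑ x ∈ A, (P β x f S - f S)
      + ∑ x ∈ A, (P β x g S - g S) := by
    rw [← sum_add_distrib]
    exact sum_congr rfl fun _ _ => by ring
  rw [this]; ring

lemma Q_mul (β n : ℝ) (A : Finset V) (c : ℝ) (f : Finset V → ℝ) (S : Finset V) :
    Q β n A (fun T => c * f T) S = c * Q β n A f S := by
  unfold Q
  simp only [P_mul]
  have : ∑ x ∈ A, (c * P β x f S - c * f S) = c * ∑ x ∈ A, (P β x f S - f S) := by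
    rw [mul_sum]
    exact sum_congr rfl fun _ _ => by ring
  rw [this]; ring

lemma Q_mono_at (hn : 0 < n) (hA : (A.card : ℝ) ≤ n) {f g : Finset V → ℝ}
    (S T : Finset V) (h0 : f S ≤ g T) (h : ∀ x ∈ A, P β x f S ≤ P β x g T) :
    Q β n A f S ≤ Q β n A g T := by
  rw [Q_eq, Q_eq]
  have h1 : 0 ≤ 1 - A.card / n := by
    rw [sub_nonneg, div_le_one hn]; exact hA
  apply add_le_add
  · exact mul_le_mul_of_nonneg_left h0 h1
  · exact mul_le_mul_of_nonneg_left (sum_le_sum h) (by positivity)

lemma Q_mono (hn : 0 < n) (hA : (A.card : ℝ) ≤ n) {f g : Finset V → ℝ}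
    (h : ∀ S, f S ≤ g S) (S : Finset V) : Q β n A f S ≤ Q β n A g S :=
  Q_mono_at hn hA S S (h S) fun _ _ => P_mono rfl (h _) (h _)

/-- Iterates. -/
noncomputable def Qt (β n : ℝ) (A : Finset V) (t : ℕ) (f : Finset V → ℝ) : Finset V → ℝ :=
  (Q β n A)^[t] f

lemma Qt_zero (f : Finset V → ℝ) : Qt β n A 0 f = f := rfl

lemma Qt_succ (t : ℕ) (f : Finset V → ℝ) : Qt β n A (t + 1) f = Q β n A (Qt β n A t f) := by
  unfold Qt
  rw [Function.iterate_succ_apply']

lemma Qt_succ' (t : ℕ) (f : Finset V → ℝ) : Qt β n A (t + 1) f = Qt β n A t (Q β n A f) := by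
  unfold Qt
  rw [Function.iterate_succ_apply]

lemma Qt_const (t : ℕ) (c : ℝ) (S : Finset V) : Qt β n A t (fun _ => c) S = c := by
  induction t generalizing S with
  | zero => rfl
  | succ t ih =>
    rw [Qt_succ]
    have : Qt β n A t (fun _ => c) = fun _ => c := funext ih
    rw [this, Q_const]

lemma Qt_add (t : ℕ) (f g : Finset V → ℝ) (S : Finset V) :
    Qt β n A t (fun T => f T + g T) S = Qt β n A t f S + Qt β n A t g S := by
  induction t generalizing S with
  | zero => rfl
  | succ t ih =>
    rw [Qt_succ, Qt_succ, Qt_succ]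
    have : Qt β n A t (fun T => f T + g T) = fun S => Qt β n A t f S + Qt β n A t g S := funext ih
    rw [this, Q_add]

lemma Qt_mul (t : ℕ) (c : ℝ) (f : Finset V → ℝ) (S : Finset V) :
    Qt β n A t (fun T => c * f T) S = c * Qt β n A t f S := by
  induction t generalizing S with
  | zero => rfl
  | succ t ih =>
    rw [Qt_succ, Qt_succ]
    have : Qt β n A t (fun T => c * f T) = fun S => c * Qt β n A t f S := funext ih
    rw [this, Q_mul]

lemma Qt_sub (t : ℕ) (f g : Finset V → ℝ) (S : Finset V) :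
    Qt β n A t (fun T => f T - g T) S = Qt β n A t f S - Qt β n A t g S := by
  have : (fun T => f T - g T) = fun T => f T + (-1) * g T := by funext T; ring
  rw [this, Qt_add, Qt_mul]; ring

lemma Qt_sum {ι : Type*} (t : ℕ) (s : Finset ι) (f : ι → Finset V → ℝ) (S : Finset V) :
    Qt β n A t (fun T => ∑ i ∈ s, f i T) S = ∑ i ∈ s, Qt β n A t (f i) S := by
  classical
  induction s using Finset.induction_on with
  | empty => simp only [sum_empty]; exact Qt_const t 0 S
  | insert i s hi ih =>
    simp only [sum_insert hi]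
    rw [Qt_add, ih]

lemma Qt_mono (hn : 0 < n) (hA : (A.card : ℝ) ≤ n) (t : ℕ) {f g : Finset V → ℝ}
    (h : ∀ S, f S ≤ g S) (S : Finset V) : Qt β n A t f S ≤ Qt β n A t g S := by
  induction t generalizing S with
  | zero => exact h S
  | succ t ih =>
    rw [Qt_succ, Qt_succ]
    exact Q_mono hn hA ih S

end Qlemmas

/-- Increasing functions of the minus set. -/
def Inc (f : Finset V → ℝ) : Prop := ∀ S T : Finset V, S ⊆ T → f S ≤ f T

/-- Comparison of the heat bath for two functions and two sets. -/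
lemma P_comp {β : ℝ} (hβ : 0 ≤ β) {x : V} {u v : Finset V → ℝ} {S T : Finset V} (hST : S ⊆ T)
    (h1 : u (insert x S) ≤ v (insert x T)) (h2 : u (S.erase x) ≤ v (T.erase x))
    (h3 : v (T.erase x) ≤ v (insert x T)) : P β x u S ≤ P β x v T := by
  unfold P
  have a1 := q_mono hβ x hST
  have a2 := q_pos β x S
  have a3 := q_lt_one β x T
  nlinarith [mul_nonneg a2.le (sub_nonneg.mpr h1), mul_nonneg (sub_nonneg.mpr a1) (sub_nonneg.mpr h3),
    mul_nonneg (sub_nonneg.mpr (a1.trans a3.le)) (sub_nonneg.mpr h2)]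

lemma P_inc {β : ℝ} (hβ : 0 ≤ β) {x : V} {f : Finset V → ℝ} (hf : Inc f) : Inc (P β x f) := by
  intro S T h
  apply P_comp hβ h
  · exact hf _ _ (insert_subset_insert _ h)
  · exact hf _ _ (erase_subset_erase _ h)
  · exact hf _ _ ((erase_subset _ _).trans (subset_insert _ _))

lemma Qt_inc {β n : ℝ} {A : Finset V} (hβ : 0 ≤ β) (hn : 0 < n) (hA : (A.card : ℝ) ≤ n) (t : ℕ)
    {f : Finset V → ℝ} (hf : Inc f) : Inc (Qt β n A t f) := by
  induction t with
  | zero => exact hf
  | succ t ih =>
    rw [Qt_succ]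
    intro S T h
    exact Q_mono_at hn hA S T (ih S T h) fun x _ => P_inc hβ ih S T h

/-- Domain monotonicity. -/
lemma Qt_domain {β n : ℝ} {A A' : Finset V} (hβ : 0 ≤ β) (hn : 0 < n) (hAA : A ⊆ A')
    (hA' : (A'.card : ℝ) ≤ n) (t : ℕ) {f : Finset V → ℝ} (hf : Inc f) {S T : Finset V}
    (hT : T ⊆ A) (hTS : T ⊆ S) : Qt β n A t f T ≤ Qt β n A' t f S := by
  have hA : (A.card : ℝ) ≤ n := le_trans (by exact_mod_cast card_le_card hAA) hA'
  induction t generalizing S T with
  | zero => exact hf _ _ hTS
  | succ t ih =>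
    rw [Qt_succ, Qt_succ]
    have hv := Qt_inc hβ hn hA' t hf
    set u := Qt β n A t f
    set v := Qt β n A' t f
    have e1 : Q β n A u T = Q β n A' (fun _ => u T) T + (1 / n) * ∑ x ∈ A, (P β x u T - u T) := by
      rw [Q_const]; rfl
    have key : Q β n A u T ≤ Q β n A' v S := by
      rw [Q_eq β n A' v S]
      have e2 : Q β n A u T = (1 - A'.card / n) * u T
          + (1 / n) * (∑ x ∈ A' \ A, u T + ∑ x ∈ A, P β x u T) := by
        rw [Q_eq, sum_const, nsmul_eq_mul, card_sdiff_of_subset hAA, Nat.cast_sub (card_le_card hAA)]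
        ring
      rw [e2, ← sum_sdiff hAA (f := fun x => P β x v S)]
      have h1 : 0 ≤ 1 - A'.card / n := by
        rw [sub_nonneg, div_le_one hn]; exact hA'
      apply add_le_add
      · exact mul_le_mul_of_nonneg_left (ih hT hTS) h1
      · apply mul_le_mul_of_nonneg_left _ (by positivity)
        apply add_le_add
        · apply sum_le_sum
          intro x hx
          rw [mem_sdiff] at hx
          have hxT : x ∉ T := fun h => hx.2 (hT h)
          have h2 : u T ≤ v (S.erase x) := ih hT (by
            intro y hy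
            rw [mem_erase]
            exact ⟨fun h => hxT (h ▸ hy), hTS hy⟩)
          have h3 : v (S.erase x) ≤ v (insert x S) :=
            hv _ _ ((erase_subset _ _).trans (subset_insert _ _))
          unfold P
          have := q_pos β x S
          have := q_lt_one β x S
          nlinarith
        · apply sum_le_sum
          intro x hx
          apply P_comp hβ hTS
          · exact ih (insert_subset hx hT) (insert_subset_insert _ hTS)
          · exact ih ((erase_subset _ _).trans hT) (erase_subset_erase _ hTS)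
          · exact hv _ _ ((erase_subset _ _).trans (subset_insert _ _))
    exact key

/-- The oscillation of `f` with respect to the spin at `y` is at most `c`. -/
def Osc (f : Finset V → ℝ) (y : V) (c : ℝ) : Prop :=
  ∀ S, |f (insert y S) - f (S.erase y)| ≤ c

lemma Osc.nonneg {f : Finset V → ℝ} {y : V} {c : ℝ} (h : Osc f y c) : 0 ≤ c :=
  (abs_nonneg _).trans (h ∅)

lemma q_congr {β : ℝ} {x y : V} (h : y ∉ nbrs x) (S : Finset V) :
    q β x (insert y S) = q β x (S.erase y) := by
  have : kk x (insert y S) = kk x (S.erase y) := by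
    unfold kk
    congr 1
    ext z
    simp only [mem_filter, mem_insert, mem_erase]
    constructor
    · rintro ⟨h1, h2 | h2⟩
      · subst h2; exact absurd h1 h
      · refine ⟨h1, ?_, h2⟩
        rintro rfl
        exact h h1
    · rintro ⟨h1, h2, h3⟩
      exact ⟨h1, Or.inr h3⟩
  unfold q
  rw [this]

lemma Osc_P_self {β : ℝ} (y : V) (f : Finset V → ℝ) : Osc (P β y f) y 0 := by
  intro S
  rw [P_insert, P_erase]; simp

lemma Osc_P {β : ℝ} {x y : V} (hxy : x ≠ y) {f : Finset V → ℝ} {cy cx : ℝ} (hy : Osc f y cy)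
    (hx : Osc f x cx) : Osc (P β x f) y (cy + if y ∈ nbrs x then cx else 0) := by
  intro S
  have i1 : insert x (insert y S) = insert y (insert x S) := insert_comm x y S
  have i2 : (insert y S).erase x = insert y (S.erase x) := erase_insert_of_ne (Ne.symm hxy)
  have i3 : insert x (S.erase y) = (insert x S).erase y := (erase_insert_of_ne hxy).symm
  have i4 : (S.erase y).erase x = (S.erase x).erase y := erase_right_comm
  have h1 := hy (insert x S)
  have h2 := hy (S.erase x)
  have h3 : |f ((insert x S).erase y) - f ((S.erase x).erase y)| ≤ cx := by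
    have := hx (S.erase y)
    rwa [i3, i4] at this
  have qa := q_pos β x (insert y S)
  have qb := q_lt_one β x (insert y S)
  have qc := q_pos β x (S.erase y)
  have qd := q_lt_one β x (S.erase y)
  unfold P
  rw [i1, i2, i3, i4]
  set a := f (insert y (insert x S))
  set b := f ((insert x S).erase y)
  set c := f (insert y (S.erase x))
  set d := f ((S.erase x).erase y)
  set p := q β x (insert y S) with hp
  set r := q β x (S.erase y) with hr
  have e : p * a + (1 - p) * c - (r * b + (1 - r) * d)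
      = p * (a - b) + (1 - p) * (c - d) + (p - r) * (b - d) := by ring
  rw [e]
  have hcy := hy.nonneg
  have hpr : |(p - r) * (b - d)| ≤ if y ∈ nbrs x then cx else 0 := by
    split_ifs with hn
    · rw [abs_mul]
      have : |p - r| ≤ 1 := by rw [abs_le]; constructor <;> linarith
      calc |p - r| * |b - d| ≤ 1 * cx := mul_le_mul this h3 (abs_nonneg _) zero_le_one
        _ = cx := one_mul _
    · have : p = r := q_congr hn S
      rw [this, sub_self, zero_mul, abs_zero]
  have hA : |p * (a - b) + (1 - p) * (c - d)| ≤ cy := by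
    rw [abs_le] at h1 h2 ⊢
    constructor <;> nlinarith
  calc _ ≤ |p * (a - b) + (1 - p) * (c - d)| + |(p - r) * (b - d)| := abs_add_le _ _
    _ ≤ _ := add_le_add hA hpr

lemma Osc_Q {β n : ℝ} {A : Finset V} (hn : 0 < n) (hA : (A.card : ℝ) ≤ n) {f : Finset V → ℝ}
    {c : V → ℝ} (hc : ∀ y, Osc f y (c y)) (y : V) :
    Osc (Q β n A f) y (c y + (1 / n) * ∑ x ∈ nbrs y, c x) := by
  intro S
  rw [Q_eq, Q_eq]
  have h1 : 0 ≤ 1 - A.card / n := by
    rw [sub_nonneg, div_le_one hn]; exact hA
  have e : (1 - A.card / n) * f (insert y S) + (1 / n) * ∑ x ∈ A, P β x f (insert y S)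
      - ((1 - A.card / n) * f (S.erase y) + (1 / n) * ∑ x ∈ A, P β x f (S.erase y))
      = (1 - A.card / n) * (f (insert y S) - f (S.erase y))
      + (1 / n) * ∑ x ∈ A, (P β x f (insert y S) - P β x f (S.erase y)) := by
    rw [sum_sub_distrib]; ring
  rw [e]
  have hcn : ∀ x, 0 ≤ c x := fun x => (hc x).nonneg
  have hs : |∑ x ∈ A, (P β x f (insert y S) - P β x f (S.erase y))|
      ≤ A.card * c y + ∑ x ∈ nbrs y, c x := by
    calc _ ≤ ∑ x ∈ A, |P β x f (insert y S) - P β x f (S.erase y)| := abs_sum_le_sum_abs _ _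
      _ ≤ ∑ x ∈ A, (c y + if x ∈ nbrs y then c x else 0) := by
          apply sum_le_sum
          intro x _
          by_cases hxy : x = y
          · subst hxy
            refine (Osc_P_self x f S).trans ?_
            have := hcn x
            split_ifs <;> linarith
          · refine (Osc_P hxy (hc y) (hc x) S).trans ?_
            have : y ∈ nbrs x ↔ x ∈ nbrs y := by
              obtain ⟨a, b⟩ := x
              obtain ⟨u, v⟩ := y
              simp [nbrs]; omega
            simp only [this]
            exact le_rfl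
      _ = A.card * c y + ∑ x ∈ A, if x ∈ nbrs y then c x else 0 := by
          rw [sum_add_distrib, sum_const, nsmul_eq_mul]
      _ ≤ A.card * c y + ∑ x ∈ nbrs y, c x := by
          gcongr
          rw [← sum_filter]
          apply sum_le_sum_of_subset_of_nonneg
          · intro x hx
            rw [mem_filter] at hx
            exact hx.2
          · intro x _ _
            exact hcn x
  calc _ ≤ |(1 - A.card / n) * (f (insert y S) - f (S.erase y))|
        + |(1 / n) * ∑ x ∈ A, (P β x f (insert y S) - P β x f (S.erase y))| := abs_add_le _ _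
    _ ≤ (1 - A.card / n) * c y + (1 / n) * (A.card * c y + ∑ x ∈ nbrs y, c x) := by
        rw [abs_mul, abs_mul, abs_of_nonneg h1, abs_of_pos (by positivity : (0:ℝ) < 1 / n)]
        apply add_le_add
        · exact mul_le_mul_of_nonneg_left (hc y S) h1
        · exact mul_le_mul_of_nonneg_left hs (by positivity)
    _ = _ := by field_simp; ring

/-- `ℓ¹` distance. -/
def dist1 (x y : V) : ℕ := (x.1 - y.1).natAbs + (x.2 - y.2).natAbs

/-- Influence bound. -/
lemma influence {β n : ℝ} {A : Finset V} (hn : 0 < n) (hA : (A.card : ℝ) ≤ n) (x₀ : V) (t : ℕ)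
    (y : V) : Osc (Qt β n A t (fun S => if x₀ ∈ S then 1 else 0)) y
      ((1 + 8 / n) ^ t * (1 / 2) ^ dist1 y x₀) := by
  induction t generalizing y with
  | zero =>
    rw [Qt_zero]
    intro S
    rw [pow_zero, one_mul]
    by_cases h : x₀ = y
    · subst h
      simp [dist1]
    · have : (x₀ ∈ insert y S) ↔ (x₀ ∈ S.erase y) := by
        simp [h]
      simp only [this, sub_self, abs_zero]
      positivity
  | succ t ih =>
    rw [Qt_succ]
    intro S
    refine (Osc_Q hn hA ih y S).trans ?_
    have h2 : ∀ x ∈ nbrs y, (1 + 8 / n) ^ t * (1 / 2 : ℝ) ^ dist1 x x₀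
        ≤ 2 * ((1 + 8 / n) ^ t * (1 / 2 : ℝ) ^ dist1 y x₀) := by
      intro x hx
      have h3 : dist1 y x₀ ≤ dist1 x x₀ + 1 := by
        obtain ⟨a, b⟩ := x
        obtain ⟨u, v⟩ := y
        simp only [nbrs, mem_insert, mem_singleton, Prod.mk.injEq] at hx
        unfold dist1
        simp only
        omega
      have h4 : (1 / 2 : ℝ) ^ (dist1 x x₀ + 1) ≤ (1 / 2 : ℝ) ^ dist1 y x₀ :=
        pow_le_pow_of_le_one (by norm_num) (by norm_num) h3
      have h5 : (1 / 2 : ℝ) ^ dist1 x x₀ ≤ 2 * (1 / 2 : ℝ) ^ dist1 y x₀ := by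
        rw [pow_succ] at h4; linarith
      calc (1 + 8 / n) ^ t * (1 / 2 : ℝ) ^ dist1 x x₀
          ≤ (1 + 8 / n) ^ t * (2 * (1 / 2 : ℝ) ^ dist1 y x₀) :=
            mul_le_mul_of_nonneg_left h5 (by positivity)
        _ = _ := by ring
    have h6 := sum_le_sum h2
    rw [sum_const, nsmul_eq_mul] at h6
    have h7 : (nbrs y).card ≤ 4 := card_le_four
    have h8 : ((nbrs y).card : ℝ) ≤ 4 := by exact_mod_cast h7
    have h9 : (0 : ℝ) ≤ (1 + 8 / n) ^ t * (1 / 2 : ℝ) ^ dist1 y x₀ := by positivity
    have h10 : ∑ x ∈ nbrs y, (1 + 8 / n) ^ t * (1 / 2 : ℝ) ^ dist1 x x₀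
        ≤ 8 * ((1 + 8 / n) ^ t * (1 / 2 : ℝ) ^ dist1 y x₀) := by
      refine h6.trans ?_
      nlinarith
    calc _ ≤ (1 + 8 / n) ^ t * (1 / 2 : ℝ) ^ dist1 y x₀
          + (1 / n) * (8 * ((1 + 8 / n) ^ t * (1 / 2 : ℝ) ^ dist1 y x₀)) := by
          gcongr
      _ = _ := by rw [pow_succ]; ring

lemma Osc_sum {ι : Type*} {s : Finset ι} {f : ι → Finset V → ℝ} {y : V} {c : ι → ℝ}
    (h : ∀ i ∈ s, Osc (f i) y (c i)) : Osc (fun S => ∑ i ∈ s, f i S) y (∑ i ∈ s, c i) := by
  intro S
  simp only
  rw [← sum_sub_distrib]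
  exact (abs_sum_le_sum_abs _ _).trans (sum_le_sum fun i hi => h i hi S)

/-- Variance bound. -/
lemma variance {β n : ℝ} {A : Finset V} (hn : 0 < n) (hA : (A.card : ℝ) ≤ n) {K : ℝ}
    (hK : 0 ≤ K) (t : ℕ)
    (g : Finset V → ℝ) (h : ∀ s < t, ∀ y ∈ A, Osc (Qt β n A s g) y K) (S : Finset V) :
    Qt β n A t (fun T => g T ^ 2) S - (Qt β n A t g S) ^ 2 ≤ t * K ^ 2 := by
  induction t generalizing g S with
  | zero => simp [Qt_zero]
  | succ t ih =>
    rw [Qt_succ', Qt_succ']
    have h1 : ∀ T, Q β n A (fun T => g T ^ 2) T ≤ (Q β n A g T) ^ 2 + K ^ 2 := by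
      intro T
      have hg : ∀ y ∈ A, Osc g y K := h 0 (by omega)
      have e1 : Q β n A (fun U => (g U - g T) ^ 2) T
          = Q β n A (fun U => g U ^ 2) T - 2 * g T * Q β n A g T + g T ^ 2 := by
        have : (fun U => (g U - g T) ^ 2) = fun U => (g U ^ 2 + (-(2 * g T)) * g U)
            + g T ^ 2 := by
          funext U; ring
        rw [this, Q_add β n A (fun U => g U ^ 2 + (-(2 * g T)) * g U) (fun _ => g T ^ 2),
          Q_add β n A (fun U => g U ^ 2) (fun U => (-(2 * g T)) * g U), Q_mul, Q_const]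
        ring
      have e2 : Q β n A (fun U => (g U - g T) ^ 2) T ≤ K ^ 2 := by
        unfold Q
        beta_reduce
        rw [sub_self]
        have : ∀ x ∈ A, P β x (fun U => (g U - g T) ^ 2) T - 0 ^ 2 ≤ K ^ 2 := by
          intro x hxA
          have h2 := hg x hxA T
          have b1 : |g (insert x T) - g T| ≤ K := by
            by_cases hx : x ∈ T
            · rw [insert_eq_of_mem hx, sub_self, abs_zero]; exact hK
            · rw [erase_eq_of_notMem hx] at h2; exact h2
          have b2 : |g (T.erase x) - g T| ≤ K := by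
            by_cases hx : x ∈ T
            · rw [insert_eq_of_mem hx, abs_sub_comm] at h2; exact h2
            · rw [erase_eq_of_notMem hx, sub_self, abs_zero]; exact hK
          have c1 : (g (insert x T) - g T) ^ 2 ≤ K ^ 2 := by
            rw [← sq_abs]; exact pow_le_pow_left₀ (abs_nonneg _) b1 2
          have c2 : (g (T.erase x) - g T) ^ 2 ≤ K ^ 2 := by
            rw [← sq_abs]; exact pow_le_pow_left₀ (abs_nonneg _) b2 2
          unfold P
          have := q_pos β x T
          have := q_lt_one β x T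
          nlinarith
        have h3 := sum_le_sum this
        rw [sum_const, nsmul_eq_mul] at h3
        calc (0 : ℝ) ^ 2 + 1 / n * ∑ x ∈ A, (P β x (fun U => (g U - g T) ^ 2) T - 0 ^ 2)
            ≤ 0 ^ 2 + 1 / n * (A.card * K ^ 2) := by gcongr
          _ ≤ 0 ^ 2 + 1 / n * (n * K ^ 2) := by gcongr
          _ = K ^ 2 := by field_simp; ring
      nlinarith [sq_nonneg (Q β n A g T - g T)]
    have h2 : Qt β n A t (Q β n A fun T => g T ^ 2) S
        ≤ Qt β n A t (fun T => (Q β n A g T) ^ 2 + K ^ 2) S := Qt_mono hn hA t h1 S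
    rw [Qt_add, Qt_const] at h2
    have h3 := ih (Q β n A g) (fun s hs y hy => by
      rw [← Qt_succ']
      exact h (s + 1) (by omega) y hy) S
    push_cast
    linarith

end Pool.Agent.Work.MP_4cb49c_pr
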