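import Pool.Agent.Work.MP_4cb49c_pr.Dyn

/-!
# Reversibility and the entropy method
-/

namespace Pool.Agent.Work.MP_4cb49c_pr

open Finset

lemma sum_P (β : ℝ) {Λ : Finset V} {x : V} (hx : x ∈ Λ) (f : Finset V → ℝ) :
    ∑ S ∈ Λ.powerset, w β S * P β x f S = ∑ S ∈ Λ.powerset, w β S * f S := by
  classical
  rw [← insert_erase hx, sum_powerset_insert (notMem_erase x Λ),
    sum_powerset_insert (notMem_erase x Λ), ← sum_add_distrib, ← sum_add_distrib]
  apply sum_congr rfl
  intro T hT
  rw [mem_powerset] at hT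
  have hxT : x ∉ T := fun h => notMem_erase x Λ (hT h)
  rw [P_insert]
  have h := q_balance β x T
  rw [erase_eq_of_notMem hxT] at h
  unfold P
  rw [erase_eq_of_notMem hxT]
  linear_combination (f T - f (insert x T)) * h

lemma Ex_P (β : ℝ) {Λ : Finset V} {x : V} (hx : x ∈ Λ) (f : Finset V → ℝ) :
    Ex β Λ (P β x f) = Ex β Λ f := by
  unfold Ex
  rw [sum_P β hx]

/-- Pull-out of functions not depending on the spin at `x`. -/
lemma Ex_pull (β : ℝ) {Λ : Finset V} {x : V} (hx : x ∈ Λ) {h : Finset V → ℝ}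
    (hi : ∀ S, h (insert x S) = h S) (he : ∀ S, h (S.erase x) = h S) (f : Finset V → ℝ) :
    Ex β Λ (fun S => h S * P β x f S) = Ex β Λ (fun S => h S * f S) := by
  rw [← Ex_P β hx (fun S => h S * f S)]
  exact Ex_congr fun S _ => (P_pull hi he f S).symm

lemma Ex_symm (β : ℝ) {Λ : Finset V} {x : V} (hx : x ∈ Λ) (f g : Finset V → ℝ) :
    Ex β Λ (fun S => f S * P β x g S) = Ex β Λ (fun S => P β x f S * g S) := by
  have h1 := Ex_pull β hx (P_insert β x g) (P_erase β x g) f
  have h2 := Ex_pull β hx (P_insert β x f) (P_erase β x f) g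
  calc Ex β Λ (fun S => f S * P β x g S) = Ex β Λ (fun S => P β x g S * f S) :=
        Ex_congr fun _ _ => mul_comm _ _
    _ = Ex β Λ (fun S => P β x g S * P β x f S) := h1.symm
    _ = Ex β Λ (fun S => P β x f S * P β x g S) := Ex_congr fun _ _ => mul_comm _ _
    _ = Ex β Λ (fun S => P β x f S * g S) := h2

lemma Ex_Q_symm (β n : ℝ) {Λ A : Finset V} (hA : A ⊆ Λ) (f g : Finset V → ℝ) :
    Ex β Λ (fun S => f S * Q β n A g S) = Ex β Λ (fun S => Q β n A f S * g S) := by
  have e1 : (fun S => f S * Q β n A g S) = fun S => (1 - A.card / n) * (f S * g S)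
      + (1 / n) * ∑ x ∈ A, f S * P β x g S := by
    funext S
    rw [Q_eq, ← mul_sum]; ring
  have e2 : (fun S => Q β n A f S * g S) = fun S => (1 - A.card / n) * (f S * g S)
      + (1 / n) * ∑ x ∈ A, P β x f S * g S := by
    funext S
    rw [Q_eq, ← sum_mul]; ring
  rw [e1, e2, Ex_add, Ex_add, Ex_mul, Ex_mul, Ex_mul, Ex_sum, Ex_sum]
  congr 2
  exact sum_congr rfl fun x hx => Ex_symm β (hA hx) f g

lemma Ex_Qt_symm (β n : ℝ) {Λ A : Finset V} (hA : A ⊆ Λ) (t : ℕ) (f g : Finset V → ℝ) :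
    Ex β Λ (fun S => f S * Qt β n A t g S) = Ex β Λ (fun S => Qt β n A t f S * g S) := by
  induction t generalizing f with
  | zero => rfl
  | succ t ih =>
    rw [Qt_succ, Ex_Q_symm β n hA, ih, ← Qt_succ']

lemma Ex_Qt (β n : ℝ) {Λ A : Finset V} (hA : A ⊆ Λ) (t : ℕ) (f : Finset V → ℝ) :
    Ex β Λ (Qt β n A t f) = Ex β Λ f := by
  have h := Ex_Qt_symm β n hA t (fun _ => 1) f
  have e : Qt β n A t (fun _ => 1) = fun _ => 1 := funext fun S => Qt_const t 1 S
  rw [e] at h
  simpa using h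

lemma Q_pos {β n : ℝ} {A : Finset V} (hn : 0 < n) (hA : (A.card : ℝ) ≤ n) {f : Finset V → ℝ}
    (hf : ∀ S, 0 < f S) (S : Finset V) : 0 < Q β n A f S := by
  rw [Q_eq]
  have hP : ∀ x, 0 < P β x f S := by
    intro x
    unfold P
    have := q_pos β x S
    have := q_lt_one β x S
    have := hf (insert x S)
    have := hf (S.erase x)
    have : 0 < 1 - q β x S := by linarith
    positivity
  rcases lt_or_eq_of_le hA with h | h
  · have h1 : 0 < 1 - A.card / n := by
      rw [sub_pos, div_lt_one hn]; exact h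
    have h2 : 0 ≤ ∑ x ∈ A, P β x f S := sum_nonneg fun x _ => (hP x).le
    have := hf S
    positivity
  · have h1 : 1 - A.card / n = 0 := by rw [h]; field_simp; ring
    rw [h1, zero_mul, zero_add]
    have hne : A.Nonempty := by
      rw [nonempty_iff_ne_empty]
      rintro rfl
      simp at h
      linarith
    have h2 : 0 < ∑ x ∈ A, P β x f S := sum_pos (fun x _ => hP x) hne
    positivity

lemma Qt_pos {β n : ℝ} {A : Finset V} (hn : 0 < n) (hA : (A.card : ℝ) ≤ n) (t : ℕ)
    {f : Finset V → ℝ} (hf : ∀ S, 0 < f S) (S : Finset V) : 0 < Qt β n A t f S := by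
  induction t generalizing S with
  | zero => exact hf S
  | succ t ih => rw [Qt_succ]; exact Q_pos hn hA ih S

/-- Tangent line inequality for `u log u`. -/
lemma tangent {a v : ℝ} (ha : 0 < a) (hv : 0 < v) :
    a * Real.log a + (Real.log a + 1) * (v - a) ≤ v * Real.log v := by
  have h := Real.one_sub_inv_le_log_of_pos (x := v / a) (by positivity)
  rw [Real.log_div hv.ne' ha.ne', inv_div] at h
  have h2 : v * (1 - a / v) ≤ v * (Real.log v - Real.log a) := mul_le_mul_of_nonneg_left h hv.le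
  have h3 : v * (1 - a / v) = v - a := by field_simp
  rw [h3] at h2
  linarith

/-- The entropy functional. -/
noncomputable def Hf (β : ℝ) (Λ : Finset V) (g : Finset V → ℝ) : ℝ :=
  Ex β Λ (fun S => g S * Real.log (g S))

lemma Hf_nonneg {β : ℝ} {Λ : Finset V} {g : Finset V → ℝ} (hg : ∀ S, 0 < g S)
    (h1 : Ex β Λ g = 1) : 0 ≤ Hf β Λ g := by
  unfold Hf
  have : Ex β Λ (fun S => g S - 1) ≤ Ex β Λ (fun S => g S * Real.log (g S)) := by
    apply Ex_mono
    intro S _
    have := tangent one_pos (hg S)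
    simp at this
    linarith
  rw [Ex_sub, h1, Ex_const] at this
  linarith

/-- Entropy decrement of the resampling at `x`. -/
noncomputable def Dx (β : ℝ) (Λ : Finset V) (x : V) (g : Finset V → ℝ) : ℝ :=
  Hf β Λ g - Hf β Λ (P β x g)

lemma P_pos {β : ℝ} {x : V} {f : Finset V → ℝ} (hf : ∀ S, 0 < f S) (S : Finset V) :
    0 < P β x f S := by
  unfold P
  have := q_pos β x S
  have := q_lt_one β x S
  have := hf (insert x S)
  have := hf (S.erase x)
  have : 0 < 1 - q β x S := by linarith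
  positivity

lemma Dx_lower {β : ℝ} {Λ : Finset V} {x : V} (hx : x ∈ Λ) {g : Finset V → ℝ}
    (hg : ∀ S, 0 < g S) :
    Ex β Λ (fun S => (Real.sqrt (g S) - Real.sqrt (P β x g S)) ^ 2) ≤ Dx β Λ x g := by
  have hP : ∀ S, 0 < P β x g S := P_pos hg
  have e1 : Hf β Λ (P β x g) = Ex β Λ (fun S => Real.log (P β x g S) * g S) := by
    unfold Hf
    rw [← Ex_pull β hx (h := fun S => Real.log (P β x g S))
      (fun S => by rw [P_insert]) (fun S => by rw [P_erase]) g]
    exact Ex_congr fun _ _ => mul_comm _ _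
  have e2 : Ex β Λ (fun S => (Real.sqrt (g S) - Real.sqrt (P β x g S)) ^ 2)
      = Ex β Λ (fun S => 2 * g S - 2 * (Real.sqrt (g S) * Real.sqrt (P β x g S))) := by
    have h3 : Ex β Λ (fun S => (Real.sqrt (g S) - Real.sqrt (P β x g S)) ^ 2)
        = Ex β Λ (fun S => (g S + P β x g S) - 2 * (Real.sqrt (g S) * Real.sqrt (P β x g S))) := by
      apply Ex_congr
      intro S _
      have a1 := Real.sq_sqrt (hg S).le
      have a2 := Real.sq_sqrt (hP S).le
      nlinarith
    rw [h3, Ex_sub, Ex_sub, Ex_add, Ex_P β hx, Ex_mul β Λ 2 g]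
    ring
  rw [e2]
  unfold Dx
  rw [e1]
  unfold Hf
  rw [← Ex_sub]
  apply Ex_mono
  intro S _
  have a1 := Real.sq_sqrt (hg S).le
  have s1 := Real.sqrt_pos.mpr (hg S)
  have s2 := Real.sqrt_pos.mpr (hP S)
  have l1 : Real.log (g S) = 2 * Real.log (Real.sqrt (g S)) := by
    rw [Real.log_sqrt (hg S).le]; ring
  have l2 : Real.log (P β x g S) = 2 * Real.log (Real.sqrt (P β x g S)) := by
    rw [Real.log_sqrt (hP S).le]; ring
  rw [l1, l2]
  set a := Real.sqrt (g S)
  set b := Real.sqrt (P β x g S)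
  have h4 := Real.one_sub_inv_le_log_of_pos (x := a / b) (by positivity)
  rw [Real.log_div s1.ne' s2.ne', inv_div] at h4
  have h5 : a ^ 2 * (1 - b / a) ≤ a ^ 2 * (Real.log a - Real.log b) :=
    mul_le_mul_of_nonneg_left h4 (by positivity)
  have h6 : a ^ 2 * (1 - b / a) = a ^ 2 - a * b := by field_simp
  rw [h6] at h5
  rw [← a1]
  linarith

/-- The discrete derivative at `x`. -/
def gr (F : Finset V → ℝ) (x : V) (S : Finset V) : ℝ := F (insert x S) - F (S.erase x)

lemma gr_insert (F : Finset V → ℝ) (x : V) (S : Finset V) :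
    gr F x (insert x S) = gr F x S := by
  unfold gr
  rw [erase_insert_eq_erase]; simp

lemma gr_erase (F : Finset V → ℝ) (x : V) (S : Finset V) :
    gr F x (S.erase x) = gr F x S := by
  unfold gr
  have h1 : insert x (S.erase x) = insert x S := by
    ext y; simp only [mem_insert, mem_erase]; tauto
  rw [h1, erase_idem]

lemma flux {β : ℝ} {Λ : Finset V} {x : V} (hx : x ∈ Λ) {g : Finset V → ℝ}
    (hg : ∀ S, 0 < g S) (F : Finset V → ℝ) {l : ℝ} (hl : 0 < l) :
    |Ex β Λ (fun S => (g S - P β x g S) * F S)|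
      ≤ l * Dx β Λ x g + (1 / l) * Ex β Λ (fun S => g S * gr F x S ^ 2) := by
  have hP : ∀ S, 0 < P β x g S := P_pos hg
  have e1 : Ex β Λ (fun S => (g S - P β x g S) * F S)
      = Ex β Λ (fun S => (g S - P β x g S) * (F S - P β x F S)) := by
    have h0 : Ex β Λ (fun S => (g S - P β x g S) * P β x F S) = 0 := by
      have h1 := Ex_pull β hx (P_insert β x F) (P_erase β x F) (fun S => g S - P β x g S)
      have h2 : Ex β Λ (fun S => (g S - P β x g S) * P β x F S)
          = Ex β Λ (fun S => P β x F S * (g S - P β x g S)) := Ex_congr fun _ _ => mul_comm _ _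
      rw [h2, ← h1]
      have h3 : ∀ S, P β x (fun S => g S - P β x g S) S = 0 := by
        intro S
        rw [P_sub, P_inv (P_insert β x g) (P_erase β x g), sub_self]
      simp only [h3, mul_zero]
      exact Ex_const β Λ 0
    have h4 : (fun S => (g S - P β x g S) * (F S - P β x F S))
        = fun S => (g S - P β x g S) * F S - (g S - P β x g S) * P β x F S := by
      funext S; ring
    rw [h4, Ex_sub, h0, sub_zero]
  have hF : ∀ S, |F S - P β x F S| ≤ |gr F x S| := by
    intro S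
    have a1 := q_pos β x S
    have a2 := q_lt_one β x S
    by_cases hxS : x ∈ S
    · have : F S - P β x F S = (1 - q β x S) * gr F x S := by
        unfold P gr
        rw [insert_eq_of_mem hxS]; ring
      rw [this, abs_mul]
      have : |1 - q β x S| ≤ 1 := by rw [abs_le]; constructor <;> linarith
      calc _ ≤ 1 * |gr F x S| := mul_le_mul_of_nonneg_right this (abs_nonneg _)
        _ = _ := one_mul _
    · have : F S - P β x F S = (- q β x S) * gr F x S := by
        unfold P gr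
        rw [erase_eq_of_notMem hxS]; ring
      rw [this, abs_mul]
      have : |- q β x S| ≤ 1 := by rw [abs_le]; constructor <;> linarith
      calc _ ≤ 1 * |gr F x S| := mul_le_mul_of_nonneg_right this (abs_nonneg _)
        _ = _ := one_mul _
  have hpt : ∀ S, |(g S - P β x g S) * (F S - P β x F S)|
      ≤ l * (Real.sqrt (g S) - Real.sqrt (P β x g S)) ^ 2
        + (1 / (2 * l)) * (g S * gr F x S ^ 2 + gr F x S ^ 2 * P β x g S) := by
    intro S
    have a1 := Real.sq_sqrt (hg S).le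
    have a2 := Real.sq_sqrt (hP S).le
    have s1 := Real.sqrt_nonneg (g S)
    have s2 := Real.sqrt_nonneg (P β x g S)
    set a := Real.sqrt (g S) with ha
    set b := Real.sqrt (P β x g S) with hb
    rw [abs_mul]
    have e : g S - P β x g S = (a - b) * (a + b) := by rw [← a1, ← a2]; ring
    rw [e, abs_mul, abs_of_nonneg (by positivity : 0 ≤ a + b), ← a1, ← a2]
    have hm : |a - b| * (a + b) * |F S - P β x F S| ≤ |a - b| * ((a + b) * |gr F x S|) := by
      rw [mul_assoc]
      apply mul_le_mul_of_nonneg_left _ (abs_nonneg _)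
      exact mul_le_mul_of_nonneg_left (hF S) (by positivity)
    refine hm.trans ?_
    set u := |a - b| with hu
    set v := |gr F x S| with hv
    have e1 : (a - b) ^ 2 = u ^ 2 := (sq_abs _).symm
    have e2 : gr F x S ^ 2 = v ^ 2 := (sq_abs _).symm
    rw [e1, e2]
    have h5 : u * ((a + b) * v) ≤ l * u ^ 2 + (1 / (4 * l)) * ((a + b) * v) ^ 2 := by
      have : 0 ≤ (1 / (4 * l)) * (2 * l * u - (a + b) * v) ^ 2 := by positivity
      have e3 : (1 / (4 * l)) * (2 * l * u - (a + b) * v) ^ 2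
          = l * u ^ 2 - u * ((a + b) * v) + (1 / (4 * l)) * ((a + b) * v) ^ 2 := by
        field_simp; ring
      linarith
    have h6 : (1 / (4 * l)) * ((a + b) * v) ^ 2 ≤ (1 / (2 * l)) * (a ^ 2 * v ^ 2 + v ^ 2 * b ^ 2) := by
      have e4 : (1 / (2 * l)) * (a ^ 2 * v ^ 2 + v ^ 2 * b ^ 2) - (1 / (4 * l)) * ((a + b) * v) ^ 2
          = (1 / (4 * l)) * ((a - b) * v) ^ 2 := by
        field_simp; ring
      have : 0 ≤ (1 / (4 * l)) * ((a - b) * v) ^ 2 := by positivity
      linarith
    linarith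
  rw [e1]
  have habs : |Ex β Λ (fun S => (g S - P β x g S) * (F S - P β x F S))|
      ≤ Ex β Λ (fun S => |(g S - P β x g S) * (F S - P β x F S)|) := by
    rw [abs_le]
    constructor
    · have := Ex_mono (β := β) (Λ := Λ)
        (f := fun S => (-1) * |(g S - P β x g S) * (F S - P β x F S)|)
        (g := fun S => (g S - P β x g S) * (F S - P β x F S))
        (fun S _ => by
          have := neg_abs_le ((g S - P β x g S) * (F S - P β x F S)); linarith)
      rw [Ex_mul] at this
      linarith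
    · exact Ex_mono fun S _ => le_abs_self _
  refine habs.trans ((Ex_mono fun S _ => hpt S).trans ?_)
  rw [Ex_add, Ex_mul, Ex_mul, Ex_add]
  have h7 : Ex β Λ (fun S => gr F x S ^ 2 * P β x g S) = Ex β Λ (fun S => g S * gr F x S ^ 2) := by
    rw [Ex_pull β hx (h := fun S => gr F x S ^ 2) (fun S => by rw [gr_insert])
      (fun S => by rw [gr_erase]) g]
    exact Ex_congr fun _ _ => mul_comm _ _
  rw [h7]
  have h8 := mul_le_mul_of_nonneg_left (Dx_lower (β := β) hx hg) hl.le
  have h9 : (1 / (2 * l)) * (Ex β Λ (fun S => g S * gr F x S ^ 2)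
      + Ex β Λ (fun S => g S * gr F x S ^ 2)) = (1 / l) * Ex β Λ (fun S => g S * gr F x S ^ 2) := by
    field_simp; ring
  linarith

lemma Hf_step {β n : ℝ} {Λ A : Finset V} (hn : 0 < n) (hA : (A.card : ℝ) ≤ n)
    {g : Finset V → ℝ} (hg : ∀ S, 0 < g S) :
    Hf β Λ (Q β n A g) ≤ Hf β Λ g - (1 / n) * ∑ x ∈ A, Dx β Λ x g := by
  have h1 : ∀ S, Q β n A g S * Real.log (Q β n A g S)
      ≤ (1 - A.card / n) * (g S * Real.log (g S))
        + (1 / n) * ∑ x ∈ A, P β x g S * Real.log (P β x g S) := by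
    intro S
    set a := Q β n A g S with ha
    have ha0 : 0 < a := Q_pos hn hA hg S
    have e := Q_eq β n A g S
    rw [← ha] at e
    have h0 : 0 ≤ 1 - A.card / n := by
      rw [sub_nonneg, div_le_one hn]; exact hA
    have t1 := mul_le_mul_of_nonneg_left (tangent ha0 (hg S)) h0
    have t2 : (1 / n) * ∑ x ∈ A, (a * Real.log a + (Real.log a + 1) * (P β x g S - a))
        ≤ (1 / n) * ∑ x ∈ A, P β x g S * Real.log (P β x g S) := by
      apply mul_le_mul_of_nonneg_left _ (by positivity)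
      exact sum_le_sum fun x _ => tangent ha0 (P_pos hg S)
    have e3 : ∑ x ∈ A, (a * Real.log a + (Real.log a + 1) * (P β x g S - a))
        = A.card * (a * Real.log a - (Real.log a + 1) * a)
          + (Real.log a + 1) * ∑ x ∈ A, P β x g S := by
      rw [mul_sum, ← nsmul_eq_mul, ← sum_const, ← sum_add_distrib]
      exact sum_congr rfl fun _ _ => by ring
    rw [e3] at t2
    have e4 : (1 - A.card / n) * (a * Real.log a + (Real.log a + 1) * (g S - a))
        + (1 / n) * (A.card * (a * Real.log a - (Real.log a + 1) * a)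
          + (Real.log a + 1) * ∑ x ∈ A, P β x g S)
        = a * Real.log a + (Real.log a + 1) * (((1 - A.card / n) * g S
          + (1 / n) * ∑ x ∈ A, P β x g S) - a) := by ring
    rw [← e, sub_self, mul_zero, add_zero] at e4
    linarith
  unfold Hf
  refine (Ex_mono fun S _ => h1 S).trans ?_
  rw [Ex_add, Ex_mul, Ex_mul, Ex_sum]
  unfold Dx Hf
  rw [sum_sub_distrib, sum_const, nsmul_eq_mul]
  apply le_of_eq
  ring

/-- The entropy method. -/
theorem entropy_method {β n : ℝ} {Λ : Finset V} (hn : 0 < n) (hΛ : (Λ.card : ℝ) ≤ n)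
    {g : Finset V → ℝ} (hg : ∀ S, 0 < g S) (hg1 : Ex β Λ g = 1) {h : ℝ} (hh : Hf β Λ g ≤ h)
    (F : Finset V → ℝ) {G l : ℝ} (hl : 0 < l)
    (hG : ∀ u : Finset V → ℝ, (∀ S, 0 < u S) → Ex β Λ u = 1 → Hf β Λ u ≤ h →
      ∑ x ∈ Λ, Ex β Λ (fun S => u S * gr F x S ^ 2) ≤ G) (t : ℕ) :
    |Ex β Λ (fun S => g S * Qt β n Λ t F S) - Ex β Λ (fun S => g S * F S)|
      ≤ l * (Hf β Λ g - Hf β Λ (Qt β n Λ t g)) + t / n * (G / l) := by
  have hpos := fun t => Qt_pos (β := β) hn hΛ t hg
  have hone : ∀ t, Ex β Λ (Qt β n Λ t g) = 1 := fun t => by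
    rw [Ex_Qt β n subset_rfl, hg1]
  have hDx : ∀ t, ∀ x ∈ Λ, 0 ≤ Dx β Λ x (Qt β n Λ t g) := fun t x hx =>
    (Ex_nonneg (fun _ _ => sq_nonneg _)).trans (Dx_lower hx (hpos t))
  have hent : ∀ t, Hf β Λ (Qt β n Λ t g) ≤ h := by
    intro t
    induction t with
    | zero => exact hh
    | succ t ih =>
      rw [Qt_succ]
      refine (Hf_step hn hΛ (hpos t)).trans ?_
      have : 0 ≤ (1 / n) * ∑ x ∈ Λ, Dx β Λ x (Qt β n Λ t g) :=
        mul_nonneg (by positivity) (sum_nonneg (hDx t))
      linarith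
  induction t with
  | zero => simp [Qt_zero]
  | succ t ih =>
    have e1 : ∀ s, Ex β Λ (fun S => g S * Qt β n Λ s F S)
        = Ex β Λ (fun S => Qt β n Λ s g S * F S) := fun s => Ex_Qt_symm β n subset_rfl s g F
    rw [e1] at ih ⊢
    set u := Qt β n Λ t g with hu
    have e2 : Ex β Λ (fun S => Qt β n Λ (t + 1) g S * F S) - Ex β Λ (fun S => u S * F S)
        = (1 / n) * ∑ x ∈ Λ, Ex β Λ (fun S => -1 * ((u S - P β x u S) * F S)) := by
      rw [← Ex_sub, ← Ex_sum, ← Ex_mul]
      apply Ex_congr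
      intro S _
      rw [Qt_succ]
      unfold Q
      rw [← hu, add_mul, add_sub_cancel_left, mul_assoc, sum_mul]
      congr 1
      exact sum_congr rfl fun _ _ => by ring
    have h2 : |Ex β Λ (fun S => Qt β n Λ (t + 1) g S * F S) - Ex β Λ (fun S => u S * F S)|
        ≤ (1 / n) * ∑ x ∈ Λ, (l * Dx β Λ x u + (1 / l) * Ex β Λ (fun S => u S * gr F x S ^ 2)) := by
      rw [e2, abs_mul, abs_of_pos (by positivity : 0 < 1 / n)]
      apply mul_le_mul_of_nonneg_left _ (by positivity)
      refine (abs_sum_le_sum_abs _ _).trans (sum_le_sum fun x hx => ?_)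
      rw [Ex_mul, abs_mul]
      norm_num
      have := flux (β := β) hx (hpos t) F hl
      rw [← hu] at this
      simpa using this
    rw [sum_add_distrib, ← mul_sum, ← mul_sum] at h2
    have h3 := Hf_step (β := β) (Λ := Λ) hn hΛ (hpos t)
    rw [← Qt_succ, ← hu] at h3
    have h4 := hG u (hpos t) (hone t) (hent t)
    have h5 : (1 / n) * (l * ∑ x ∈ Λ, Dx β Λ x u + (1 / l) * ∑ x ∈ Λ,
        Ex β Λ (fun S => u S * gr F x S ^ 2))
        ≤ l * (Hf β Λ u - Hf β Λ (Qt β n Λ (t + 1) g)) + (1 / n) * (G / l) := by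
      have h6 : (1 / n) * ((1 / l) * ∑ x ∈ Λ, Ex β Λ (fun S => u S * gr F x S ^ 2))
          ≤ (1 / n) * (G / l) := by
        apply mul_le_mul_of_nonneg_left _ (by positivity)
        rw [one_div_mul_eq_div]
        exact div_le_div_of_nonneg_right h4 hl.le
      have h7 : l * ((1 / n) * ∑ x ∈ Λ, Dx β Λ x u)
          ≤ l * (Hf β Λ u - Hf β Λ (Qt β n Λ (t + 1) g)) := by
        apply mul_le_mul_of_nonneg_left _ hl.le
        linarith
      calc _ = l * ((1 / n) * ∑ x ∈ Λ, Dx β Λ x u)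
            + (1 / n) * ((1 / l) * ∑ x ∈ Λ, Ex β Λ (fun S => u S * gr F x S ^ 2)) := by ring
        _ ≤ _ := add_le_add h7 h6
    have h8 := abs_sub_le (Ex β Λ (fun S => Qt β n Λ (t + 1) g S * F S))
      (Ex β Λ (fun S => u S * F S)) (Ex β Λ (fun S => g S * F S))
    have h9 : ((t + 1 : ℕ) : ℝ) / n * (G / l) = t / n * (G / l) + (1 / n) * (G / l) := by
      push_cast; ring
    rw [h9]
    linarith

/-- The entropy inequality. -/
lemma entropy_ineq {β : ℝ} {Λ : Finset V} {g : Finset V → ℝ} (hg : ∀ S, 0 < g S)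
    (hg1 : Ex β Λ g = 1) (G : Finset V → ℝ) {c : ℝ}
    (hG : Ex β Λ (fun S => Real.exp (G S)) ≤ Real.exp c) :
    Ex β Λ (fun S => g S * G S) ≤ Hf β Λ g + c := by
  have h : ∀ S, g S * G S ≤ g S * Real.log (g S) - g S + Real.exp (-c) * Real.exp (G S)
      + c * g S := by
    intro S
    have h1 := Real.add_one_le_exp (G S - c - Real.log (g S))
    have h2 : Real.exp (G S - c - Real.log (g S)) = Real.exp (-c) * Real.exp (G S) / g S := by
      rw [Real.exp_sub, Real.exp_log (hg S), sub_eq_add_neg, Real.exp_add]; ring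
    rw [h2] at h1
    have h3 := mul_le_mul_of_nonneg_left h1 (hg S).le
    have h4 : g S * (Real.exp (-c) * Real.exp (G S) / g S) = Real.exp (-c) * Real.exp (G S) := by
      field_simp [(hg S).ne']
    rw [h4] at h3
    linarith
  refine (Ex_mono fun S _ => h S).trans ?_
  rw [Ex_add, Ex_add, Ex_sub, Ex_mul, Ex_mul, hg1]
  have h5 : Real.exp (-c) * Ex β Λ (fun S => Real.exp (G S)) ≤ 1 := by
    calc _ ≤ Real.exp (-c) * Real.exp c := mul_le_mul_of_nonneg_left hG (Real.exp_pos _).le
      _ = 1 := by rw [← Real.exp_add]; simp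
  unfold Hf
  linarith

end Pool.Agent.Work.MP_4cb49c_pr
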