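import Pool.Agent.Work.MP_4cb49c_pr.Contour

/-!
# Closed edge sets and their interior in a rectangle
-/

namespace Pool.Agent.Work.MP_4cb49c_pr

open Finset

/-- Indicator with values in `ZMod 2`. -/
def ind (D : Finset E) (e : E) : ZMod 2 := if e ∈ D then 1 else 0

lemma z2 (a : ZMod 2) : a = 0 ∨ a = 1 := by
  revert a; decide

lemma z2_add_self (a : ZMod 2) : a + a = 0 := by
  revert a; decide

lemma ind_eq_one {D : Finset E} {e : E} : ind D e = 1 ↔ e ∈ D := by
  unfold ind; split_ifs with h <;> simp [h]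

/-- Every plaquette has an even number of edges in `D`. -/
def Clo (D : Finset E) : Prop :=
  ∀ p : V, ind D (p, false) + ind D ((p.1, p.2 + 1), false) + ind D (p, true)
    + ind D ((p.1 + 1, p.2), true) = 0

lemma clo_bd (S : Finset V) : Clo (bd S) := by
  intro p
  have h : ∀ e : E, ind (bd S) e = (if e.1 ∈ S then 1 else 0) + (if hd e ∈ S then 1 else 0) := by
    intro e
    unfold ind
    by_cases h1 : e.1 ∈ S <;> by_cases h2 : hd e ∈ S
    all_goals simp [mem_bd, h1, h2]
    decide
  simp only [h, hd]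
  norm_num
  generalize (if p ∈ S then (1 : ZMod 2) else 0) = a
  generalize (if (p.1 + 1, p.2) ∈ S then (1 : ZMod 2) else 0) = b
  generalize (if (p.1, p.2 + 1) ∈ S then (1 : ZMod 2) else 0) = c
  generalize (if (p.1 + 1, p.2 + 1) ∈ S then (1 : ZMod 2) else 0) = d
  revert a b c d
  decide

lemma clo_sub {D γ : Finset E} (hD : Clo D) (h1 : γ ⊆ D)
    (h2 : ∀ e ∈ γ, ∀ f ∈ N e, f ∈ D → f ∈ γ) : Clo γ := by
  intro p
  have key : ∀ e : E, e ∈ γ → (∀ f, f = e ∨ f ∈ N e → ind γ f = ind D f) := by
    intro e he f hf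
    unfold ind
    by_cases hfD : f ∈ D
    · have : f ∈ γ := by
        rcases hf with rfl | hf
        · exact he
        · exact h2 e he f hf hfD
      simp [hfD, this]
    · have : f ∉ γ := fun h => hfD (h1 h)
      simp [hfD, this]
  have hp := hD p
  by_cases a1 : (p, false) ∈ γ
  · have k := key _ a1
    rw [k _ (Or.inl rfl), k ((p.1, p.2 + 1), false) (by right; simp [N]),
      k (p, true) (by right; simp [N]), k ((p.1 + 1, p.2), true) (by right; simp [N])]
    exact hp
  by_cases a2 : ((p.1, p.2 + 1), false) ∈ γ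
  · have k := key _ a2
    rw [k (p, false) (by right; simp [N]), k ((p.1, p.2 + 1), false) (Or.inl rfl),
      k (p, true) (by right; simp [N]), k ((p.1 + 1, p.2), true) (by right; simp [N])]
    exact hp
  by_cases a3 : (p, true) ∈ γ
  · have k := key _ a3
    rw [k (p, false) (by right; simp [N]), k ((p.1, p.2 + 1), false) (by right; simp [N]),
      k (p, true) (Or.inl rfl), k ((p.1 + 1, p.2), true) (by right; simp [N])]
    exact hp
  by_cases a4 : ((p.1 + 1, p.2), true) ∈ γ
  · have k := key _ a4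
    rw [k (p, false) (by right; simp [N]), k ((p.1, p.2 + 1), false) (by right; simp [N]),
      k (p, true) (by right; simp [N]), k ((p.1 + 1, p.2), true) (Or.inl rfl)]
    exact hp
  simp [ind, a1, a2, a3, a4]

lemma IsComp.clo {D γ : Finset E} (h : IsComp D γ) (hD : Clo D) : Clo γ :=
  clo_sub hD h.1 h.2.2.2

/-- Parity of the number of edges of `γ` crossed by the horizontal ray from `x` to the right. -/
def ray (γ : Finset E) (x : V) : ZMod 2 :=
  ∑ e ∈ γ, if (e.2 = false ∧ e.1.2 = x.2 ∧ x.1 ≤ e.1.1) then 1 else 0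

lemma sum_symmDiff_z2 (f : E → ZMod 2) (γ δ : Finset E) :
    ∑ e ∈ symmDiff γ δ, f e = ∑ e ∈ γ, f e + ∑ e ∈ δ, f e := by
  rw [symmDiff_def, sup_eq_union, sum_union, ← sum_sdiff (inter_subset_left (s₁ := γ) (s₂ := δ)),
    ← sum_sdiff (inter_subset_right (s₁ := γ) (s₂ := δ))]
  · have h1 : γ \ (γ ∩ δ) = γ \ δ := by
      ext; simp
    have h2 : δ \ (γ ∩ δ) = δ \ γ := by
      ext; simp
    rw [h1, h2]
    have := z2_add_self (∑ x ∈ γ ∩ δ, f x)
    linear_combination -this
  · rw [disjoint_left]
    intro e he he'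
    simp only [mem_sdiff] at he he'
    exact he'.2 he.1

lemma ray_symmDiff (γ δ : Finset E) (x : V) : ray (symmDiff γ δ) x = ray γ x + ray δ x :=
  sum_symmDiff_z2 _ _ _

lemma ray_step (γ : Finset E) (x : V) :
    ray γ x = ray γ (x.1 + 1, x.2) + ind γ (x, false) := by
  have h : ind γ (x, false) = ∑ e ∈ γ, if e = (x, false) then 1 else 0 := by
    rw [sum_ite_eq']
    rfl
  rw [h]
  unfold ray
  rw [← sum_add_distrib]
  apply sum_congr rfl
  intro e _
  obtain ⟨⟨a, b⟩, c⟩ := e
  obtain ⟨u, v⟩ := x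
  simp only [Prod.mk.injEq]
  by_cases h1 : c = false <;> by_cases h2 : b = v <;> by_cases h3 : u + 1 ≤ a
  · have h4 : ¬ a = u := by omega
    have h5 : u ≤ a := by omega
    simp [h1, h2, h3, h4, h5]
  · by_cases h4 : a = u
    · simp [h1, h2, h4]
    · have h5 : ¬ u ≤ a := by omega
      simp [h1, h2, h3, h4, h5]
  all_goals simp [h1, h2]

lemma ray_far (γ : Finset E) : ∃ M : ℤ, ∀ x : V, M ≤ x.1 → ray γ x = 0 := by
  induction γ using Finset.induction_on with
  | empty => exact ⟨0, fun x _ => by simp [ray]⟩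
  | insert e γ he ih =>
    obtain ⟨M, hM⟩ := ih
    refine ⟨max M (e.1.1 + 1), fun x hx => ?_⟩
    have h1 := hM x (by omega)
    unfold ray at h1 ⊢
    rw [sum_insert he, h1]
    have : ¬ (x.1 ≤ e.1.1) := by omega
    simp [this]

/-- A function which is invariant under shifts to the right and vanishes far to the right is
zero. -/
lemma zero_of_step (f : V → ZMod 2) (M : ℤ) (h1 : ∀ x : V, f x = f (x.1 + 1, x.2))
    (h2 : ∀ x : V, M ≤ x.1 → f x = 0) (x : V) : f x = 0 := by
  have key : ∀ (k : ℕ) (x : V), M - k ≤ x.1 → f x = 0 := by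
    intro k
    induction k with
    | zero => intro x hx; exact h2 x (by simpa using hx)
    | succ k ih =>
      intro x hx
      rw [h1]
      apply ih
      push_cast at hx
      simp only
      omega
  exact key (M - x.1).toNat x (by have := Int.self_le_toNat (M - x.1); omega)

lemma ray_vert {γ : Finset E} (h : Clo γ) (x : V) :
    ray γ x + ray γ (x.1, x.2 + 1) = ind γ (x, true) := by
  obtain ⟨M, hM⟩ := ray_far γ
  have hfar : ∃ M' : ℤ, ∀ x : V, M' ≤ x.1 → ind γ (x, true) = 0 := by
    induction γ using Finset.induction_on with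
    | empty => exact ⟨0, fun x _ => by simp [ind]⟩
    | insert e γ he _ =>
      clear h hM
      have : ∀ δ : Finset E, ∃ M' : ℤ, ∀ x : V, M' ≤ x.1 → ind δ (x, true) = 0 := by
        intro δ
        induction δ using Finset.induction_on with
        | empty => exact ⟨0, fun x _ => by simp [ind]⟩
        | insert e δ he ih =>
          obtain ⟨M, hM⟩ := ih
          refine ⟨max M (e.1.1 + 1), fun x hx => ?_⟩
          have h1 := hM x (by omega)
          unfold ind at h1 ⊢
          have h2 : (x, true) ≠ e := by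
            rintro rfl
            simp at hx
          simpa [mem_insert, h2] using h1
      exact this _
  obtain ⟨M', hM'⟩ := hfar
  have key := zero_of_step (fun x => ray γ x + ray γ (x.1, x.2 + 1) - ind γ (x, true)) (max M M')
    ?_ ?_ x
  · exact sub_eq_zero.mp key
  · intro x
    rw [ray_step γ x, ray_step γ (x.1, x.2 + 1)]
    have := h x
    have t1 := z2_add_self (ind γ (x, true))
    linear_combination this - t1
  · intro x hx
    rw [hM x (by omega), hM (x.1, x.2 + 1) (by simp only; omega), hM' x (by omega)]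
    ring

lemma ray_bd (S : Finset V) (x : V) : ray (bd S) x = if x ∈ S then 1 else 0 := by
  obtain ⟨M, hM⟩ := ray_far (bd S)
  have hfar : ∃ M' : ℤ, ∀ x : V, M' ≤ x.1 → x ∉ S := by
    induction S using Finset.induction_on with
    | empty => exact ⟨0, fun x _ => by simp⟩
    | insert e γ he ih =>
      clear hM ih
      have : ∀ δ : Finset V, ∃ M' : ℤ, ∀ x : V, M' ≤ x.1 → x ∉ δ := by
        intro δ
        induction δ using Finset.induction_on with
        | empty => exact ⟨0, fun x _ => by simp⟩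
        | insert e δ he ih =>
          obtain ⟨M, hM⟩ := ih
          refine ⟨max M (e.1 + 1), fun x hx => ?_⟩
          have h1 := hM x (by omega)
          have h2 : x ≠ e := by
            rintro rfl
            omega
          rw [mem_insert]
          tauto
      exact this _
  obtain ⟨M', hM'⟩ := hfar
  have key := zero_of_step (fun x => ray (bd S) x - if x ∈ S then 1 else 0) (max M M') ?_ ?_ x
  · exact sub_eq_zero.mp key
  · intro x
    rw [ray_step (bd S) x]
    have : ind (bd S) (x, false) =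
        (if x ∈ S then 1 else 0) - (if (x.1 + 1, x.2) ∈ S then 1 else 0) := by
      unfold ind
      by_cases h1 : x ∈ S <;> by_cases h2 : (x.1 + 1, x.2) ∈ S
      all_goals simp [mem_bd, h1, h2, hd]
    rw [this]
    ring
  · intro x hx
    rw [hM x (by omega)]
    simp [hM' x (by omega)]

/-- The points of `Λ` enclosed by `γ`. -/
def fillIn (Λ : Finset V) (γ : Finset E) : Finset V := Λ.filter (fun x => ray γ x = 1)

lemma fillIn_symmDiff (Λ : Finset V) (γ δ : Finset E) :
    fillIn Λ (symmDiff γ δ) = symmDiff (fillIn Λ γ) (fillIn Λ δ) := by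
  ext x
  simp only [fillIn, mem_filter, mem_symmDiff, ray_symmDiff]
  generalize ray γ x = a
  generalize ray δ x = b
  rcases z2 a with rfl | rfl <;> rcases z2 b with rfl | rfl
  · simp
  · simp
  · simp
  · have : (1 : ZMod 2) + 1 = 0 := by decide
    simp [this]

lemma fillIn_bd {Λ S : Finset V} (h : S ⊆ Λ) : fillIn Λ (bd S) = S := by
  ext x
  simp only [fillIn, mem_filter, ray_bd]
  by_cases hx : x ∈ S
  · simp [hx, h hx]
  · simp [hx]

/-- Rectangles. -/
noncomputable def rect (a₀ a₁ b₀ b₁ : ℤ) : Finset V := Icc a₀ a₁ ×ˢ Icc b₀ b₁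

lemma mem_rect {a₀ a₁ b₀ b₁ : ℤ} {x : V} :
    x ∈ rect a₀ a₁ b₀ b₁ ↔ (a₀ ≤ x.1 ∧ x.1 ≤ a₁) ∧ (b₀ ≤ x.2 ∧ x.2 ≤ b₁) := by
  unfold rect
  rw [mem_product, mem_Icc, mem_Icc]

lemma ray_outside {a₀ a₁ b₀ b₁ : ℤ} {γ : Finset E} (h1 : γ ⊆ touch (rect a₀ a₁ b₀ b₁))
    (h2 : Clo γ) {x : V} (hx : x ∉ rect a₀ a₁ b₀ b₁) : ray γ x = 0 := by
  have hE : ∀ e ∈ γ, e.2 = false → (a₀ - 1 ≤ e.1.1 ∧ e.1.1 ≤ a₁) ∧ (b₀ ≤ e.1.2 ∧ e.1.2 ≤ b₁) := by
    intro e he hf
    have := h1 he
    rw [mem_touch, mem_rect, mem_rect] at this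
    simp only [hd, hf] at this
    simp at this
    omega
  have hrow : ∀ x : V, (x.2 < b₀ ∨ b₁ < x.2) → ray γ x = 0 := by
    intro x hx
    unfold ray
    apply sum_eq_zero
    intro e he
    rw [if_neg]
    rintro ⟨h3, h4, _⟩
    have := hE e he h3
    omega
  have hright : ∀ x : V, a₁ < x.1 → ray γ x = 0 := by
    intro x hx
    unfold ray
    apply sum_eq_zero
    intro e he
    rw [if_neg]
    rintro ⟨h3, _, h4⟩
    have := hE e he h3
    omega
  have hleft : ∀ (k : ℕ) (x : V), x.1 < a₀ → b₁ + 1 - k ≤ x.2 → ray γ x = 0 := by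
    intro k
    induction k with
    | zero =>
      intro x _ hx2
      exact hrow x (Or.inr (by push_cast at hx2; omega))
    | succ k ih =>
      intro x hx1 hx2
      have hv := ray_vert h2 x
      have h3 : ray γ (x.1, x.2 + 1) = 0 := by
        apply ih
        · exact hx1
        · push_cast at hx2
          simp only
          omega
      have h4 : ind γ (x, true) = 0 := by
        unfold ind
        rw [if_neg]
        intro h5
        have := h1 h5
        rw [mem_touch, mem_rect, mem_rect] at this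
        simp only [hd] at this
        simp at this
        omega
      rw [h3, h4, add_zero] at hv
      exact hv
  rw [mem_rect] at hx
  by_cases c1 : x.2 < b₀ ∨ b₁ < x.2
  · exact hrow x c1
  by_cases c2 : a₁ < x.1
  · exact hright x c2
  · have : x.1 < a₀ := by
      by_contra hcon
      apply hx
      push Not at c1 c2 hcon
      exact ⟨⟨hcon, c2⟩, c1⟩
    exact hleft (b₁ + 1 - x.2).toNat x this
      (by have := Int.self_le_toNat (b₁ + 1 - x.2); omega)

lemma bd_fillIn {a₀ a₁ b₀ b₁ : ℤ} {γ : Finset E} (h1 : γ ⊆ touch (rect a₀ a₁ b₀ b₁))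
    (h2 : Clo γ) : bd (fillIn (rect a₀ a₁ b₀ b₁) γ) = γ := by
  have hm : ∀ x : V, x ∈ fillIn (rect a₀ a₁ b₀ b₁) γ ↔ ray γ x = 1 := by
    intro x
    simp only [fillIn, mem_filter]
    constructor
    · exact fun h => h.2
    · intro h
      refine ⟨?_, h⟩
      by_contra hcon
      rw [ray_outside h1 h2 hcon] at h
      exact absurd h (by decide)
  ext e
  rw [mem_bd, hm, hm]
  obtain ⟨x, c⟩ := e
  have hrel : ray γ x + ray γ (hd (x, c)) = ind γ (x, c) := by
    cases c
    · simp only [hd]
      simp only [Bool.false_eq_true, if_false]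
      rw [ray_step γ x]
      have := z2_add_self (ray γ (x.1 + 1, x.2))
      linear_combination this
    · simp only [hd, if_true]
      exact ray_vert h2 x
  rw [← ind_eq_one, ← hrel]
  generalize ray γ x = a
  generalize ray γ (hd (x, c)) = b
  rcases z2 a with rfl | rfl <;> rcases z2 b with rfl | rfl <;> decide

/-- Isoperimetry. -/
lemma card_le_bc_sq (S : Finset V) : S.card ≤ bc S ^ 2 := by
  classical
  have hh : ∀ x ∈ S, ∃ e ∈ bd S, e.1.2 = x.2 := by
    intro x hx
    have h := ray_bd S x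
    rw [if_pos hx] at h
    by_contra hcon
    push Not at hcon
    have : ray (bd S) x = 0 := by
      unfold ray
      apply sum_eq_zero
      intro e he
      rw [if_neg]
      rintro ⟨_, h4, _⟩
      exact hcon e he h4
    rw [this] at h
    exact absurd h (by decide)
  have hv : ∀ x ∈ S, ∃ e ∈ bd S, e.1.1 = x.1 := by
    intro x hx
    -- take the highest point of the column
    have hne : (S.filter (fun y => y.1 = x.1)).Nonempty := ⟨x, by simp [hx]⟩
    obtain ⟨y, hy, hmax⟩ := exists_max_image _ (fun y : V => y.2) hne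
    rw [mem_filter] at hy
    refine ⟨(y, true), ?_, hy.2⟩
    rw [mem_bd]
    have : (y.1, y.2 + 1) ∉ S := by
      intro hcon
      have := hmax (y.1, y.2 + 1) (by rw [mem_filter]; exact ⟨hcon, hy.2⟩)
      simp at this
    simp [hd, hy.1, this]
  have hsub : S ⊆ (bd S ×ˢ bd S).image (fun p => (p.1.1.1, p.2.1.2)) := by
    intro x hx
    obtain ⟨e, he, he'⟩ := hv x hx
    obtain ⟨f, hf, hf'⟩ := hh x hx
    rw [mem_image]
    refine ⟨(e, f), by rw [mem_product]; exact ⟨he, hf⟩, ?_⟩
    simp only [he', hf']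
  calc S.card ≤ ((bd S ×ˢ bd S).image (fun p => (p.1.1.1, p.2.1.2))).card := card_le_card hsub
    _ ≤ (bd S ×ˢ bd S).card := card_image_le
    _ = bc S ^ 2 := by rw [card_product, sq]; rfl

lemma card_fillIn_le {a₀ a₁ b₀ b₁ : ℤ} {γ : Finset E} (h1 : γ ⊆ touch (rect a₀ a₁ b₀ b₁))
    (h2 : Clo γ) : (fillIn (rect a₀ a₁ b₀ b₁) γ).card ≤ γ.card ^ 2 := by
  have := card_le_bc_sq (fillIn (rect a₀ a₁ b₀ b₁) γ)
  unfold bc at this
  rwa [bd_fillIn h1 h2] at this

end Pool.Agent.Work.MP_4cb49c_pr
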