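import Pool.Agent.Work.MP_4cb49c_pr.Ent

/-!
# The volume enclosed by long contours
-/

namespace Pool.Agent.Work.MP_4cb49c_pr

open Finset

/-- The edges in components of size at least `l`. -/
noncomputable def large (l : ℕ) (D : Finset E) : Finset E :=
  D.filter (fun e => l ≤ (comp D e).card)

/-- The edges in components of size less than `l`. -/
noncomputable def small (l : ℕ) (D : Finset E) : Finset E :=
  D.filter (fun e => (comp D e).card < l)

lemma mem_large {l : ℕ} {D : Finset E} {e : E} :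
    e ∈ large l D ↔ e ∈ D ∧ l ≤ (comp D e).card := by
  simp only [large, mem_filter]

lemma mem_small {l : ℕ} {D : Finset E} {e : E} :
    e ∈ small l D ↔ e ∈ D ∧ (comp D e).card < l := by
  simp only [small, mem_filter]

lemma comp_eq {D : Finset E} {e f : E} (he : e ∈ D) (hf : f ∈ comp D e) :
    comp D f = comp D e := by
  have h1 := comp_isComp he
  exact (h1.eq_comp hf).symm

lemma large_adj {l : ℕ} {D : Finset E} :
    ∀ e ∈ large l D, ∀ f ∈ N e, f ∈ D → f ∈ large l D := by
  intro e he f hf hfD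
  rw [mem_large] at he ⊢
  have h1 : f ∈ comp D e := (comp_isComp he.1).2.2.2 e (self_mem_comp he.1) f hf hfD
  rw [comp_eq he.1 h1]
  exact ⟨hfD, he.2⟩

lemma ind_symmDiff (γ δ : Finset E) (e : E) : ind (symmDiff γ δ) e = ind γ e + ind δ e := by
  unfold ind
  by_cases h1 : e ∈ γ <;> by_cases h2 : e ∈ δ
  all_goals simp [mem_symmDiff, h1, h2]
  decide

lemma Clo.symmDiff {γ δ : Finset E} (h1 : Clo γ) (h2 : Clo δ) : Clo (symmDiff γ δ) := by
  intro p
  have a := h1 p
  have b := h2 p
  simp only [ind_symmDiff]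
  linear_combination a + b

lemma clo_large (l : ℕ) {D : Finset E} (h : Clo D) : Clo (large l D) :=
  clo_sub h (filter_subset _ _) large_adj

/-- The small components touching `nb B`. -/
noncomputable def Wt (l : ℕ) (D B : Finset E) : Finset E :=
  (nb B).biUnion (fun f => if (comp D f).card < l then comp D f else ∅)

lemma Wt_card (l : ℕ) (D B : Finset E) : (Wt l D B).card ≤ 7 * B.card * l := by
  unfold Wt
  calc _ ≤ ∑ f ∈ nb B, (if (comp D f).card < l then comp D f else ∅).card := card_biUnion_le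
    _ ≤ ∑ _f ∈ nb B, l := by
        apply sum_le_sum
        intro f _
        split_ifs with h
        · exact h.le
        · simp
    _ = (nb B).card * l := by rw [sum_const, smul_eq_mul]
    _ ≤ 7 * B.card * l := Nat.mul_le_mul_right _ (nb_card_le B)

lemma comp_local {D D' B : Finset E} (hD : symmDiff D D' ⊆ B) {e : E} (he : e ∈ D)
    (h : ∀ f ∈ comp D e, f ∉ nb B) : e ∈ D' ∧ comp D' e = comp D e := by
  have h1 := (comp_isComp he).local h hD
  have h2 := self_mem_comp he
  exact ⟨h1.1 h2, (h1.eq_comp h2).symm⟩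

lemma large_diff {D D' B : Finset E} (hD : symmDiff D D' ⊆ B) (l : ℕ) :
    symmDiff (large l D) (large l D') ⊆ B ∪ (Wt l D B ∪ Wt l D' B) := by
  have hD' : symmDiff D' D ⊆ B := by rw [symmDiff_comm]; exact hD
  -- one direction
  have key : ∀ (D D' : Finset E), symmDiff D D' ⊆ B → symmDiff D' D ⊆ B →
      ∀ e ∈ large l D, e ∉ large l D' → e ∈ B ∨ e ∈ Wt l D' B := by
    intro D D' hD hD' e he he'
    rw [mem_large] at he he'
    by_cases heD' : e ∈ D'
    · right
      have hs : (comp D' e).card < l := by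
        by_contra hcon
        exact he' ⟨heD', not_lt.mp hcon⟩
      -- the component of `e` in `D'` touches `nb B`
      by_cases ht : ∀ f ∈ comp D' e, f ∉ nb B
      · exfalso
        obtain ⟨_, h2⟩ := comp_local hD' heD' ht
        rw [h2] at he
        omega
      · push Not at ht
        obtain ⟨f, hf, hfB⟩ := ht
        unfold Wt
        rw [mem_biUnion]
        refine ⟨f, hfB, ?_⟩
        have h3 := comp_eq heD' hf
        rw [h3, if_pos hs]
        exact self_mem_comp heD'
    · left
      apply hD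
      rw [mem_symmDiff]; left; exact ⟨he.1, heD'⟩
  intro e he
  rw [mem_symmDiff] at he
  rw [mem_union, mem_union]
  rcases he with ⟨h1, h2⟩ | ⟨h1, h2⟩
  · rcases key D D' hD hD' e h1 h2 with h | h
    · exact Or.inl h
    · exact Or.inr (Or.inr h)
  · rcases key D' D hD' hD e h1 h2 with h | h
    · exact Or.inl h
    · exact Or.inr (Or.inl h)

lemma large_same {D D' B : Finset E} (hD : symmDiff D D' ⊆ B) {l m : ℕ}
    (hl : B.card + 7 * B.card * m < l) (h : ∀ f ∈ nb B, f ∈ D → (comp D f).card < m) :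
    large l D = large l D' := by
  have hD' : symmDiff D' D ⊆ B := by rw [symmDiff_comm]; exact hD
  have hml : B.Nonempty → m < l := by
    intro hB
    have : 1 ≤ B.card := card_pos.mpr hB
    nlinarith
  ext e
  rw [mem_large, mem_large]
  constructor
  · rintro ⟨h1, h2⟩
    have h3 : ∀ f ∈ comp D e, f ∉ nb B := by
      intro f hf hfB
      have h4 := h f hfB ((comp_isComp h1).1 hf)
      rw [comp_eq h1 hf] at h4
      have hBn : B.Nonempty := by
        rw [nonempty_iff_ne_empty]
        rintro rfl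
        simp [nb] at hfB
      have := hml hBn
      omega
    obtain ⟨h5, h6⟩ := comp_local hD h1 h3
    exact ⟨h5, by rw [h6]; exact h2⟩
  · rintro ⟨h1, h2⟩
    by_cases h3 : ∀ f ∈ comp D' e, f ∉ nb B
    · obtain ⟨h5, h6⟩ := comp_local hD' h1 h3
      exact ⟨h5, by rw [h6]; exact h2⟩
    · exfalso
      push Not at h3
      obtain ⟨f, hf, hfB⟩ := h3
      have hsub : comp D' e ⊆ B ∪ Wt m D B := by
        intro g hg
        rw [mem_union]
        by_cases hgB : g ∈ B
        · exact Or.inl hgB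
        right
        have hgD' : g ∈ D' := (comp_isComp h1).1 hg
        have hgD : g ∈ D := by
          by_contra hcon
          apply hgB
          apply hD
          rw [mem_symmDiff]; right; exact ⟨hgD', hcon⟩
        by_cases h4 : ∀ f ∈ comp D g, f ∉ nb B
        · exfalso
          obtain ⟨_, h6⟩ := comp_local hD hgD h4
          rw [comp_eq h1 hg] at h6
          rw [← h6] at h4
          exact h4 f hf hfB
        · push Not at h4
          obtain ⟨f', hf', hfB'⟩ := h4
          have h7 := h f' hfB' ((comp_isComp hgD).1 hf')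
          unfold Wt
          rw [mem_biUnion]
          refine ⟨f', hfB', ?_⟩
          rw [if_pos h7, comp_eq hgD hf']
          exact self_mem_comp hgD
      have h8 := card_le_card hsub
      have h9 := card_union_le B (Wt m D B)
      have h10 := Wt_card m D B
      omega

/-- Volume enclosed by the contours of length at least `l`. -/
noncomputable def Afun (l : ℕ) (Λ : Finset V) (S : Finset V) : ℝ :=
  ((fillIn Λ (large l (bd S))).card : ℝ)

lemma insert_symmDiff (x : V) (S : Finset V) :
    symmDiff (insert x S) (S.erase x) = {x} := by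
  ext y
  simp only [mem_symmDiff, mem_insert, mem_erase, mem_singleton]
  tauto

lemma bd_insert_erase (x : V) (S : Finset V) :
    symmDiff (bd (insert x S)) (bd (S.erase x)) = inc x := by
  rw [← bd_symmDiff, insert_symmDiff, bd_singleton]

lemma card_sub_le (X Y : Finset V) : |(X.card : ℝ) - Y.card| ≤ (symmDiff X Y).card := by
  have h1 : X.card ≤ Y.card + (symmDiff X Y).card := by
    calc X.card ≤ (Y ∪ symmDiff X Y).card := by
          apply card_le_card
          intro x hx
          rw [mem_union, mem_symmDiff]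
          tauto
      _ ≤ _ := card_union_le _ _
  have h2 : Y.card ≤ X.card + (symmDiff X Y).card := by
    calc Y.card ≤ (X ∪ symmDiff X Y).card := by
          apply card_le_card
          intro x hx
          rw [mem_union, mem_symmDiff]
          tauto
      _ ≤ _ := card_union_le _ _
  have h1' : (X.card : ℝ) ≤ Y.card + (symmDiff X Y).card := by exact_mod_cast h1
  have h2' : (Y.card : ℝ) ≤ X.card + (symmDiff X Y).card := by exact_mod_cast h2
  rw [abs_le]
  constructor <;> linarith

lemma gr_bound {a₀ a₁ b₀ b₁ : ℤ} (l : ℕ) {S : Finset V} (hS : S ⊆ rect a₀ a₁ b₀ b₁) {x : V}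
    (hx : x ∈ rect a₀ a₁ b₀ b₁) :
    |gr (Afun l (rect a₀ a₁ b₀ b₁)) x S| ≤ ((4 + 56 * l) ^ 2 : ℕ) := by
  set Λ := rect a₀ a₁ b₀ b₁ with hΛ
  unfold gr Afun
  refine (card_sub_le _ _).trans ?_
  rw [← fillIn_symmDiff]
  have h1 : insert x S ⊆ Λ := insert_subset hx hS
  have h2 : S.erase x ⊆ Λ := (erase_subset _ _).trans hS
  set D := bd (insert x S) with hD
  set D' := bd (S.erase x) with hD'
  have hc1 : Clo (large l D) := clo_large l (clo_bd _)
  have hc2 : Clo (large l D') := clo_large l (clo_bd _)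
  have hsub : symmDiff (large l D) (large l D') ⊆ touch Λ := by
    intro e he
    rw [mem_symmDiff] at he
    rcases he with h | h
    · exact touch_mono h1 (bd_subset_touch _ (mem_large.mp h.1).1)
    · exact touch_mono h2 (bd_subset_touch _ (mem_large.mp h.1).1)
  have h3 := card_fillIn_le hsub (hc1.symmDiff hc2)
  have h4 := card_le_card (large_diff (D := D) (D' := D') (B := inc x)
    (by rw [hD, hD', bd_insert_erase]) l)
  have h5 := card_union_le (inc x) (Wt l D (inc x) ∪ Wt l D' (inc x))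
  have h6 := card_union_le (Wt l D (inc x)) (Wt l D' (inc x))
  have h7 := Wt_card l D (inc x)
  have h8 := Wt_card l D' (inc x)
  rw [inc_card] at h5 h7 h8
  have h9 : (symmDiff (large l D) (large l D')).card ≤ 4 + 56 * l := by omega
  exact_mod_cast h3.trans (Nat.pow_le_pow_left h9 2)

lemma gr_zero {Λ : Finset V} {l m : ℕ} (hl : 4 + 28 * m < l) {S : Finset V} {x : V}
    (h : ∀ f ∈ nb (inc x), f ∈ bd S → (comp (bd S) f).card < m) :
    gr (Afun l Λ) x S = 0 := by
  have h0 : large l (bd (insert x S)) = large l (bd (S.erase x)) := by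
    by_cases hx : x ∈ S
    · have e : insert x S = S := insert_eq_of_mem hx
      rw [e]
      have := bd_insert_erase x S
      rw [e] at this
      exact large_same (B := inc x) (m := m) (by rw [this]) (by rw [inc_card]; omega) h
    · have e : S.erase x = S := erase_eq_of_notMem hx
      rw [e]
      symm
      have := bd_insert_erase x S
      rw [e, symmDiff_comm] at this
      exact large_same (B := inc x) (m := m) (by rw [this]) (by rw [inc_card]; omega) h
  unfold gr Afun
  rw [h0, sub_self]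

/-- Endpoints. -/
def ends (e : E) : Finset V := {e.1, hd e}

lemma near_card (f : E) (Λ : Finset V) : (Λ.filter (fun x => f ∈ nb (inc x))).card ≤ 14 := by
  have hsub : Λ.filter (fun x => f ∈ nb (inc x)) ⊆ (insert f (N f)).biUnion ends := by
    intro x hx
    rw [mem_filter, mem_nb] at hx
    rw [mem_biUnion]
    rcases hx.2 with h | ⟨g, hg, hg'⟩
    · refine ⟨f, mem_insert_self _ _, ?_⟩
      rw [mem_inc] at h
      unfold ends
      rw [mem_insert, mem_singleton]
      rcases h with h | h
      · exact Or.inl h.symm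
      · exact Or.inr h.symm
    · refine ⟨g, mem_insert_of_mem (N_symm hg'), ?_⟩
      rw [mem_inc] at hg
      unfold ends
      rw [mem_insert, mem_singleton]
      rcases hg with h | h
      · exact Or.inl h.symm
      · exact Or.inr h.symm
  calc _ ≤ ((insert f (N f)).biUnion ends).card := card_le_card hsub
    _ ≤ ∑ g ∈ insert f (N f), (ends g).card := card_biUnion_le
    _ ≤ ∑ _g ∈ insert f (N f), 2 := sum_le_sum fun g _ => card_le_two
    _ = (insert f (N f)).card * 2 := by rw [sum_const, smul_eq_mul]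
    _ ≤ 14 := by
        have := card_insert_le f (N f)
        have := N_card_le f
        omega

/-- Total length of the contours of length at least `m`. -/
noncomputable def Lf (m : ℕ) (S : Finset V) : ℝ :=
  ∑ γ ∈ comps (bd S), if m ≤ γ.card then (γ.card : ℝ) else 0

lemma large_card (m : ℕ) (S : Finset V) : ((large m (bd S)).card : ℝ) ≤ Lf m S := by
  unfold Lf
  rw [← sum_filter]
  have hsub : large m (bd S) ⊆ ((comps (bd S)).filter (fun γ => m ≤ γ.card)).biUnion id := by
    intro e he
    rw [mem_large] at he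
    rw [mem_biUnion]
    refine ⟨comp (bd S) e, ?_, self_mem_comp he.1⟩
    rw [mem_filter]
    exact ⟨mem_comps.mpr (comp_isComp he.1), he.2⟩
  have := (card_le_card hsub).trans card_biUnion_le
  calc ((large m (bd S)).card : ℝ)
      ≤ ((∑ γ ∈ (comps (bd S)).filter (fun γ => m ≤ γ.card), (id γ).card : ℕ) : ℝ) := by
        exact_mod_cast this
    _ = _ := by push_cast; rfl

lemma sum_gr {a₀ a₁ b₀ b₁ : ℤ} {l m : ℕ} (hl : 4 + 28 * m < l) {S : Finset V}
    (hS : S ⊆ rect a₀ a₁ b₀ b₁) :
    ∑ x ∈ rect a₀ a₁ b₀ b₁, gr (Afun l (rect a₀ a₁ b₀ b₁)) x S ^ 2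
      ≤ ((4 + 56 * l) ^ 4 : ℕ) * 14 * Lf m S := by
  classical
  set Λ := rect a₀ a₁ b₀ b₁ with hΛ
  have h1 : ∀ x ∈ Λ, gr (Afun l Λ) x S ^ 2
      ≤ ∑ f ∈ large m (bd S), if f ∈ nb (inc x) then (((4 + 56 * l) ^ 4 : ℕ) : ℝ) else 0 := by
    intro x hx
    by_cases h : ∀ f ∈ nb (inc x), f ∈ bd S → (comp (bd S) f).card < m
    · rw [gr_zero hl h]
      simp only [ne_eq, OfNat.ofNat_ne_zero, not_false_eq_true, zero_pow]
      exact sum_nonneg fun _ _ => by split_ifs <;> positivity
    · push Not at h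
      obtain ⟨f, hf1, hf2, hf3⟩ := h
      have h2 : gr (Afun l Λ) x S ^ 2 ≤ (((4 + 56 * l) ^ 4 : ℕ) : ℝ) := by
        rw [← sq_abs]
        have := pow_le_pow_left₀ (abs_nonneg _) (gr_bound l hS hx) 2
        refine this.trans (le_of_eq ?_)
        push_cast; ring
      refine h2.trans ?_
      have := single_le_sum
        (f := fun f => if f ∈ nb (inc x) then (((4 + 56 * l) ^ 4 : ℕ) : ℝ) else 0)
        (s := large m (bd S)) (fun i _ => by split_ifs <;> positivity)
        (mem_large.mpr ⟨hf2, hf3⟩)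
      simpa only [hf1, if_true] using this
  refine (sum_le_sum h1).trans ?_
  rw [sum_comm]
  have h2 : ∀ f ∈ large m (bd S), (∑ x ∈ Λ, if f ∈ nb (inc x) then
      (((4 + 56 * l) ^ 4 : ℕ) : ℝ) else 0) ≤ ((4 + 56 * l) ^ 4 : ℕ) * 14 := by
    intro f _
    rw [← sum_filter, sum_const, nsmul_eq_mul, mul_comm]
    have : ((Λ.filter (fun x => f ∈ nb (inc x))).card : ℝ) ≤ 14 := by
      exact_mod_cast near_card f Λ
    exact mul_le_mul_of_nonneg_left this (by positivity)
  refine (sum_le_sum h2).trans ?_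
  rw [sum_const, nsmul_eq_mul, mul_comm]
  exact mul_le_mul_of_nonneg_left (large_card m S) (by positivity)

/-- Sum of squared lengths of the contours shorter than `l`. -/
noncomputable def Sq (l : ℕ) (S : Finset V) : ℝ :=
  ∑ γ ∈ comps (bd S), if γ.card < l then (γ.card : ℝ) ^ 2 else 0

/-- Sum of squared lengths of all contours. -/
noncomputable def Sqa (S : Finset V) : ℝ := ∑ γ ∈ comps (bd S), (γ.card : ℝ) ^ 2

/-- A family of contours and the points enclosed by at least one of them. -/
lemma enclosed_card {a₀ a₁ b₀ b₁ : ℤ} {S : Finset V} (hS : S ⊆ rect a₀ a₁ b₀ b₁)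
    (Γ : Finset (Finset E)) (hΓ : Γ ⊆ comps (bd S)) (X : Finset V)
    (hX : ∀ x ∈ X, x ∈ rect a₀ a₁ b₀ b₁ ∧ ∃ γ ∈ Γ, ray γ x = 1) :
    (X.card : ℝ) ≤ ∑ γ ∈ Γ, (γ.card : ℝ) ^ 2 := by
  set Λ := rect a₀ a₁ b₀ b₁ with hΛ
  have hsub : X ⊆ Γ.biUnion (fillIn Λ) := by
    intro x hx
    obtain ⟨h1, γ, h2, h3⟩ := hX x hx
    rw [mem_biUnion]
    exact ⟨γ, h2, by simp only [fillIn, mem_filter]; exact ⟨h1, h3⟩⟩
  have h1 := (card_le_card hsub).trans card_biUnion_le
  have h2 : ∑ γ ∈ Γ, (fillIn Λ γ).card ≤ ∑ γ ∈ Γ, γ.card ^ 2 := by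
    apply sum_le_sum
    intro γ hγ
    have hc := mem_comps.mp (hΓ hγ)
    exact card_fillIn_le (hc.1.trans ((bd_subset_touch S).trans (touch_mono hS)))
      (hc.clo (clo_bd S))
  exact_mod_cast h1.trans h2

lemma ray_large_small (l : ℕ) (S : Finset V) (x : V)
    (h : ¬ (ray (large l (bd S)) x = 1 ↔ x ∈ S)) :
    ∃ γ ∈ (comps (bd S)).filter (fun γ => γ.card < l), ray γ x = 1 := by
  classical
  have h1 : ray (bd S) x = ray (large l (bd S)) x +
      ∑ γ ∈ (comps (bd S)).filter (fun γ => γ.card < l), ray γ x := by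
    have e1 : ray (large l (bd S)) x
        = ∑ γ ∈ (comps (bd S)).filter (fun γ => ¬ γ.card < l), ray γ x := by
      have : large l (bd S)
          = ((comps (bd S)).filter (fun γ => ¬ γ.card < l)).biUnion id := by
        ext e
        rw [mem_large, mem_biUnion]
        constructor
        · intro he
          refine ⟨comp (bd S) e, ?_, self_mem_comp he.1⟩
          rw [mem_filter]
          exact ⟨mem_comps.mpr (comp_isComp he.1), not_lt.mpr he.2⟩
        · rintro ⟨γ, hγ, he⟩
          rw [mem_filter, mem_comps] at hγ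
          have h3 := hγ.1.eq_comp he
          refine ⟨hγ.1.1 he, ?_⟩
          rw [← h3]
          exact not_lt.mp hγ.2
      unfold ray
      rw [this, sum_biUnion]
      · rfl
      · intro γ hγ δ hδ hne
        rw [Function.onFun, disjoint_left]
        intro e he he'
        rw [mem_coe, mem_filter, mem_comps] at hγ hδ
        exact hne (hγ.1.eq_of_mem hδ.1 he he')
    rw [ray_biUnion, e1, add_comm, sum_filter_add_sum_filter_not]
  by_contra hcon
  push Not at hcon
  have h2 : ∑ γ ∈ (comps (bd S)).filter (fun γ => γ.card < l), ray γ x = 0 := by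
    apply sum_eq_zero
    intro γ hγ
    rcases z2 (ray γ x) with h | h
    · exact h
    · exact absurd h (hcon γ hγ)
  rw [h2, add_zero, ray_bd] at h1
  apply h
  rw [← h1]
  by_cases hx : x ∈ S <;> simp [hx]

lemma sq_eq (l : ℕ) (S : Finset V) :
    ∑ γ ∈ (comps (bd S)).filter (fun γ => γ.card < l), (γ.card : ℝ) ^ 2 = Sq l S := by
  unfold Sq
  rw [sum_filter]

lemma A_le {a₀ a₁ b₀ b₁ : ℤ} (l : ℕ) {S : Finset V} (hS : S ⊆ rect a₀ a₁ b₀ b₁) :
    Afun l (rect a₀ a₁ b₀ b₁) S ≤ S.card + Sq l S := by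
  set Λ := rect a₀ a₁ b₀ b₁ with hΛ
  have h := enclosed_card hS ((comps (bd S)).filter (fun γ => γ.card < l)) (filter_subset _ _)
    (fillIn Λ (large l (bd S)) \ S) (by
      intro x hx
      rw [mem_sdiff] at hx
      simp only [fillIn, mem_filter] at hx
      refine ⟨hx.1.1, ray_large_small l S x ?_⟩
      rw [iff_true_left hx.1.2]
      exact hx.2)
  rw [sq_eq] at h
  unfold Afun
  have h2 : (fillIn Λ (large l (bd S))).card ≤ S.card + (fillIn Λ (large l (bd S)) \ S).card := by
    have := card_le_card_sdiff_add_card (s := fillIn Λ (large l (bd S))) (t := S)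
    omega
  have h3 : ((fillIn Λ (large l (bd S))).card : ℝ) ≤ S.card +
      (fillIn Λ (large l (bd S)) \ S).card := by exact_mod_cast h2
  linarith

lemma A_ge {a₀ a₁ b₀ b₁ : ℤ} (l : ℕ) {S : Finset V} (hS : S ⊆ rect a₀ a₁ b₀ b₁) :
    (S.card : ℝ) ≤ Afun l (rect a₀ a₁ b₀ b₁) S + Sq l S := by
  set Λ := rect a₀ a₁ b₀ b₁ with hΛ
  have h := enclosed_card hS ((comps (bd S)).filter (fun γ => γ.card < l)) (filter_subset _ _)
    (S \ fillIn Λ (large l (bd S))) (by
      intro x hx
      rw [mem_sdiff] at hx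
      simp only [fillIn, mem_filter, not_and] at hx
      refine ⟨hS hx.1, ray_large_small l S x ?_⟩
      rw [iff_true_right hx.1]
      exact hx.2 (hS hx.1))
  rw [sq_eq] at h
  unfold Afun
  have h2 := card_le_card_sdiff_add_card (s := S) (t := fillIn Λ (large l (bd S)))
  have h3 : (S.card : ℝ) ≤ (S \ fillIn Λ (large l (bd S))).card +
      (fillIn Λ (large l (bd S))).card := by exact_mod_cast h2
  linarith

lemma card_le_Sqa {a₀ a₁ b₀ b₁ : ℤ} {S : Finset V} (hS : S ⊆ rect a₀ a₁ b₀ b₁) :
    (S.card : ℝ) ≤ Sqa S :=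
  enclosed_card hS (comps (bd S)) subset_rfl S fun _ hx => ⟨hS hx, exists_around hx⟩

lemma bd_compl {Λ T : Finset V} (hT : T ⊆ Λ) : bd (Λ \ T) = symmDiff (bd Λ) (bd T) := by
  rw [← bd_symmDiff]
  congr 1
  ext x
  simp only [mem_sdiff, mem_symmDiff]
  constructor
  · exact fun h => Or.inl h
  · rintro (h | h)
    · exact h
    · exact absurd (hT h.1) h.2

lemma Sq_compl {Λ T : Finset V} (hT : T ⊆ Λ) (l : ℕ) :
    Sq l (Λ \ T) ≤ Sqa T + (7 * bc Λ) * (l : ℝ) ^ 2 := by
  classical
  set S := Λ \ T with hS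
  have hsd : symmDiff (bd S) (bd T) ⊆ bd Λ := by
    rw [hS, bd_compl hT, symmDiff_assoc, symmDiff_self, symmDiff_bot]
  unfold Sq
  rw [← sum_filter]
  rw [← sum_filter_add_sum_filter_not ((comps (bd S)).filter (fun γ => γ.card < l))
    (fun γ => ∀ e ∈ γ, e ∉ nb (bd Λ))]
  apply add_le_add
  · unfold Sqa
    apply sum_le_sum_of_subset_of_nonneg
    · intro γ hγ
      rw [mem_filter, mem_filter, mem_comps] at hγ
      rw [mem_comps]
      exact hγ.1.1.local hγ.2 hsd
    · intros; positivity
  · set Γ := ((comps (bd S)).filter (fun γ => γ.card < l)).filter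
      (fun γ => ¬ ∀ e ∈ γ, e ∉ nb (bd Λ)) with hΓ
    have h1 : ∀ γ ∈ Γ, (γ.card : ℝ) ^ 2 ≤ (l : ℝ) ^ 2 := by
      intro γ hγ
      rw [hΓ, mem_filter, mem_filter] at hγ
      have : (γ.card : ℝ) ≤ l := by exact_mod_cast hγ.1.2.le
      exact pow_le_pow_left₀ (by positivity) this 2
    refine (sum_le_sum h1).trans ?_
    rw [sum_const, nsmul_eq_mul]
    apply mul_le_mul_of_nonneg_right _ (by positivity)
    have h2 : Γ ⊆ (nb (bd Λ)).image (comp (bd S)) := by
      intro γ hγ
      rw [hΓ, mem_filter, mem_filter, mem_comps] at hγ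
      obtain ⟨⟨h3, _⟩, h4⟩ := hγ
      push Not at h4
      obtain ⟨e, he, he'⟩ := h4
      rw [mem_image]
      exact ⟨e, he', (h3.eq_comp he).symm⟩
    have h3 := (card_le_card h2).trans (card_image_le.trans (nb_card_le (bd Λ)))
    exact_mod_cast h3

lemma A_compl {a₀ a₁ b₀ b₁ : ℤ} (l : ℕ) {T : Finset V} (hT : T ⊆ rect a₀ a₁ b₀ b₁) :
    ((rect a₀ a₁ b₀ b₁).card : ℝ) - Afun l (rect a₀ a₁ b₀ b₁) (rect a₀ a₁ b₀ b₁ \ T)
      ≤ 2 * Sqa T + (7 * bc (rect a₀ a₁ b₀ b₁)) * (l : ℝ) ^ 2 := by
  set Λ := rect a₀ a₁ b₀ b₁ with hΛ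
  have h1 := A_ge (a₀ := a₀) (a₁ := a₁) (b₀ := b₀) (b₁ := b₁) l (S := Λ \ T) sdiff_subset
  have h2 := Sq_compl hT l
  have h3 := card_le_Sqa hT
  have h4 : ((Λ \ T).card : ℝ) = Λ.card - T.card := by
    rw [card_sdiff_of_subset hT, Nat.cast_sub (card_le_card hT)]
  rw [← hΛ] at h1
  linarith

end Pool.Agent.Work.MP_4cb49c_pr
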