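import Pool.Agent.Work.MP_4cb49c_pr.Defs

/-!
# Edge boundaries, weights and heat-bath rates in terms of minus sets
-/

namespace Pool.Agent.Work.MP_4cb49c_pr

open Finset

/-- Sites. -/
abbrev V : Type := ℤ × ℤ

/-- Edges: `(x, false)` is the edge from `x` to the right, `(x, true)` the edge upwards. -/
abbrev E : Type := (ℤ × ℤ) × Bool

/-- The other endpoint of an edge. -/
def hd (e : E) : V := if e.2 then (e.1.1, e.1.2 + 1) else (e.1.1 + 1, e.1.2)

/-- The four edges at a site. -/
def inc (x : V) : Finset E :=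
  {(x, false), (x, true), ((x.1 - 1, x.2), false), ((x.1, x.2 - 1), true)}

/-- The edges with exactly one endpoint in `S`. -/
def bd (S : Finset V) : Finset E :=
  (S.biUnion inc).filter (fun e => ¬ (e.1 ∈ S ↔ hd e ∈ S))

/-- All edges that touch `S`. -/
def touch (S : Finset V) : Finset E := S.biUnion inc

lemma mem_inc {x : V} {e : E} : e ∈ inc x ↔ e.1 = x ∨ hd e = x := by
  obtain ⟨⟨a, b⟩, c⟩ := e
  obtain ⟨u, v⟩ := x
  cases c <;> simp [inc, hd, Prod.ext_iff] <;> omega

lemma mem_touch {S : Finset V} {e : E} : e ∈ touch S ↔ e.1 ∈ S ∨ hd e ∈ S := by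
  simp only [touch, mem_biUnion, mem_inc]
  constructor
  · rintro ⟨x, hx, h | h⟩
    · left; rw [h]; exact hx
    · right; rw [h]; exact hx
  · rintro (h | h)
    · exact ⟨_, h, Or.inl rfl⟩
    · exact ⟨_, h, Or.inr rfl⟩

lemma mem_bd {S : Finset V} {e : E} : e ∈ bd S ↔ ¬ (e.1 ∈ S ↔ hd e ∈ S) := by
  simp only [bd, mem_filter]
  constructor
  · exact fun h => h.2
  · intro h
    refine ⟨?_, h⟩
    rw [← touch, mem_touch]
    tauto

lemma bd_subset_touch (S : Finset V) : bd S ⊆ touch S := filter_subset _ _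

lemma touch_mono {S T : Finset V} (h : S ⊆ T) : touch S ⊆ touch T := by
  intro e
  rw [mem_touch, mem_touch]
  rintro (h' | h')
  · exact Or.inl (h h')
  · exact Or.inr (h h')

lemma bd_symmDiff (S T : Finset V) : bd (symmDiff S T) = symmDiff (bd S) (bd T) := by
  ext e
  simp only [mem_bd, mem_symmDiff]
  tauto

lemma bd_empty : bd ∅ = ∅ := by
  ext e; simp [mem_bd]

lemma inc_card_le (x : V) : (inc x).card ≤ 4 := by
  unfold inc
  exact card_le_four

lemma touch_card_le (S : Finset V) : (touch S).card ≤ 4 * S.card := by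
  unfold touch
  calc (S.biUnion inc).card ≤ ∑ x ∈ S, (inc x).card := card_biUnion_le
    _ ≤ ∑ _x ∈ S, 4 := sum_le_sum (fun x _ => inc_card_le x)
    _ = 4 * S.card := by rw [sum_const, smul_eq_mul, mul_comm]

/-- Number of boundary edges. -/
def bc (S : Finset V) : ℕ := (bd S).card

/-- Number of neighbours of `x` in `S`. -/
def kk (x : V) (S : Finset V) : ℕ := ((nbrs x).filter (fun y => y ∈ S)).card

lemma kk_eq (x : V) (S : Finset V) : kk x S =
    (if (x.1 + 1, x.2) ∈ S then 1 else 0) + (if (x.1 - 1, x.2) ∈ S then 1 else 0)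
    + (if (x.1, x.2 + 1) ∈ S then 1 else 0) + (if (x.1, x.2 - 1) ∈ S then 1 else 0) := by
  unfold kk nbrs
  rw [card_filter, sum_insert, sum_insert, sum_insert, sum_singleton]
  · ring
  · simp
    omega
  · simp
  · simp
    omega

lemma kk_le (x : V) (S : Finset V) : kk x S ≤ 4 := by
  rw [kk_eq]
  split_ifs <;> norm_num

lemma kk_mono (x : V) {S T : Finset V} (h : S ⊆ T) : kk x S ≤ kk x T := by
  unfold kk
  apply card_le_card
  intro y
  simp only [mem_filter]
  exact fun hy => ⟨hy.1, h hy.2⟩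

lemma kk_insert (x : V) (S : Finset V) : kk x (insert x S) = kk x S := by
  rw [kk_eq, kk_eq]
  have h1 : ((x.1 + 1, x.2) : V) ≠ x := by
    intro h; have := congrArg Prod.fst h; simp at this
  have h2 : ((x.1 - 1, x.2) : V) ≠ x := by
    intro h; have := congrArg Prod.fst h; simp at this
  have h3 : ((x.1, x.2 + 1) : V) ≠ x := by
    intro h; have := congrArg Prod.snd h; simp at this
  have h4 : ((x.1, x.2 - 1) : V) ≠ x := by
    intro h; have := congrArg Prod.snd h; simp at this
  simp [mem_insert, h1, h2, h3, h4]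

lemma kk_erase (x : V) (S : Finset V) : kk x (S.erase x) = kk x S := by
  by_cases h : x ∈ S
  · conv_rhs => rw [← insert_erase h]
    rw [kk_insert]
  · rw [erase_eq_of_notMem h]

lemma bd_singleton (x : V) : bd {x} = inc x := by
  ext e
  obtain ⟨⟨a, b⟩, c⟩ := e
  obtain ⟨u, v⟩ := x
  rw [mem_bd, mem_inc]
  cases c <;> simp [hd, Prod.ext_iff] <;> omega

lemma sum_inc (x : V) (f : E → ℕ) : ∑ e ∈ inc x, f e =
    f (x, false) + f (x, true) + f ((x.1 - 1, x.2), false) + f ((x.1, x.2 - 1), true) := by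
  unfold inc
  rw [sum_insert, sum_insert, sum_insert, sum_singleton]
  · ring
  · simp
  · simp [Prod.ext_iff]
    omega
  · simp [Prod.ext_iff]
    omega

lemma inc_card (x : V) : (inc x).card = 4 := by
  rw [card_eq_sum_ones, sum_inc]

lemma bc_insert {x : V} {T : Finset V} (hx : x ∉ T) :
    bc (insert x T) + 2 * kk x T = bc T + 4 := by
  have h0 : insert x T = symmDiff T {x} := by
    ext y
    simp only [mem_insert, mem_symmDiff, mem_singleton]
    constructor
    · rintro (h | h)
      · right; subst h; exact ⟨rfl, hx⟩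
      · left; exact ⟨h, fun h' => hx (h' ▸ h)⟩
    · tauto
  have h1 : (bd T ∩ inc x).card = kk x T := by
    rw [inter_comm, ← filter_mem_eq_inter, card_filter, sum_inc, kk_eq]
    have e1 : ((x, false) : E) ∈ bd T ↔ (x.1 + 1, x.2) ∈ T := by
      rw [mem_bd]; simp [hd, hx]
    have e2 : ((x, true) : E) ∈ bd T ↔ (x.1, x.2 + 1) ∈ T := by
      rw [mem_bd]; simp [hd, hx]
    have e3 : (((x.1 - 1, x.2), false) : E) ∈ bd T ↔ (x.1 - 1, x.2) ∈ T := by
      rw [mem_bd]; simp [hd, hx]
    have e4 : (((x.1, x.2 - 1), true) : E) ∈ bd T ↔ (x.1, x.2 - 1) ∈ T := by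
      rw [mem_bd]; simp [hd, hx]
    simp only [e1, e2, e3, e4]
    ring
  unfold bc
  rw [h0, bd_symmDiff, bd_singleton, symmDiff_def, sup_eq_union, card_union_of_disjoint]
  · have h2 := card_sdiff_add_card_inter (bd T) (inc x)
    have h3 := card_sdiff_add_card_inter (inc x) (bd T)
    rw [inter_comm] at h3
    rw [inc_card] at h3
    omega
  · rw [disjoint_left]
    intro e he he'
    simp only [mem_sdiff] at he he'
    exact he'.2 he.1

/-- Submodularity. -/
lemma bc_submod (S T : Finset V) : bc (S ∪ T) + bc (S ∩ T) ≤ bc S + bc T := by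
  have h : ∀ U : Finset V, U ⊆ S ∪ T → bc U = ∑ e ∈ touch (S ∪ T), if e ∈ bd U then 1 else 0 := by
    intro U hU
    rw [← card_filter]
    unfold bc
    congr 1
    ext e
    simp only [mem_filter]
    exact ⟨fun he => ⟨touch_mono hU (bd_subset_touch _ he), he⟩, fun he => he.2⟩
  rw [h _ subset_rfl, h S subset_union_left, h T subset_union_right,
    h (S ∩ T) (inter_subset_left.trans subset_union_left), ← sum_add_distrib, ← sum_add_distrib]
  apply sum_le_sum
  intro e _
  simp only [mem_bd, mem_union, mem_inter]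
  by_cases h1 : e.1 ∈ S <;> by_cases h2 : e.1 ∈ T <;> by_cases h3 : hd e ∈ S <;>
    by_cases h4 : hd e ∈ T <;> simp [h1, h2, h3, h4]

/-- The weight of a minus set. -/
noncomputable def w (β : ℝ) (S : Finset V) : ℝ := Real.exp (-(2 * β * bc S))

lemma w_pos (β : ℝ) (S : Finset V) : 0 < w β S := Real.exp_pos _

lemma w_submod {β : ℝ} (hβ : 0 ≤ β) (S T : Finset V) :
    w β S * w β T ≤ w β (S ∩ T) * w β (S ∪ T) := by
  unfold w
  rw [← Real.exp_add, ← Real.exp_add, Real.exp_le_exp]
  have h : ((bc (S ∪ T) + bc (S ∩ T) : ℕ) : ℝ) ≤ ((bc S + bc T : ℕ) : ℝ) := by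
    exact_mod_cast bc_submod S T
  push_cast at h
  nlinarith

/-- The heat-bath probability of a minus spin at `x` given that `S` is the minus set. -/
noncomputable def q (β : ℝ) (x : V) (S : Finset V) : ℝ :=
  1 / (1 + Real.exp (2 * β * (4 - 2 * kk x S)))

lemma q_pos (β : ℝ) (x : V) (S : Finset V) : 0 < q β x S := by
  unfold q; positivity

lemma q_lt_one (β : ℝ) (x : V) (S : Finset V) : q β x S < 1 := by
  unfold q
  rw [div_lt_one (by positivity)]
  linarith [Real.exp_pos (2 * β * (4 - 2 * kk x S))]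

lemma q_insert (β : ℝ) (x : V) (S : Finset V) : q β x (insert x S) = q β x S := by
  unfold q; rw [kk_insert]

lemma q_erase (β : ℝ) (x : V) (S : Finset V) : q β x (S.erase x) = q β x S := by
  unfold q; rw [kk_erase]

lemma q_mono {β : ℝ} (hβ : 0 ≤ β) (x : V) {S T : Finset V} (h : S ⊆ T) :
    q β x S ≤ q β x T := by
  unfold q
  apply one_div_le_one_div_of_le (by positivity)
  have : (kk x S : ℝ) ≤ kk x T := by exact_mod_cast kk_mono x h
  gcongr

/-- Detailed balance. -/
lemma q_balance (β : ℝ) (x : V) (S : Finset V) :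
    w β (insert x S) * (1 - q β x S) = w β (S.erase x) * q β x S := by
  have h := bc_insert (x := x) (T := S.erase x) (notMem_erase x S)
  rw [kk_erase] at h
  have h0 : insert x (S.erase x) = insert x S := by
    ext y; simp only [mem_insert, mem_erase]; tauto
  rw [h0] at h
  have h' : (bc (insert x S) : ℝ) + 2 * kk x S = bc (S.erase x) + 4 := by exact_mod_cast h
  have h2 : w β (S.erase x) = w β (insert x S) * Real.exp (2 * β * (4 - 2 * kk x S)) := by
    unfold w
    rw [← Real.exp_add]
    congr 1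
    have : (bc (S.erase x) : ℝ) = bc (insert x S) + 2 * kk x S - 4 := by linarith
    rw [this]; ring
  rw [h2]
  unfold q
  have := Real.exp_pos (2 * β * (4 - 2 * kk x S))
  field_simp
  ring

lemma q_lower {β : ℝ} (hβ : 0 ≤ β) (x : V) (S : Finset V) :
    1 / (1 + Real.exp (8 * β)) ≤ q β x S := by
  unfold q
  apply one_div_le_one_div_of_le (by positivity)
  have : (0 : ℝ) ≤ kk x S := by positivity
  have : 2 * β * (4 - 2 * kk x S) ≤ 8 * β := by nlinarith
  linarith [Real.exp_le_exp.mpr this]

end Pool.Agent.Work.MP_4cb49c_pr
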