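import Pool.Agent.Work.MP_4cb49c_pr.Ent

/-!
# From spin configurations to minus sets
-/

namespace Pool.Agent.Work.MP_4cb49c_pr

open Finset

variable {Λ : Finset V}

/-- The minus set of a configuration. -/
def ms (Λ : Finset V) (σ : Config Λ) : Finset V :=
  (univ.filter (fun x : {x : V // x ∈ Λ} => σ x = false)).map ⟨Subtype.val, Subtype.val_injective⟩

lemma mem_ms {σ : Config Λ} {y : V} : y ∈ ms Λ σ ↔ ∃ h : y ∈ Λ, σ ⟨y, h⟩ = false := by
  unfold ms
  rw [mem_map]
  constructor
  · rintro ⟨x, hx, rfl⟩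
    rw [mem_filter] at hx
    exact ⟨x.2, hx.2⟩
  · rintro ⟨h, h'⟩
    exact ⟨⟨y, h⟩, by rw [mem_filter]; exact ⟨mem_univ _, h'⟩, rfl⟩

lemma ms_subset (σ : Config Λ) : ms Λ σ ⊆ Λ := by
  intro y hy
  rw [mem_ms] at hy
  exact hy.1

/-- The configuration with minus set `S`. -/
def cf (Λ : Finset V) (S : Finset V) : Config Λ := fun x => decide (x.1 ∉ S)

lemma ms_cf {S : Finset V} (h : S ⊆ Λ) : ms Λ (cf Λ S) = S := by
  ext y
  rw [mem_ms]
  unfold cf
  constructor
  · rintro ⟨h1, h2⟩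
    simpa using h2
  · intro hy
    exact ⟨h hy, by simpa using hy⟩

lemma cf_ms (σ : Config Λ) : cf Λ (ms Λ σ) = σ := by
  funext x
  unfold cf
  cases h : σ x
  · have : x.1 ∈ ms Λ σ := mem_ms.mpr ⟨x.2, h⟩
    simp [this]
  · have : x.1 ∉ ms Λ σ := by
      intro h'
      obtain ⟨h1, h2⟩ := mem_ms.mp h'
      have : σ x = false := h2
      rw [h] at this
      exact absurd this (by decide)
    simp [this]

lemma sum_ms (F : Finset V → ℝ) : ∑ σ : Config Λ, F (ms Λ σ) = ∑ S ∈ Λ.powerset, F S := by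
  apply sum_nbij' (ms Λ) (cf Λ)
  · intro σ _; rw [mem_powerset]; exact ms_subset σ
  · intro S _; exact mem_univ _
  · intro σ _; exact cf_ms σ
  · intro S hS; exact ms_cf (mem_powerset.mp hS)
  · intro σ _; rfl

lemma spin_eq (σ : Config Λ) (y : V) : spin Λ σ y = if y ∈ ms Λ σ then -1 else 1 := by
  unfold spin
  by_cases h : y ∈ Λ
  · rw [dif_pos h]
    cases h' : σ ⟨y, h⟩
    · have : y ∈ ms Λ σ := mem_ms.mpr ⟨h, h'⟩
      simp [this]
    · have : y ∉ ms Λ σ := by
        intro h2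
        obtain ⟨h3, h4⟩ := mem_ms.mp h2
        rw [h'] at h4
        exact absurd h4 (by decide)
      simp [this]
  · rw [dif_neg h, if_neg (fun h' => h (ms_subset σ h'))]

lemma hd_ne (e : E) : hd e ≠ e.1 := by
  unfold hd
  intro h
  split_ifs at h
  · have := congrArg Prod.snd h; simp at this
  · have := congrArg Prod.fst h; simp at this

lemma sum_inc_real (x : V) (f : E → ℝ) : ∑ e ∈ inc x, f e =
    f (x, false) + f (x, true) + f ((x.1 - 1, x.2), false) + f ((x.1, x.2 - 1), true) := by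
  unfold inc
  rw [sum_insert, sum_insert, sum_insert, sum_singleton]
  · ring
  · simp
  · simp [Prod.ext_iff]
    omega
  · simp [Prod.ext_iff]
    omega

lemma sum_nbrs (x : V) (f : V → ℝ) : ∑ y ∈ nbrs x, f y =
    f (x.1 + 1, x.2) + f (x.1 - 1, x.2) + f (x.1, x.2 + 1) + f (x.1, x.2 - 1) := by
  unfold nbrs
  rw [sum_insert, sum_insert, sum_insert, sum_singleton]
  · ring
  · simp
    omega
  · simp
  · simp
    omega

lemma interaction_eq (σ : Config Λ) :
    interaction Λ σ = (touch Λ).card - 2 * bc (ms Λ σ) := by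
  classical
  set s : V → ℝ := spin Λ σ with hs
  set f : E → ℝ := fun e => s e.1 * s (hd e) with hf
  set g : E → ℝ := fun e => f e * (if e.1 ∈ Λ ∧ hd e ∈ Λ then 1 / 2 else 1) with hg
  have h1 : interaction Λ σ = ∑ x ∈ Λ, ∑ e ∈ inc x, g e := by
    unfold interaction
    rw [mul_sum, ← sum_add_distrib]
    apply sum_congr rfl
    intro x hx
    have e1 : (1 / 2 : ℝ) * ∑ y ∈ (nbrs x).filter (fun y => y ∈ Λ), s x * s y
        + ∑ _y ∈ (nbrs x).filter (fun y => y ∉ Λ), s x
        = ∑ y ∈ nbrs x, s x * s y * (if y ∈ Λ then 1 / 2 else 1) := by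
      rw [← sum_filter_add_sum_filter_not (nbrs x) (fun y => y ∈ Λ), mul_sum]
      congr 1
      · apply sum_congr rfl
        intro y hy
        rw [mem_filter] at hy
        rw [if_pos hy.2]; ring
      · apply sum_congr rfl
        intro y hy
        rw [mem_filter] at hy
        have : s y = 1 := by
          rw [hs]; unfold spin; rw [dif_neg hy.2]
        rw [if_neg hy.2, this]; ring
    rw [e1, sum_nbrs, sum_inc_real]
    simp only [hg, hf, hd]
    have a1 : ((x.1 - 1 + 1, x.2) : V) = x := by simp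
    have a2 : ((x.1, x.2 - 1 + 1) : V) = x := by simp
    simp only [if_true, Bool.false_eq_true, if_false, a1, a2, hx, true_and, and_true]
    ring
  have h2 : ∑ x ∈ Λ, ∑ e ∈ inc x, g e = ∑ e ∈ touch Λ, f e := by
    have e1 : ∀ x ∈ Λ, ∑ e ∈ inc x, g e = ∑ e ∈ touch Λ, if e ∈ inc x then g e else 0 := by
      intro x hx
      rw [← sum_filter]
      apply sum_congr _ (fun _ _ => rfl)
      ext e
      rw [mem_filter]
      constructor
      · intro h
        refine ⟨?_, h⟩
        unfold touch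
        rw [mem_biUnion]
        exact ⟨x, hx, h⟩
      · exact fun h => h.2
    rw [sum_congr rfl e1, sum_comm]
    apply sum_congr rfl
    intro e he
    rw [← sum_filter, sum_const, nsmul_eq_mul]
    have hne := hd_ne e
    rw [mem_touch] at he
    by_cases h3 : e.1 ∈ Λ <;> by_cases h4 : hd e ∈ Λ
    · have : Λ.filter (fun x => e ∈ inc x) = {e.1, hd e} := by
        ext x
        rw [mem_filter, mem_inc, mem_insert, mem_singleton]
        constructor
        · rintro ⟨_, h | h⟩
          · exact Or.inl h.symm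
          · exact Or.inr h.symm
        · rintro (h | h)
          · exact ⟨h ▸ h3, Or.inl h.symm⟩
          · exact ⟨h ▸ h4, Or.inr h.symm⟩
      rw [this, card_pair hne.symm]
      simp only [hg, h3, h4, and_self, if_true]
      push_cast; ring
    · have : Λ.filter (fun x => e ∈ inc x) = {e.1} := by
        ext x
        rw [mem_filter, mem_inc, mem_singleton]
        constructor
        · rintro ⟨h5, h | h⟩
          · exact h.symm
          · exact absurd (h ▸ h5) h4
        · rintro h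
          exact ⟨h ▸ h3, Or.inl h.symm⟩
      rw [this, card_singleton]
      simp [hg, h3, h4]
    · have : Λ.filter (fun x => e ∈ inc x) = {hd e} := by
        ext x
        rw [mem_filter, mem_inc, mem_singleton]
        constructor
        · rintro ⟨h5, h | h⟩
          · exact absurd (h ▸ h5) h3
          · exact h.symm
        · rintro h
          exact ⟨h ▸ h4, Or.inr h.symm⟩
      rw [this, card_singleton]
      simp [hg, h3, h4]
    · exact absurd he (by tauto)
  rw [h1, h2]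
  have h3 : ∀ e ∈ touch Λ, f e = 1 - 2 * (if e ∈ bd (ms Λ σ) then 1 else 0) := by
    intro e _
    simp only [hf, hs, spin_eq]
    by_cases h4 : e.1 ∈ ms Λ σ <;> by_cases h5 : hd e ∈ ms Λ σ
    all_goals simp [mem_bd, h4, h5]
    all_goals norm_num
  rw [sum_congr rfl h3, sum_sub_distrib, sum_const, nsmul_eq_mul, mul_one, ← mul_sum, ← sum_filter,
    sum_const, nsmul_eq_mul, mul_one]
  have h4 : (touch Λ).filter (fun e => e ∈ bd (ms Λ σ)) = bd (ms Λ σ) := by
    ext e
    rw [mem_filter]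
    exact ⟨fun h => h.2, fun h => ⟨touch_mono (ms_subset σ) (bd_subset_touch _ h), h⟩⟩
  rw [h4]
  rfl

lemma exp_interaction (β : ℝ) (σ : Config Λ) : Real.exp (β * interaction Λ σ)
    = Real.exp (β * (touch Λ).card) * w β (ms Λ σ) := by
  rw [interaction_eq]
  unfold w
  rw [← Real.exp_add]
  congr 1
  ring

lemma gibbs_eq (β : ℝ) (σ : Config Λ) : gibbs β Λ σ = w β (ms Λ σ) / Z β Λ := by
  unfold gibbs
  simp only [exp_interaction]
  rw [← mul_sum, sum_ms (fun S => w β S)]
  exact mul_div_mul_left _ _ (Real.exp_pos _).ne'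

lemma sum_gibbs (β : ℝ) (F : Finset V → ℝ) :
    ∑ σ : Config Λ, gibbs β Λ σ * F (ms Λ σ) = Ex β Λ F := by
  simp only [gibbs_eq]
  rw [sum_ms (fun S => w β S / Z β Λ * F S)]
  unfold Ex
  rw [sum_div]
  exact sum_congr rfl fun _ _ => by ring

lemma ms_update_false (σ : Config Λ) (x : {x : V // x ∈ Λ}) :
    ms Λ (Function.update σ x false) = insert x.1 (ms Λ σ) := by
  ext y
  rw [mem_ms, mem_insert, mem_ms]
  constructor
  · rintro ⟨h, h'⟩
    by_cases hy : y = x.1
    · exact Or.inl hy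
    · right
      refine ⟨h, ?_⟩
      rwa [Function.update_of_ne] at h'
      intro h2
      exact hy (congrArg Subtype.val h2)
  · rintro (h | ⟨h, h'⟩)
    · subst h
      exact ⟨x.2, by simp⟩
    · refine ⟨h, ?_⟩
      by_cases hy : (⟨y, h⟩ : {x : V // x ∈ Λ}) = x
      · rw [hy]; simp
      · rw [Function.update_of_ne hy]; exact h'

lemma ms_update_true (σ : Config Λ) (x : {x : V // x ∈ Λ}) :
    ms Λ (Function.update σ x true) = (ms Λ σ).erase x.1 := by
  ext y
  rw [mem_ms, mem_erase, mem_ms]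
  constructor
  · rintro ⟨h, h'⟩
    by_cases hy : (⟨y, h⟩ : {x : V // x ∈ Λ}) = x
    · rw [hy] at h'
      simp at h'
    · rw [Function.update_of_ne hy] at h'
      exact ⟨fun h2 => hy (Subtype.ext h2), h, h'⟩
  · rintro ⟨h1, h, h'⟩
    refine ⟨h, ?_⟩
    rw [Function.update_of_ne]
    · exact h'
    · intro h2
      exact h1 (congrArg Subtype.val h2)

lemma filter_agree (σ : Config Λ) (x : {x : V // x ∈ Λ}) :
    univ.filter (fun ρ : Config Λ => ∀ y, y ≠ x → ρ y = σ y)
      = {Function.update σ x false, Function.update σ x true} := by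
  ext ρ
  rw [mem_filter, mem_insert, mem_singleton]
  constructor
  · rintro ⟨_, h⟩
    cases hx : ρ x
    · left
      funext y
      by_cases hy : y = x
      · subst hy; simp [hx]
      · rw [Function.update_of_ne hy]; exact h y hy
    · right
      funext y
      by_cases hy : y = x
      · subst hy; simp [hx]
      · rw [Function.update_of_ne hy]; exact h y hy
  · rintro (h | h)
    · refine ⟨mem_univ _, fun y hy => ?_⟩
      rw [h, Function.update_of_ne hy]
    · refine ⟨mem_univ _, fun y hy => ?_⟩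
      rw [h, Function.update_of_ne hy]

lemma update_ne (σ : Config Λ) (x : {x : V // x ∈ Λ}) :
    Function.update σ x false ≠ Function.update σ x true := by
  intro h
  have := congrFun h x
  simp at this

lemma sum_condAt (β : ℝ) (x : {x : V // x ∈ Λ}) (σ : Config Λ) (F : Finset V → ℝ) :
    ∑ τ : Config Λ, condAt β Λ x σ τ * F (ms Λ τ) = P β x.1 F (ms Λ σ) := by
  unfold condAt
  simp only [ite_mul, zero_mul]
  rw [← sum_filter, filter_agree, sum_pair (update_ne σ x), sum_pair (update_ne σ x)]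
  simp only [gibbs_eq, ms_update_false, ms_update_true]
  set S := ms Λ σ
  have hb := q_balance β x.1 S
  have hZ := Z_pos β Λ
  have h1 := w_pos β (insert x.1 S)
  have h2 := w_pos β (S.erase x.1)
  have hq : q β x.1 S = w β (insert x.1 S) / (w β (insert x.1 S) + w β (S.erase x.1)) := by
    rw [eq_div_iff (by positivity)]
    linarith
  unfold P
  rw [hq]
  have h3 : w β (insert x.1 S) + w β (S.erase x.1) ≠ 0 := by positivity
  field_simp
  ring

lemma glauber_mulVec (β : ℝ) (hΛ : Λ.Nonempty) (F : Finset V → ℝ) (σ : Config Λ) :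
    ∑ τ : Config Λ, glauber β Λ σ τ * F (ms Λ τ) = Q β Λ.card Λ F (ms Λ σ) := by
  unfold glauber
  have h1 : ∑ τ : Config Λ, (1 / (Λ.card : ℝ)) * (∑ x : {x : V // x ∈ Λ}, condAt β Λ x σ τ)
      * F (ms Λ τ) = (1 / (Λ.card : ℝ)) * ∑ x : {x : V // x ∈ Λ}, P β x.1 F (ms Λ σ) := by
    simp only [← sum_condAt β _ σ F]
    rw [sum_comm, mul_sum]
    apply sum_congr rfl
    intro τ _
    rw [mul_assoc, sum_mul]
  rw [h1]
  have h2 : ∑ x : {x : V // x ∈ Λ}, P β x.1 F (ms Λ σ) = ∑ x ∈ Λ, P β x F (ms Λ σ) :=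
    sum_coe_sort Λ (fun x => P β x F (ms Λ σ))
  rw [h2, Q_eq]
  have : (Λ.card : ℝ) ≠ 0 := by
    have := card_pos.mpr hΛ
    positivity
  rw [div_self this]; ring

lemma law_sum (β : ℝ) (hΛ : Λ.Nonempty) (ν : Config Λ → ℝ) (t : ℕ) (F : Finset V → ℝ) :
    ∑ σ : Config Λ, law β Λ ν t σ * F (ms Λ σ)
      = ∑ σ : Config Λ, ν σ * Qt β Λ.card Λ t F (ms Λ σ) := by
  have h : ∀ t : ℕ, (glauber β Λ ^ t).mulVec (fun σ => F (ms Λ σ))
      = fun σ => Qt β Λ.card Λ t F (ms Λ σ) := by
    intro t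
    induction t with
    | zero => rw [pow_zero, Matrix.one_mulVec]; rfl
    | succ t ih =>
      rw [pow_succ', ← Matrix.mulVec_mulVec, ih]
      funext σ
      rw [Qt_succ]
      exact glauber_mulVec β hΛ _ σ
  have h2 : ∑ σ : Config Λ, law β Λ ν t σ * F (ms Λ σ)
      = (Matrix.vecMul ν (glauber β Λ ^ t)) ⬝ᵥ (fun σ => F (ms Λ σ)) := rfl
  rw [h2, ← Matrix.dotProduct_mulVec, h t]
  rfl

/-- Lower bound on the total variation distance by a test function with values in `[0, 1]`. -/
lemma tv_lower (β : ℝ) (hΛ : Λ.Nonempty) (ν : Config Λ → ℝ) (hν : ∑ σ, ν σ = 1) (t : ℕ)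
    (G : Finset V → ℝ) (h0 : ∀ S, 0 ≤ G S) (h1 : ∀ S, G S ≤ 1) :
    Ex β Λ G - ∑ σ : Config Λ, ν σ * Qt β Λ.card Λ t G (ms Λ σ)
      ≤ tv (law β Λ ν t) (gibbs β Λ) := by
  have e1 : ∑ σ : Config Λ, gibbs β Λ σ = 1 := by
    have := sum_gibbs (Λ := Λ) β (fun _ => 1)
    simp only [mul_one] at this
    rw [this, Ex_const]
  have e2 : ∑ σ : Config Λ, law β Λ ν t σ = 1 := by
    have := law_sum β hΛ ν t (fun _ => 1)
    simp only [mul_one, Qt_const] at this
    rw [this, hν]
  rw [← law_sum β hΛ, ← sum_gibbs]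
  have e3 : ∑ σ : Config Λ, gibbs β Λ σ * G (ms Λ σ) - ∑ σ : Config Λ, law β Λ ν t σ * G (ms Λ σ)
      = ∑ σ : Config Λ, (gibbs β Λ σ - law β Λ ν t σ) * (G (ms Λ σ) - 1 / 2) := by
    have : ∀ σ : Config Λ, (gibbs β Λ σ - law β Λ ν t σ) * (G (ms Λ σ) - 1 / 2)
        = (gibbs β Λ σ * G (ms Λ σ) - law β Λ ν t σ * G (ms Λ σ))
          - (1 / 2) * (gibbs β Λ σ - law β Λ ν t σ) := fun σ => by ring
    simp only [this]
    rw [sum_sub_distrib, ← mul_sum, sum_sub_distrib, sum_sub_distrib, e1, e2]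
    ring
  rw [e3]
  unfold tv
  rw [mul_sum]
  apply sum_le_sum
  intro σ _
  have h2 : |G (ms Λ σ) - 1 / 2| ≤ 1 / 2 := by
    rw [abs_le]
    constructor
    · linarith [h0 (ms Λ σ)]
    · linarith [h1 (ms Λ σ)]
  calc _ ≤ |(gibbs β Λ σ - law β Λ ν t σ) * (G (ms Λ σ) - 1 / 2)| := le_abs_self _
    _ = |gibbs β Λ σ - law β Λ ν t σ| * |G (ms Λ σ) - 1 / 2| := abs_mul _ _
    _ ≤ |gibbs β Λ σ - law β Λ ν t σ| * (1 / 2) := mul_le_mul_of_nonneg_left h2 (abs_nonneg _)
    _ = 1 / 2 * |law β Λ ν t σ - gibbs β Λ σ| := by rw [abs_sub_comm]; ring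

lemma ms_allTrue : ms Λ (fun _ => true) = ∅ := by
  ext y
  rw [mem_ms]
  simp

lemma allPlus_sum : ∑ σ, allPlus Λ σ = 1 := by
  unfold allPlus
  simp

lemma allPlus_test (F : Finset V → ℝ) : ∑ σ : Config Λ, allPlus Λ σ * F (ms Λ σ) = F ∅ := by
  unfold allPlus
  simp [ms_allTrue]

lemma uniform_sum : ∑ σ, uniformLaw Λ σ = 1 := by
  unfold uniformLaw
  rw [sum_const, nsmul_eq_mul, card_univ]
  have : (Fintype.card (Config Λ) : ℝ) ≠ 0 := by
    exact_mod_cast Fintype.card_ne_zero
  field_simp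

lemma box_eq (L : ℕ) : box L = rect 1 L 1 L := rfl

/-- The spontaneous magnetization is positive at low temperature. -/
lemma betaC_le : betaC ≤ 9 := by
  unfold betaC
  apply csInf_le
  · exact ⟨0, fun β hβ => hβ.1⟩
  · refine ⟨by norm_num, ?_⟩
    have : (1 / 2 : ℝ) ≤ spontMag 9 := by
      unfold spontMag
      apply le_ciInf
      intro L
      set Λ := box (2 * L + 1) with hΛ
      set c : V := ((L : ℤ) + 1, (L : ℤ) + 1)
      have h1 : ∀ σ : Config Λ, spin Λ σ c = (fun S => 1 - 2 * (if c ∈ S then (1 : ℝ) else 0))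
          (ms Λ σ) := by
        intro σ
        rw [spin_eq]
        by_cases h : c ∈ ms Λ σ
        · simp only [h, if_true]; norm_num
        · simp only [h, if_false]; norm_num
      simp only [h1]
      rw [sum_gibbs 9 (fun S => 1 - 2 * (if c ∈ S then (1 : ℝ) else 0)), Ex_sub, Ex_const, Ex_mul]
      have h2 := peierls (β := 9) le_rfl (a₀ := 1) (a₁ := ((2 * L + 1 : ℕ) : ℤ)) (b₀ := 1)
        (b₁ := ((2 * L + 1 : ℕ) : ℤ)) c
      rw [← box_eq, ← hΛ] at h2
      linarith
    linarith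

end Pool.Agent.Work.MP_4cb49c_pr
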