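import Pool.Agent.Work.MP_4cb49c_pr.Tiling
import Pool.Agent.Work.MP_4cb49c_pr.Transfer

/-!
# Assembly of the lower bound for the all-plus start
-/

namespace Pool.Agent.Work.MP_4cb49c_pr

open Finset Filter

lemma evp (A : ℝ) (k : ℕ) : ∀ᶠ x : ℝ in atTop, A * x ^ k ≤ Real.exp (x / 2) := by
  have h := (Real.tendsto_pow_mul_exp_neg_atTop_nhds_zero k).const_mul (A * 2 ^ k)
  rw [mul_zero] at h
  have h2 : Tendsto (fun x : ℝ => x / 2) atTop atTop := tendsto_id.atTop_div_const (by norm_num)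
  have h3 := (h.comp h2).eventually (ge_mem_nhds (show (0 : ℝ) < 1 by norm_num))
  filter_upwards [h3] with x hx
  simp only [Function.comp] at hx
  have h4 : A * 2 ^ k * ((x / 2) ^ k * Real.exp (-(x / 2))) = A * x ^ k * Real.exp (-(x / 2)) := by
    rw [div_pow]
    have : (2 : ℝ) ^ k ≠ 0 := by positivity
    field_simp
  rw [h4] at hx
  calc A * x ^ k = A * x ^ k * Real.exp (-(x / 2)) * Real.exp (x / 2) := by
        rw [mul_assoc, ← Real.exp_add]; simp
    _ ≤ 1 * Real.exp (x / 2) := mul_le_mul_of_nonneg_right hx (Real.exp_pos _).le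
    _ = _ := one_mul _

/-- The lower bound in terms of minus sets. -/
theorem main_sets {β : ℝ} (hβ : 10 ≤ β) {a : ℝ} (ha1 : 1 ≤ a) (ha : a < 2) {δ : ℝ} (hδ : 0 < δ) :
    ∃ L₀ : ℕ, ∀ L : ℕ, L₀ ≤ L → ∀ t : ℕ,
      (t : ℝ) ≤ (L : ℝ) ^ 2 * Real.log ((L : ℝ) ^ 2) ^ a →
      ∃ G : Finset V → ℝ, (∀ S, 0 ≤ G S) ∧ (∀ S, G S ≤ 1) ∧
        Qt β ((L : ℝ) ^ 2) (box L) t G ∅ ≤ δ / 3 ∧ 1 - δ / 3 ≤ Ex β (box L) G := by
  obtain ⟨R₀, hgood⟩ := stepA hβ (b := a / 2) (by linarith)
  set c₀ := Real.log (1 + Real.exp (8 * β)) with hc₀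
  have hc₀pos : 0 < c₀ := Real.log_pos (by linarith [Real.exp_pos (8 * β)])
  have hκ : 1 / (1 + Real.exp (8 * β)) = Real.exp (-c₀) := by
    rw [hc₀, Real.exp_neg, Real.exp_log (by positivity), one_div]
  set c₁ : ℝ := 1 / (32 * c₀) + 2 * 11 / Real.log 2 + 2 with hc₁
  have hlog2 : 0 < Real.log 2 := Real.log_pos (by norm_num)
  have hc₁pos : 0 < c₁ := by positivity
  -- eventual conditions
  have E1 : ∀ᶠ x : ℝ in atTop, (64 * c₀) ^ (1 + a / 2) ≤ x ^ (1 - a / 2) :=
    (tendsto_rpow_atTop (by linarith)).eventually (eventually_ge_atTop _)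
  have E2 : ∀ᶠ x : ℝ in atTop, 64 * c₀ ≤ x := eventually_ge_atTop _
  have E3 : ∀ᶠ x : ℝ in atTop, 32 * c₀ * (R₀ + 2) ≤ x := eventually_ge_atTop _
  have E4 : ∀ᶠ x : ℝ in atTop, 1 ≤ x := eventually_ge_atTop _
  have E5 := evp 4 2
  have E6 := evp (2 * c₁) 2
  have E7 := evp (512 * c₁ ^ 2 * (3 / δ)) 4
  have E8 := evp (3 * 4096 * c₁ ^ 4 / δ) 10
  obtain ⟨l₀, hl₀⟩ := eventually_atTop.mp
    (((E1.and E2).and (E3.and E4)).and ((E5.and E6).and (E7.and E8)))
  refine ⟨max 1 ⌈Real.exp l₀⌉₊, fun L hL t ht => ?_⟩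
  have hL1 : (1 : ℝ) ≤ L := by exact_mod_cast (le_max_left _ _).trans hL
  have hLe : Real.exp l₀ ≤ L := by
    have h1 : (⌈Real.exp l₀⌉₊ : ℝ) ≤ L := by exact_mod_cast (le_max_right _ _).trans hL
    exact (Nat.le_ceil _).trans h1
  have hL0 : (0 : ℝ) < L := by linarith
  set n : ℝ := (L : ℝ) ^ 2 with hn
  have hn0 : 0 < n := by positivity
  set x : ℝ := Real.log n with hx
  have hxl : l₀ ≤ x := by
    rw [hx, Real.le_log_iff_exp_le hn0]
    refine hLe.trans ?_
    rw [hn, sq]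
    exact le_mul_of_one_le_left hL0.le hL1
  have hnx : n = Real.exp x := by rw [hx, Real.exp_log hn0]
  have hLx : (L : ℝ) = Real.exp (x / 2) := by
    have h1 : (L : ℝ) ^ 2 = Real.exp (x / 2) ^ 2 := by
      rw [← hn, hnx, sq, ← Real.exp_add]; congr 1; ring
    exact (pow_left_inj₀ hL0.le (Real.exp_pos _).le (by norm_num)).mp h1
  obtain ⟨⟨⟨h1, h2⟩, h3, h4⟩, ⟨h5, h6⟩, h7, h8⟩ := hl₀ x hxl
  have hx0 : 0 < x := by linarith
  -- parameters
  set R : ℕ := ⌊x / (32 * c₀)⌋₊ with hR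
  have hRle : (R : ℝ) ≤ x / (32 * c₀) := Nat.floor_le (by positivity)
  have hRlt : x / (32 * c₀) < R + 1 := Nat.lt_floor_add_one _
  have hRR₀ : R₀ ≤ R ∧ 1 ≤ R := by
    have : (R₀ : ℝ) + 2 ≤ x / (32 * c₀) := by
      rw [le_div_iff₀ (by positivity)]; linarith
    have h9 : (R₀ : ℝ) + 1 < R := by linarith
    have h10 : R₀ + 1 < R := by exact_mod_cast h9
    omega
  have hRge : x / (64 * c₀) ≤ R := by
    have h9 : 1 ≤ x / (64 * c₀) := by
      rw [le_div_iff₀ (by positivity)]; linarith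
    have h10 : x / (32 * c₀) = x / (64 * c₀) + x / (64 * c₀) := by field_simp; ring
    linarith
  have hR1 : (1 : ℝ) ≤ R := by exact_mod_cast hRR₀.2
  set D : ℕ := ⌈(8 * x ^ a + 3 * x) / Real.log 2⌉₊ with hD
  have hxa : 0 < x ^ a := by positivity
  have hxa2 : x ^ a ≤ x ^ 2 := by
    rw [← Real.rpow_natCast x 2]
    exact Real.rpow_le_rpow_of_exponent_le h4 (by push_cast; linarith)
  have hD1 : 1 ≤ D := by
    rw [hD]
    exact Nat.one_le_ceil_iff.mpr (by positivity)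
  have hDge : (8 * x ^ a + 3 * x) / Real.log 2 ≤ D := Nat.le_ceil _
  have hDle : (D : ℝ) ≤ (8 * x ^ a + 3 * x) / Real.log 2 + 1 :=
    (Nat.ceil_lt_add_one (by positivity)).le
  have hx12 : x ≤ x ^ 2 := by
    rw [sq]
    exact le_mul_of_one_le_left hx0.le h4
  have h1x2 : 1 ≤ x ^ 2 := h4.trans hx12
  have hs : ((R + 2 * D : ℕ) : ℝ) ≤ c₁ * x ^ 2 := by
    push_cast
    have e1 : x / (32 * c₀) ≤ (1 / (32 * c₀)) * x ^ 2 := by
      rw [div_mul_eq_mul_div, one_mul]
      exact div_le_div_of_nonneg_right hx12 (by positivity)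
    have e2 : (8 * x ^ a + 3 * x) / Real.log 2 ≤ (11 / Real.log 2) * x ^ 2 := by
      rw [div_mul_eq_mul_div]
      apply div_le_div_of_nonneg_right _ hlog2.le
      linarith
    have e3 : c₁ * x ^ 2 = (1 / (32 * c₀)) * x ^ 2 + 2 * ((11 / Real.log 2) * x ^ 2)
        + 2 * x ^ 2 := by rw [hc₁]; ring
    rw [e3]
    linarith
  have hsL : R + 2 * D ≤ L := by
    have : ((R + 2 * D : ℕ) : ℝ) ≤ L := by
      refine hs.trans ?_
      rw [hLx]
      have : 0 ≤ c₁ * x ^ 2 := by positivity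
      linarith
    exact_mod_cast this
  have htn : (t : ℝ) / n ≤ x ^ a := by
    rw [div_le_iff₀ hn0, mul_comm]; exact ht
  have htR : (t : ℝ) / n ≤ (R : ℝ) ^ (a / 2) * R := by
    refine htn.trans ?_
    have e1 : (R : ℝ) ^ (a / 2) * R = (R : ℝ) ^ (1 + a / 2) := by
      rw [Real.rpow_add (by linarith), Real.rpow_one]; ring
    rw [e1]
    calc x ^ a = x ^ (1 + a / 2) / x ^ (1 - a / 2) := by
          rw [← Real.rpow_sub hx0]; congr 1; ring
      _ ≤ x ^ (1 + a / 2) / (64 * c₀) ^ (1 + a / 2) := by gcongr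
      _ = (x / (64 * c₀)) ^ (1 + a / 2) := by rw [Real.div_rpow hx0.le (by positivity)]
      _ ≤ (R : ℝ) ^ (1 + a / 2) :=
          Real.rpow_le_rpow (by positivity) hRge (by linarith)
  set α : ℝ := Real.exp (-(x / 8)) / 4 with hα
  have hα0 : 0 < α := by positivity
  set r : ℝ := Real.exp (-(3 * x)) with hr
  have hr1 : (1 + 8 / n) ^ t * (1 / 2) ^ D ≤ r := by
    have e1 : (1 + 8 / n) ^ t ≤ Real.exp (8 * x ^ a) := by
      calc (1 + 8 / n) ^ t ≤ Real.exp (8 / n) ^ t := by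
            apply pow_le_pow_left₀ (by positivity)
            have := Real.add_one_le_exp (8 / n); linarith
        _ = Real.exp (8 * (t / n)) := by rw [← Real.exp_nat_mul]; congr 1; ring
        _ ≤ Real.exp (8 * x ^ a) := Real.exp_le_exp.mpr (by linarith)
    have e2 : (1 / 2 : ℝ) ^ D ≤ Real.exp (-(8 * x ^ a + 3 * x)) := by
      have : (1 / 2 : ℝ) = Real.exp (-Real.log 2) := by
        rw [Real.exp_neg, Real.exp_log (by norm_num)]; norm_num
      rw [this, ← Real.exp_nat_mul]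
      apply Real.exp_le_exp.mpr
      rw [div_le_iff₀ hlog2] at hDge
      linarith
    calc _ ≤ Real.exp (8 * x ^ a) * Real.exp (-(8 * x ^ a + 3 * x)) :=
          mul_le_mul e1 e2 (by positivity) (by positivity)
      _ = r := by rw [← Real.exp_add, hr]; congr 1; ring
  have hnr : n * r ≤ 1 := by
    rw [hnx, hr, ← Real.exp_add, ← Real.exp_zero]
    exact Real.exp_le_exp.mpr (by linarith)
  have htx : (t : ℝ) ≤ Real.exp x * x ^ 2 := by
    calc (t : ℝ) ≤ n * x ^ a := ht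
      _ ≤ n * x ^ 2 := by gcongr
      _ = _ := by rw [hnx]
  have htr : t * r ≤ α := by
    calc t * r ≤ (Real.exp x * x ^ 2) * r := mul_le_mul_of_nonneg_right htx (Real.exp_pos _).le
      _ = (4 * x ^ 2) * Real.exp (-(2 * x)) / 4 := by
          rw [hr]
          have : Real.exp (-(2 * x)) = Real.exp x * Real.exp (-(3 * x)) := by
            rw [← Real.exp_add]; congr 1; ring
          rw [this]; ring
      _ ≤ Real.exp (x / 2) * Real.exp (-(2 * x)) / 4 := by gcongr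
      _ ≤ α := by
          rw [hα, ← Real.exp_add]
          apply div_le_div_of_nonneg_right _ (by norm_num)
          exact Real.exp_le_exp.mpr (by linarith)
  have hακ : 4 * α ≤ (1 / (1 + Real.exp (8 * β))) ^ (4 * R) := by
    rw [hκ, ← Real.exp_nat_mul, hα]
    have : 4 * (Real.exp (-(x / 8)) / 4) = Real.exp (-(x / 8)) := by ring
    rw [this]
    apply Real.exp_le_exp.mpr
    push_cast
    rw [le_div_iff₀ (by positivity)] at hRle
    linarith
  obtain ⟨G, hG0, hG1, hG2, hG3⟩ := big_box hβ (hgood R hRR₀.1) hRR₀.2 hD1 hsL n hn t htR r α hr1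
    hnr hα0 htr hακ
  refine ⟨G, hG0, hG1, hG2.trans ?_, le_trans ?_ hG3⟩
  all_goals
    set s : ℕ := R + 2 * D with hsdef
    set m : ℕ := L / s with hm
    have hs0 : 0 < s := by omega
    have hs0' : (0 : ℝ) < s := by exact_mod_cast hs0
    have hmge : Real.exp (x / 2) / (2 * c₁ * x ^ 2) ≤ m := by
      have e1 : L < (m + 1) * s := by
        rw [hm]
        have := Nat.lt_div_mul_add hs0 (a := L)
        rw [add_mul, one_mul]; omega
      have e2 : (L : ℝ) < (m + 1) * s := by exact_mod_cast e1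
      have e3 : (1 : ℝ) ≤ m := by
        have : 0 < m := Nat.div_pos hsL hs0
        exact_mod_cast this
      have e4 : (L : ℝ) ≤ 2 * m * s := by
        refine e2.le.trans ?_
        apply mul_le_mul_of_nonneg_right _ hs0'.le
        linarith
      rw [div_le_iff₀ (by positivity), ← hLx]
      calc (L : ℝ) ≤ 2 * m * s := e4
        _ ≤ 2 * m * (c₁ * x ^ 2) := by gcongr
        _ = _ := by ring
    have hmpos : 0 < Real.exp (x / 2) / (2 * c₁ * x ^ 2) := by positivity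
  · have e1 : (Real.exp (x / 2) / (2 * c₁ * x ^ 2)) ^ 4 ≤ (m : ℝ) ^ 4 :=
      pow_le_pow_left₀ hmpos.le hmge 4
    calc 16 * t / (α ^ 2 * (m : ℝ) ^ 4)
        ≤ 16 * (Real.exp x * x ^ 2) / (α ^ 2 * (Real.exp (x / 2) / (2 * c₁ * x ^ 2)) ^ 4) := by
          gcongr
      _ = (4096 * c₁ ^ 4 * x ^ 10) * (Real.exp x * Real.exp (x / 4)
            / Real.exp (x / 2) ^ 4) := by
          rw [hα]
          have e2 : Real.exp (-(x / 8)) ^ 2 = 1 / Real.exp (x / 4) := by
            rw [one_div, ← Real.exp_neg, ← Real.exp_nat_mul]; congr 1; push_cast; ring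
          rw [div_pow, e2]
          have := (Real.exp_pos (x / 4)).ne'
          have := (Real.exp_pos (x / 2)).ne'
          field_simp
          norm_num
      _ = (4096 * c₁ ^ 4 * x ^ 10) * Real.exp (-(3 / 4 * x)) := by
          congr 1
          rw [← Real.exp_add, ← Real.exp_nat_mul, ← Real.exp_sub]
          congr 1; push_cast; ring
      _ = (δ / 3) * ((3 * 4096 * c₁ ^ 4 / δ) * x ^ 10) * Real.exp (-(3 / 4 * x)) := by
          field_simp
      _ ≤ (δ / 3) * Real.exp (x / 2) * Real.exp (-(3 / 4 * x)) := by gcongr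
      _ = (δ / 3) * Real.exp (-(x / 4)) := by
          rw [mul_assoc, ← Real.exp_add]; congr 2; ring
      _ ≤ (δ / 3) * 1 := by
          apply mul_le_mul_of_nonneg_left _ (by positivity)
          rw [← Real.exp_zero]
          exact Real.exp_le_exp.mpr (by linarith)
      _ = δ / 3 := mul_one _
  · have e1 : (Real.exp (x / 2) / (2 * c₁ * x ^ 2)) ^ 2 ≤ (m : ℝ) ^ 2 :=
      pow_le_pow_left₀ hmpos.le hmge 2
    have e2 : 3 / δ ≤ α ^ 2 * (m : ℝ) ^ 2 / 8 := by
      calc 3 / δ = (512 * c₁ ^ 2 * (3 / δ) * x ^ 4) / (512 * c₁ ^ 2 * x ^ 4) := by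
            field_simp
        _ ≤ Real.exp (x / 2) / (512 * c₁ ^ 2 * x ^ 4) := by gcongr
        _ ≤ Real.exp (3 / 4 * x) / (512 * c₁ ^ 2 * x ^ 4) := by
            gcongr
            linarith
        _ = α ^ 2 * (Real.exp (x / 2) / (2 * c₁ * x ^ 2)) ^ 2 / 8 := by
            rw [hα]
            have e3 : Real.exp (3 / 4 * x) = Real.exp (-(x / 8)) ^ 2 * Real.exp (x / 2) ^ 2 := by
              rw [← Real.exp_nat_mul, ← Real.exp_nat_mul, ← Real.exp_add]
              congr 1; push_cast; ring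
            rw [e3]
            field_simp
            norm_num
        _ ≤ α ^ 2 * (m : ℝ) ^ 2 / 8 := by gcongr
    have e3 : Real.exp (-(α ^ 2 * (m : ℝ) ^ 2 / 8)) ≤ δ / 3 := by
      calc Real.exp (-(α ^ 2 * (m : ℝ) ^ 2 / 8)) ≤ Real.exp (-(3 / δ)) :=
            Real.exp_le_exp.mpr (by linarith)
        _ ≤ 1 / (3 / δ) := by
            rw [Real.exp_neg, ← one_div]
            apply one_div_le_one_div_of_le (by positivity)
            have := Real.add_one_le_exp (3 / δ); linarith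
        _ = δ / 3 := by field_simp
    linarith

/-- The lower bound. -/
theorem lower_bound {β : ℝ} (hβ : 10 ≤ β) {a : ℝ} (ha : a < 2) {δ : ℝ} (hδ : 0 < δ) :
    ∃ L₀ : ℕ, ∀ L : ℕ, L₀ ≤ L → ∀ t : ℕ,
      (t : ℝ) ≤ (L : ℝ) ^ 2 * Real.log ((L : ℝ) ^ 2) ^ a →
      1 - δ < tv (law β (box L) (allPlus (box L)) t) (gibbs β (box L)) := by
  obtain ⟨L₀, h⟩ := main_sets hβ (a := max a 1) (le_max_right _ _) (max_lt ha (by norm_num)) hδ
  refine ⟨max L₀ 2, fun L hL t ht => ?_⟩
  have hL2 : 2 ≤ L := (le_max_right _ _).trans hL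
  have hL2' : (2 : ℝ) ≤ L := by exact_mod_cast hL2
  have hlog : 1 ≤ Real.log ((L : ℝ) ^ 2) := by
    rw [Real.le_log_iff_exp_le (by positivity)]
    have := Real.exp_one_lt_d9
    nlinarith
  obtain ⟨G, hG0, hG1, hG2, hG3⟩ := h L ((le_max_left _ _).trans hL) t (ht.trans (by
    apply mul_le_mul_of_nonneg_left _ (by positivity)
    exact Real.rpow_le_rpow_of_exponent_le hlog (le_max_left _ _)))
  have hcard : ((box L).card : ℝ) = (L : ℝ) ^ 2 := by
    have : box L = sqr 1 1 L := by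
      unfold sqr
      rw [box_eq']
      congr 1 <;> ring
    rw [this, sqr_card]; push_cast; rfl
  have hne : (box L).Nonempty := by
    rw [← card_pos]
    have : (0 : ℝ) < ((box L).card : ℝ) := by rw [hcard]; positivity
    exact_mod_cast this
  have h1 := tv_lower β hne (allPlus (box L)) allPlus_sum t G hG0 hG1
  rw [allPlus_test, hcard] at h1
  linarith

end Pool.Agent.Work.MP_4cb49c_pr
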