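import Pool.Agent.Work.MP_4cb49c_pr.Fill

/-!
# Peierls estimates
-/

namespace Pool.Agent.Work.MP_4cb49c_pr

open Finset

/-- Partition function in terms of minus sets. -/
noncomputable def Z (β : ℝ) (Λ : Finset V) : ℝ := ∑ S ∈ Λ.powerset, w β S

lemma Z_pos (β : ℝ) (Λ : Finset V) : 0 < Z β Λ :=
  sum_pos (fun _ _ => w_pos _ _) ⟨∅, empty_mem_powerset _⟩

/-- Gibbs expectation in terms of minus sets. -/
noncomputable def Ex (β : ℝ) (Λ : Finset V) (f : Finset V → ℝ) : ℝ :=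
  (∑ S ∈ Λ.powerset, w β S * f S) / Z β Λ

lemma Ex_mono {β : ℝ} {Λ : Finset V} {f g : Finset V → ℝ} (h : ∀ S ⊆ Λ, f S ≤ g S) :
    Ex β Λ f ≤ Ex β Λ g := by
  unfold Ex
  apply div_le_div_of_nonneg_right _ (Z_pos β Λ).le
  apply sum_le_sum
  intro S hS
  exact mul_le_mul_of_nonneg_left (h S (mem_powerset.mp hS)) (w_pos _ _).le

lemma Ex_const (β : ℝ) (Λ : Finset V) (c : ℝ) : Ex β Λ (fun _ => c) = c := by
  unfold Ex
  rw [← sum_mul]
  change Z β Λ * c / Z β Λ = c
  field_simp [(Z_pos β Λ).ne']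

lemma Ex_add (β : ℝ) (Λ : Finset V) (f g : Finset V → ℝ) :
    Ex β Λ (fun S => f S + g S) = Ex β Λ f + Ex β Λ g := by
  unfold Ex
  rw [← add_div, ← sum_add_distrib]
  congr 1
  exact sum_congr rfl fun _ _ => by ring

lemma Ex_sub (β : ℝ) (Λ : Finset V) (f g : Finset V → ℝ) :
    Ex β Λ (fun S => f S - g S) = Ex β Λ f - Ex β Λ g := by
  unfold Ex
  rw [← sub_div, ← sum_sub_distrib]
  congr 1
  exact sum_congr rfl fun _ _ => by ring

lemma Ex_mul (β : ℝ) (Λ : Finset V) (c : ℝ) (f : Finset V → ℝ) :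
    Ex β Λ (fun S => c * f S) = c * Ex β Λ f := by
  unfold Ex
  rw [← mul_div_assoc, mul_sum]
  congr 1
  exact sum_congr rfl fun _ _ => by ring

lemma Ex_sum {ι : Type*} (β : ℝ) (Λ : Finset V) (s : Finset ι) (f : ι → Finset V → ℝ) :
    Ex β Λ (fun S => ∑ i ∈ s, f i S) = ∑ i ∈ s, Ex β Λ (f i) := by
  unfold Ex
  rw [← sum_div, sum_comm]
  congr 1
  exact sum_congr rfl fun _ _ => by rw [mul_sum]

lemma Ex_nonneg {β : ℝ} {Λ : Finset V} {f : Finset V → ℝ} (h : ∀ S ⊆ Λ, 0 ≤ f S) :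
    0 ≤ Ex β Λ f := by
  have := Ex_mono (β := β) (f := fun _ => 0) (g := f) h
  rwa [Ex_const] at this

lemma Ex_congr {β : ℝ} {Λ : Finset V} {f g : Finset V → ℝ} (h : ∀ S ⊆ Λ, f S = g S) :
    Ex β Λ f = Ex β Λ g :=
  le_antisymm (Ex_mono fun S hS => (h S hS).le) (Ex_mono fun S hS => (h S hS).ge)

lemma biUnion_card {D : Finset E} {Γ : Finset (Finset E)} (h : Γ ⊆ comps D) :
    (Γ.biUnion id).card = ∑ γ ∈ Γ, γ.card := by
  rw [card_biUnion]
  · rfl
  · intro γ hγ δ hδ hne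
    rw [Function.onFun, disjoint_left]
    intro e he he'
    exact hne ((mem_comps.mp (h hγ)).eq_of_mem (mem_comps.mp (h hδ)) he he')

lemma biUnion_sub {D : Finset E} {Γ : Finset (Finset E)} (h : Γ ⊆ comps D) :
    Γ.biUnion id ⊆ D := by
  intro e he
  rw [mem_biUnion] at he
  obtain ⟨γ, hγ, he⟩ := he
  exact (mem_comps.mp (h hγ)).1 he

lemma biUnion_adj {D : Finset E} {Γ : Finset (Finset E)} (h : Γ ⊆ comps D) :
    ∀ e ∈ Γ.biUnion id, ∀ f ∈ N e, f ∈ D → f ∈ Γ.biUnion id := by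
  intro e he f hf hfD
  rw [mem_biUnion] at he ⊢
  obtain ⟨γ, hγ, he⟩ := he
  exact ⟨γ, hγ, (mem_comps.mp (h hγ)).2.2.2 e he f hf hfD⟩

lemma prob_comps {β : ℝ} {a₀ a₁ b₀ b₁ : ℤ} (Γ : Finset (Finset E)) :
    ∑ S ∈ (rect a₀ a₁ b₀ b₁).powerset.filter (fun S => Γ ⊆ comps (bd S)), w β S
      ≤ Z β (rect a₀ a₁ b₀ b₁) * ∏ γ ∈ Γ, Real.exp (-(2 * β * γ.card)) := by
  classical
  set Λ := rect a₀ a₁ b₀ b₁ with hΛ
  set G := Γ.biUnion id with hG
  set φ : Finset V → Finset V := fun S => symmDiff S (fillIn Λ G) with hφ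
  have key : ∀ S ∈ Λ.powerset.filter (fun S => Γ ⊆ comps (bd S)),
      w β S = w β (φ S) * ∏ γ ∈ Γ, Real.exp (-(2 * β * γ.card)) := by
    intro S hS
    rw [mem_filter, mem_powerset] at hS
    have h1 : G ⊆ bd S := biUnion_sub hS.2
    have h2 : Clo G := clo_sub (clo_bd S) h1 (biUnion_adj hS.2)
    have h3 : bd (fillIn Λ G) = G :=
      bd_fillIn (h1.trans ((bd_subset_touch S).trans (touch_mono hS.1))) h2
    have h4 : bc (φ S) + ∑ γ ∈ Γ, γ.card = bc S := by
      unfold bc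
      rw [hφ]
      simp only
      rw [bd_symmDiff, h3, ← biUnion_card hS.2]
      have : symmDiff (bd S) G = bd S \ G := by
        rw [symmDiff_def, sup_eq_union, (sdiff_eq_empty_iff_subset).mpr h1, union_empty]
      rw [this]
      exact card_sdiff_add_card_eq_card h1
    rw [← Real.exp_sum]
    unfold w
    rw [← Real.exp_add]
    congr 1
    have h5 : (bc S : ℝ) = bc (φ S) + ∑ γ ∈ Γ, (γ.card : ℝ) := by
      rw [← h4]; push_cast; ring
    rw [h5, sum_neg_distrib, ← mul_sum]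
    ring
  rw [sum_congr rfl key, ← sum_mul]
  apply mul_le_mul_of_nonneg_right
  · have hinj : Set.InjOn φ (Λ.powerset.filter (fun S => Γ ⊆ comps (bd S))) := by
      intro S _ T _ h
      exact symmDiff_left_injective (fillIn Λ G) h
    rw [← sum_image hinj]
    apply sum_le_sum_of_subset_of_nonneg
    · intro T hT
      rw [mem_image] at hT
      obtain ⟨S, hS, rfl⟩ := hT
      rw [mem_filter, mem_powerset] at hS
      rw [mem_powerset]
      intro x hx
      rw [hφ] at hx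
      simp only [mem_symmDiff, fillIn, mem_filter] at hx
      rcases hx with h | h
      · exact hS.1 h.1
      · exact h.1.1
    · intros; exact (w_pos _ _).le
  · exact prod_nonneg fun _ _ => (Real.exp_pos _).le

/-- Exponential moments of sums over contours. -/
lemma exp_moment {β : ℝ} {a₀ a₁ b₀ b₁ : ℤ} (c : Finset E → ℝ) (hc : ∀ γ, 0 ≤ c γ) :
    Ex β (rect a₀ a₁ b₀ b₁) (fun S => Real.exp (∑ γ ∈ comps (bd S), c γ))
      ≤ Real.exp (∑ γ ∈ Kon (touch (rect a₀ a₁ b₀ b₁)),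
        (Real.exp (c γ) - 1) * Real.exp (-(2 * β * γ.card))) := by
  classical
  set Λ := rect a₀ a₁ b₀ b₁ with hΛ
  set K := Kon (touch Λ) with hK
  have hc' : ∀ γ, 0 ≤ Real.exp (c γ) - 1 := fun γ => by
    have := Real.add_one_le_exp (c γ); linarith [hc γ]
  unfold Ex
  rw [div_le_iff₀ (Z_pos β Λ)]
  have h1 : ∀ S ∈ Λ.powerset, w β S * Real.exp (∑ γ ∈ comps (bd S), c γ)
      = ∑ Γ ∈ K.powerset, if Γ ⊆ comps (bd S) then w β S * ∏ γ ∈ Γ, (Real.exp (c γ) - 1)
        else 0 := by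
    intro S hS
    rw [mem_powerset] at hS
    have hsub : comps (bd S) ⊆ K :=
      comps_subset_Kon ((bd_subset_touch S).trans (touch_mono hS))
    rw [Real.exp_sum]
    have : ∏ γ ∈ comps (bd S), Real.exp (c γ) = ∏ γ ∈ comps (bd S), ((Real.exp (c γ) - 1) + 1) := by
      apply prod_congr rfl; intros; ring
    rw [this, prod_add_one, mul_sum, ← sum_filter]
    apply sum_congr _ (fun _ _ => rfl)
    ext Γ
    simp only [mem_filter, mem_powerset]
    exact ⟨fun h => ⟨h.trans hsub, h⟩, fun h => h.2⟩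
  rw [sum_congr rfl h1, sum_comm]
  have h2 : ∀ Γ ∈ K.powerset, (∑ S ∈ Λ.powerset,
      if Γ ⊆ comps (bd S) then w β S * ∏ γ ∈ Γ, (Real.exp (c γ) - 1) else 0)
      ≤ Z β Λ * ∏ γ ∈ Γ, ((Real.exp (c γ) - 1) * Real.exp (-(2 * β * γ.card))) := by
    intro Γ _
    rw [← sum_filter, ← sum_mul, prod_mul_distrib]
    have := prob_comps (β := β) (a₀ := a₀) (a₁ := a₁) (b₀ := b₀) (b₁ := b₁) Γ
    calc _ ≤ (Z β Λ * ∏ γ ∈ Γ, Real.exp (-(2 * β * γ.card))) * ∏ γ ∈ Γ, (Real.exp (c γ) - 1) :=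
          mul_le_mul_of_nonneg_right this (prod_nonneg fun _ _ => hc' _)
      _ = _ := by ring
  refine (sum_le_sum h2).trans ?_
  rw [← mul_sum, mul_comm (Real.exp _)]
  apply mul_le_mul_of_nonneg_left _ (Z_pos β Λ).le
  rw [← prod_add_one, Real.exp_sum]
  apply prod_le_prod
  · intro γ _
    have := mul_nonneg (hc' γ) (Real.exp_pos (-(2 * β * γ.card))).le
    linarith
  · intro γ _
    exact Real.add_one_le_exp _

/-- First moments of sums over contours. -/
lemma first_moment {β : ℝ} {a₀ a₁ b₀ b₁ : ℤ} (F : Finset E → ℝ) (hF : ∀ γ, 0 ≤ F γ) :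
    Ex β (rect a₀ a₁ b₀ b₁) (fun S => ∑ γ ∈ comps (bd S), F γ)
      ≤ ∑ γ ∈ Kon (touch (rect a₀ a₁ b₀ b₁)), F γ * Real.exp (-(2 * β * γ.card)) := by
  classical
  set Λ := rect a₀ a₁ b₀ b₁ with hΛ
  set K := Kon (touch Λ) with hK
  unfold Ex
  rw [div_le_iff₀ (Z_pos β Λ)]
  have h1 : ∀ S ∈ Λ.powerset, w β S * (∑ γ ∈ comps (bd S), F γ)
      = ∑ γ ∈ K, if {γ} ⊆ comps (bd S) then w β S * F γ else 0 := by
    intro S hS
    rw [mem_powerset] at hS
    have hsub : comps (bd S) ⊆ K :=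
      comps_subset_Kon ((bd_subset_touch S).trans (touch_mono hS))
    rw [mul_sum, ← sum_filter]
    apply sum_congr _ (fun _ _ => rfl)
    ext γ
    simp only [mem_filter, singleton_subset_iff]
    exact ⟨fun h => ⟨hsub h, h⟩, fun h => h.2⟩
  rw [sum_congr rfl h1, sum_comm, sum_mul]
  apply sum_le_sum
  intro γ _
  rw [← sum_filter, ← sum_mul]
  have := prob_comps (β := β) (a₀ := a₀) (a₁ := a₁) (b₀ := b₀) (b₁ := b₁) {γ}
  rw [prod_singleton] at this
  calc _ ≤ (Z β Λ * Real.exp (-(2 * β * γ.card))) * F γ :=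
        mul_le_mul_of_nonneg_right this (hF γ)
    _ = _ := by ring

lemma reach_col {γ : Finset E} {e f : E} (h : Reach γ {e} f) :
    ∀ c : ℤ, e.1.1 ≤ c → c ≤ f.1.1 → ∃ g ∈ γ, g.1.1 = c := by
  induction h with
  | @base f a b =>
    rw [mem_singleton] at a; subst a
    intro c h1 h2
    exact ⟨f, b, by omega⟩
  | @step f g a b c ih =>
    intro m h1 h2
    have h3 : g.1.1 ≤ f.1.1 + 1 := by
      obtain ⟨⟨x, y⟩, u⟩ := f
      obtain ⟨⟨x', y'⟩, u'⟩ := g
      cases u <;> cases u' <;> simp [N] at b ⊢ <;> omega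
    by_cases h4 : m ≤ f.1.1
    · exact ih m h1 h4
    · exact ⟨g, c, by omega⟩

lemma exists_top {S : Finset V} {x : V} (hx : x ∈ S) : ∃ e ∈ bd S, e.1.1 = x.1 := by
  have hne : (S.filter (fun y => y.1 = x.1)).Nonempty := ⟨x, by simp [hx]⟩
  obtain ⟨y, hy, hmax⟩ := exists_max_image _ (fun y : V => y.2) hne
  rw [mem_filter] at hy
  refine ⟨(y, true), ?_, hy.2⟩
  rw [mem_bd]
  have : (y.1, y.2 + 1) ∉ S := by
    intro hcon
    have := hmax (y.1, y.2 + 1) (by rw [mem_filter]; exact ⟨hcon, hy.2⟩)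
    simp at this
  simp [hd, hy.1, this]

/-- A contour around `x` crosses the ray from `x` to the right at distance less than its
length. -/
lemma around {a₀ a₁ b₀ b₁ : ℤ} {γ : Finset E} (h1 : γ ⊆ touch (rect a₀ a₁ b₀ b₁))
    (h2 : Clo γ) (h3 : Conn γ) {x : V} (hx : ray γ x = 1) :
    ∃ k : ℕ, ((x.1 + k, x.2), false) ∈ γ ∧ k + 1 ≤ γ.card := by
  classical
  have hxΛ : x ∈ rect a₀ a₁ b₀ b₁ := by
    by_contra hcon
    rw [ray_outside h1 h2 hcon] at hx
    exact absurd hx (by decide)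
  have hxS : x ∈ fillIn (rect a₀ a₁ b₀ b₁) γ := by
    simp only [fillIn, mem_filter]; exact ⟨hxΛ, hx⟩
  obtain ⟨e, he, he'⟩ := exists_top hxS
  rw [bd_fillIn h1 h2] at he
  have : ∃ f ∈ γ, f.2 = false ∧ f.1.2 = x.2 ∧ x.1 ≤ f.1.1 := by
    by_contra hcon
    push Not at hcon
    have : ray γ x = 0 := by
      unfold ray
      apply sum_eq_zero
      intro e he
      rw [if_neg]
      rintro ⟨h3, h4, h5⟩
      have := hcon e he h3 h4
      omega
    rw [this] at hx
    exact absurd hx (by decide)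
  obtain ⟨f, hf, hf1, hf2, hf3⟩ := this
  obtain ⟨k, hk⟩ := Int.le.dest hf3
  refine ⟨k, ?_, ?_⟩
  · have : f = ((x.1 + k, x.2), false) := by
      obtain ⟨⟨u, v⟩, c⟩ := f
      simp only at hf1 hf2 hk
      simp [hf1, hf2, hk]
    rw [← this]; exact hf
  · have hsub : Icc x.1 (x.1 + k) ⊆ γ.image (fun g => g.1.1) := by
      intro c hc
      rw [mem_Icc] at hc
      obtain ⟨g, hg, hg'⟩ := reach_col (h3 e he f hf) c (by omega) (by omega)
      rw [mem_image]
      exact ⟨g, hg, hg'⟩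
    have := (card_le_card hsub).trans card_image_le
    rw [Int.card_Icc] at this
    omega

lemma ray_biUnion {D : Finset E} (x : V) : ray D x = ∑ γ ∈ comps D, ray γ x := by
  classical
  have h : D = (comps D).biUnion id := by
    ext e
    rw [mem_biUnion]
    constructor
    · intro he
      exact ⟨comp D e, mem_comps.mpr (comp_isComp he), self_mem_comp he⟩
    · rintro ⟨γ, hγ, he⟩
      exact (mem_comps.mp hγ).1 he
  unfold ray
  conv_lhs => rw [h]
  rw [sum_biUnion]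
  · rfl
  · intro γ hγ δ hδ hne
    rw [Function.onFun, disjoint_left]
    intro e he he'
    exact hne ((mem_comps.mp hγ).eq_of_mem (mem_comps.mp hδ) he he')

lemma exists_around {S : Finset V} {x : V} (hx : x ∈ S) :
    ∃ γ ∈ comps (bd S), ray γ x = 1 := by
  by_contra hcon
  push Not at hcon
  have h := ray_bd S x
  rw [if_pos hx, ray_biUnion, sum_eq_zero] at h
  · exact absurd h (by decide)
  · intro γ hγ
    rcases z2 (ray γ x) with h | h
    · exact h
    · exact absurd h (hcon γ hγ)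

lemma exp_small {β : ℝ} (hβ : 9 ≤ β) : 15 * Real.exp (-(2 * β)) ≤ 1 / 1000 := by
  have h1 : Real.exp (-(2 * β)) ≤ Real.exp (-18) := Real.exp_le_exp.mpr (by linarith)
  have h2 : Real.exp (-18) = (Real.exp 1)⁻¹ ^ 18 := by
    rw [← Real.exp_neg, ← Real.exp_nat_mul]; norm_num
  have h3 : (2 : ℝ) ≤ Real.exp 1 := by
    have := Real.add_one_le_exp (1 : ℝ); linarith
  have h4 : (Real.exp 1)⁻¹ ≤ (2 : ℝ)⁻¹ := inv_anti₀ (by norm_num) h3
  have h5 : (Real.exp 1)⁻¹ ^ 18 ≤ (2 : ℝ)⁻¹ ^ 18 := pow_le_pow_left₀ (by positivity) h4 18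
  rw [h2] at h1
  have : (2 : ℝ)⁻¹ ^ 18 ≤ 1 / 15000 := by norm_num
  linarith

lemma exp_card (β : ℝ) (m : ℕ) : Real.exp (-(2 * β * m)) = Real.exp (-(2 * β)) ^ m := by
  rw [← Real.exp_nat_mul]; congr 1; ring

/-- Peierls bound. -/
theorem peierls {β : ℝ} (hβ : 9 ≤ β) {a₀ a₁ b₀ b₁ : ℤ} (x : V) :
    Ex β (rect a₀ a₁ b₀ b₁) (fun S => if x ∈ S then 1 else 0) ≤ 1 / 1000 := by
  classical
  set Λ := rect a₀ a₁ b₀ b₁ with hΛ
  set K := Kon (touch Λ) with hK
  set M := (touch Λ).card with hM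
  have hsm := exp_small hβ
  set y := 15 * Real.exp (-(2 * β)) with hy
  have hy0 : 0 ≤ y := by positivity
  calc Ex β Λ (fun S => if x ∈ S then 1 else 0)
      ≤ Ex β Λ (fun S => ∑ γ ∈ comps (bd S), if (Clo γ ∧ ray γ x = 1) then (1 : ℝ) else 0) := by
        apply Ex_mono
        intro S _
        split_ifs with hx
        · obtain ⟨γ, hγ, hγ'⟩ := exists_around hx
          have := single_le_sum (f := fun γ => if (Clo γ ∧ ray γ x = 1) then (1 : ℝ) else 0)
            (s := comps (bd S)) (fun i _ => by split_ifs <;> norm_num) hγ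
          have hcl : Clo γ := (mem_comps.mp hγ).clo (clo_bd S)
          simpa [hγ', hcl] using this
        · exact sum_nonneg fun _ _ => by split_ifs <;> norm_num
    _ ≤ ∑ γ ∈ K, (if (Clo γ ∧ ray γ x = 1) then (1 : ℝ) else 0) *
          Real.exp (-(2 * β * γ.card)) :=
        first_moment _ (fun γ => by split_ifs <;> norm_num)
    _ ≤ ∑ γ ∈ K, ∑ k ∈ range M, (if (((x.1 + k, x.2), false) ∈ γ ∧ k + 1 ≤ γ.card) then
          Real.exp (-(2 * β * γ.card)) else 0) := by
        apply sum_le_sum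
        intro γ hγ
        rw [hK, mem_Kon] at hγ
        split_ifs with h
        · obtain ⟨k, hk1, hk2⟩ := around hγ.1 h.1 hγ.2.2 h.2
          have hkM : k ∈ range M := by
            rw [mem_range]
            have := card_le_card hγ.1
            omega
          have := single_le_sum (f := fun k : ℕ => (if (((x.1 + k, x.2), false) ∈ γ ∧
            k + 1 ≤ γ.card) then Real.exp (-(2 * β * γ.card)) else 0))
            (s := range M) (fun i _ => by split_ifs <;> positivity) hkM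
          rw [one_mul]
          simpa [hk1, hk2] using this
        · rw [zero_mul]
          exact sum_nonneg fun _ _ => by split_ifs <;> positivity
    _ = ∑ k ∈ range M, ∑ γ ∈ K.filter (fun γ => ((x.1 + k, x.2), false) ∈ γ ∧ k + 1 ≤ γ.card),
          Real.exp (-(2 * β * γ.card)) := by
        rw [sum_comm]
        exact sum_congr rfl fun k _ => by rw [sum_filter]
    _ ≤ ∑ k ∈ range M, y ^ (k + 1) / 5 := by
        apply sum_le_sum
        intro k _
        apply sum_Kon_at' (touch Λ) ((x.1 + k, x.2), false) _ (y ^ (k + 1)) (by positivity)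
          (fun γ => k + 1 ≤ γ.card)
        intro γ hγ _
        rw [exp_card]
        have : Real.exp (-(2 * β)) = y * (1 / 15) := by rw [hy]; ring
        rw [this, mul_pow]
        apply mul_le_mul_of_nonneg_right _ (by positivity)
        exact pow_le_pow_of_le_one hy0 (by linarith) hγ
    _ = (y / 5) * ∑ k ∈ range M, y ^ k := by
        rw [mul_sum]
        exact sum_congr rfl fun k _ => by ring
    _ ≤ (y / 5) * 2 := by
        apply mul_le_mul_of_nonneg_left _ (by positivity)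
        have h1 : ∑ k ∈ range M, y ^ k ≤ ∑ k ∈ range M, (1 / 2 : ℝ) ^ k :=
          sum_le_sum fun k _ => pow_le_pow_left₀ hy0 (by linarith) k
        exact h1.trans (by
          have := sum_geometric_two_le M
          simpa using this)
    _ ≤ 1 / 1000 := by linarith

end Pool.Agent.Work.MP_4cb49c_pr
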