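import Pool.Agent.Work.MP_4cb49c_pr.Func

/-!
# Persistence of the minus phase in a box for times of the order of the side
-/

namespace Pool.Agent.Work.MP_4cb49c_pr

open Finset

/-- The square of side `R` with lower left corner `(a, b)`. -/
noncomputable def sqr (a b : ℤ) (R : ℕ) : Finset V := rect a (a + R - 1) b (b + R - 1)

lemma sqr_card (a b : ℤ) (R : ℕ) : (sqr a b R).card = R ^ 2 := by
  unfold sqr rect
  rw [card_product, Int.card_Icc, Int.card_Icc]
  have h1 : (a + R - 1 + 1 - a).toNat = R := by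
    have : a + R - 1 + 1 - a = (R : ℤ) := by ring
    rw [this]; simp
  have h2 : (b + R - 1 + 1 - b).toNat = R := by
    have : b + R - 1 + 1 - b = (R : ℤ) := by ring
    rw [this]; simp
  rw [h1, h2, sq]

lemma bc_sqr (a b : ℤ) (R : ℕ) : bc (sqr a b R) ≤ 4 * R := by
  have hsub : bd (sqr a b R) ⊆
      ((Icc b (b + R - 1)).image (fun v => (((a - 1, v), false) : E)) ∪
        (Icc b (b + R - 1)).image (fun v => (((a + R - 1, v), false) : E))) ∪
      ((Icc a (a + R - 1)).image (fun v => (((v, b - 1), true) : E)) ∪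
        (Icc a (a + R - 1)).image (fun v => (((v, b + R - 1), true) : E))) := by
    intro e he
    rw [mem_bd] at he
    unfold sqr at he
    rw [mem_rect, mem_rect] at he
    obtain ⟨⟨u, v⟩, c⟩ := e
    simp only [mem_union, mem_image, mem_Icc, Prod.mk.injEq]
    cases c
    · simp [hd] at he ⊢
      omega
    · simp [hd] at he ⊢
      omega
  have h1 : ∀ b : ℤ, (Icc b (b + R - 1)).card = R := by
    intro b
    rw [Int.card_Icc]
    have : b + R - 1 + 1 - b = (R : ℤ) := by ring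
    rw [this]; simp
  have c1 := card_image_le (s := Icc b (b + R - 1)) (f := fun v => (((a - 1, v), false) : E))
  have c2 := card_image_le (s := Icc b (b + R - 1)) (f := fun v => (((a + R - 1, v), false) : E))
  have c3 := card_image_le (s := Icc a (a + R - 1)) (f := fun v => (((v, b - 1), true) : E))
  have c4 := card_image_le (s := Icc a (a + R - 1)) (f := fun v => (((v, b + R - 1), true) : E))
  rw [h1] at c1 c2 c3 c4
  unfold bc
  refine (card_le_card hsub).trans ?_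
  refine (card_union_le _ _).trans ?_
  have d1 := card_union_le ((Icc b (b + R - 1)).image (fun v => (((a - 1, v), false) : E)))
    ((Icc b (b + R - 1)).image (fun v => (((a + R - 1, v), false) : E)))
  have d2 := card_union_le ((Icc a (a + R - 1)).image (fun v => (((v, b - 1), true) : E)))
    ((Icc a (a + R - 1)).image (fun v => (((v, b + R - 1), true) : E)))
  omega

/-- The density of the minus phase with respect to the plus phase. -/
noncomputable def g0 (β : ℝ) (Λ S : Finset V) : ℝ := w β (Λ \ S) / w β S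

lemma g0_pos (β : ℝ) (Λ S : Finset V) : 0 < g0 β Λ S := div_pos (w_pos _ _) (w_pos _ _)

lemma Ex_g0 (β : ℝ) (Λ : Finset V) (f : Finset V → ℝ) :
    Ex β Λ (fun S => g0 β Λ S * f S) = Ex β Λ (fun T => f (Λ \ T)) := by
  unfold Ex
  congr 1
  apply sum_nbij' (fun S => Λ \ S) (fun S => Λ \ S)
  · intro S _; rw [mem_powerset]; exact sdiff_subset
  · intro S _; rw [mem_powerset]; exact sdiff_subset
  · intro S hS
    rw [mem_powerset] at hS
    exact Finset.sdiff_sdiff_eq_self hS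
  · intro S hS
    rw [mem_powerset] at hS
    exact Finset.sdiff_sdiff_eq_self hS
  · intro S hS
    rw [mem_powerset] at hS
    beta_reduce
    rw [Finset.sdiff_sdiff_eq_self hS]
    unfold g0
    field_simp [(w_pos β S).ne']

lemma Hf_g0 {β : ℝ} (hβ : 0 ≤ β) (Λ : Finset V) : Hf β Λ (g0 β Λ) ≤ 2 * β * bc Λ := by
  unfold Hf
  rw [Ex_g0 β Λ (fun S => Real.log (g0 β Λ S))]
  rw [← Ex_const β Λ (2 * β * bc Λ)]
  apply Ex_mono
  intro T hT
  unfold g0
  rw [Finset.sdiff_sdiff_eq_self hT]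
  unfold w
  rw [← Real.exp_sub, Real.log_exp]
  have h : bc (Λ \ T) ≤ bc Λ + bc T := by
    unfold bc
    rw [bd_compl hT]
    calc _ ≤ (bd Λ ∪ bd T).card := card_le_card (by
          intro e he
          rw [mem_symmDiff] at he
          rw [mem_union]; tauto)
      _ ≤ _ := card_union_le _ _
  have h' : (bc (Λ \ T) : ℝ) ≤ bc Λ + bc T := by exact_mod_cast h
  nlinarith

lemma exp_small' {β : ℝ} (hβ : 10 ≤ β) : 15 * (Real.exp 1 * Real.exp (-(2 * β))) ≤ 1 / 1000 := by
  have h := exp_small (β := β - 1 / 2) (by linarith)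
  rw [← Real.exp_add]
  have e : 1 + -(2 * β) = -(2 * (β - 1 / 2)) := by ring
  rw [e]; exact h

lemma sq_le_four_pow (k : ℕ) : ((k + 1 : ℕ) : ℝ) ^ 2 ≤ 4 ^ k := by
  induction k with
  | zero => norm_num
  | succ k ih =>
    rw [pow_succ (4 : ℝ) k]
    push_cast at ih ⊢
    have : (0 : ℝ) ≤ k := by positivity
    nlinarith

lemma sq_small {y : ℝ} (hy0 : 0 ≤ y) (hy : y ≤ 1 / 1000) {k : ℕ} (hk : 1 ≤ k) :
    (k : ℝ) ^ 2 * y ^ k ≤ 1 / 1000 := by
  obtain ⟨j, rfl⟩ : ∃ j, k = j + 1 := ⟨k - 1, by omega⟩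
  have h1 := sq_le_four_pow j
  calc ((j + 1 : ℕ) : ℝ) ^ 2 * y ^ (j + 1) ≤ 4 ^ j * y ^ (j + 1) :=
        mul_le_mul_of_nonneg_right h1 (by positivity)
    _ = (4 * y) ^ j * y := by rw [mul_pow, pow_succ]; ring
    _ ≤ 1 * y := by
        apply mul_le_mul_of_nonneg_right _ hy0
        exact pow_le_one₀ (by positivity) (by linarith)
    _ ≤ 1 / 1000 := by linarith

section rectangles

variable {β : ℝ} {a₀ a₁ b₀ b₁ : ℤ}

lemma Ex_Sqa (hβ : 9 ≤ β) : Ex β (rect a₀ a₁ b₀ b₁) Sqa ≤ (rect a₀ a₁ b₀ b₁).card / 1000 := by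
  classical
  set Λ := rect a₀ a₁ b₀ b₁ with hΛ
  have hsm := exp_small hβ
  set y := 15 * Real.exp (-(2 * β)) with hy
  have hy0 : 0 ≤ y := by positivity
  have h1 := first_moment (β := β) (a₀ := a₀) (a₁ := a₁) (b₀ := b₀) (b₁ := b₁)
    (fun γ => (γ.card : ℝ) ^ 2) (fun γ => by positivity)
  have h2 := sum_Kon (touch Λ) (fun γ => (γ.card : ℝ) ^ 2 * Real.exp (-(2 * β * γ.card)))
    (1 / 1000) (by norm_num) (fun _ => True) (fun γ _ => by positivity) (by
      intro γ _ hγ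
      have hk : 1 ≤ γ.card := card_pos.mpr hγ
      rw [exp_card]
      have : Real.exp (-(2 * β)) = y * (1 / 15) := by rw [hy]; ring
      rw [this, mul_pow, ← mul_assoc]
      exact mul_le_mul_of_nonneg_right (sq_small hy0 hsm hk) (by positivity))
  rw [filter_true] at h2
  have h3 : ((touch Λ).card : ℝ) ≤ 4 * Λ.card := by exact_mod_cast touch_card_le Λ
  have h4 : Ex β Λ Sqa ≤ _ := h1
  have : (0 : ℝ) ≤ Λ.card := by positivity
  linarith

lemma Ex_Sq (hβ : 10 ≤ β) {l : ℕ} (hl : 1 ≤ l) {g : Finset V → ℝ} (hg : ∀ S, 0 < g S)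
    (hg1 : Ex β (rect a₀ a₁ b₀ b₁) g = 1) :
    Ex β (rect a₀ a₁ b₀ b₁) (fun S => g S * Sq l S)
      ≤ l * Hf β (rect a₀ a₁ b₀ b₁) g + (rect a₀ a₁ b₀ b₁).card / 1000 := by
  classical
  set Λ := rect a₀ a₁ b₀ b₁ with hΛ
  have hsm := exp_small' hβ
  set y := 15 * (Real.exp 1 * Real.exp (-(2 * β))) with hy
  have hy0 : 0 ≤ y := by positivity
  have hl0 : (0 : ℝ) < l := by exact_mod_cast hl
  set c : Finset E → ℝ := fun γ => if γ.card < l then (γ.card : ℝ) ^ 2 / l else 0 with hc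
  have h1 := exp_moment (β := β) (a₀ := a₀) (a₁ := a₁) (b₀ := b₀) (b₁ := b₁) c
    (fun γ => by rw [hc]; simp only; split_ifs <;> positivity)
  rw [← hΛ] at h1
  have h2 := sum_Kon (touch Λ) (fun γ => (Real.exp (c γ) - 1) * Real.exp (-(2 * β * γ.card)))
    (1 / (1000 * l)) (by positivity) (fun _ => True) (fun γ _ => by
      have h : 0 ≤ c γ := by rw [hc]; simp only; split_ifs <;> positivity
      have := Real.add_one_le_exp (c γ)
      have : 0 ≤ Real.exp (c γ) - 1 := by linarith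
      positivity) (by
      intro γ _ hγ
      have hk : 1 ≤ γ.card := card_pos.mpr hγ
      by_cases hlt : γ.card < l
      · have hcv : c γ = (γ.card : ℝ) ^ 2 / l := by rw [hc]; simp only; rw [if_pos hlt]
        have hle : c γ ≤ γ.card := by
          rw [hcv, div_le_iff₀ hl0, sq]
          have : (γ.card : ℝ) ≤ l := by exact_mod_cast hlt.le
          exact mul_le_mul_of_nonneg_left this (by positivity)
        have h0 : 0 ≤ c γ := by rw [hcv]; positivity
        have h5 : Real.exp (c γ) - 1 ≤ c γ * Real.exp (c γ) := by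
          have := Real.one_sub_inv_le_log_of_pos (Real.exp_pos (c γ))
          rw [Real.log_exp] at this
          have h6 := mul_le_mul_of_nonneg_right this (Real.exp_pos (c γ)).le
          have h7 : (1 - (Real.exp (c γ))⁻¹) * Real.exp (c γ) = Real.exp (c γ) - 1 := by
            field_simp
          rw [h7] at h6
          exact h6
        have h8 : Real.exp (c γ) - 1 ≤ (γ.card : ℝ) ^ 2 / l * Real.exp 1 ^ γ.card := by
          refine h5.trans ?_
          rw [hcv]
          apply mul_le_mul_of_nonneg_left _ (by positivity)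
          rw [← hcv, ← Real.exp_nat_mul, mul_one]
          exact Real.exp_le_exp.mpr hle
        calc (Real.exp (c γ) - 1) * Real.exp (-(2 * β * γ.card))
            ≤ ((γ.card : ℝ) ^ 2 / l * Real.exp 1 ^ γ.card) * Real.exp (-(2 * β * γ.card)) :=
              mul_le_mul_of_nonneg_right h8 (Real.exp_pos _).le
          _ = ((γ.card : ℝ) ^ 2 * y ^ γ.card) / l * (1 / 15) ^ γ.card := by
              rw [exp_card]
              have : y ^ γ.card = 15 ^ γ.card * (Real.exp 1 ^ γ.card *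
                Real.exp (-(2 * β)) ^ γ.card) := by rw [hy, mul_pow, mul_pow]
              rw [this]
              have h15 : (15 : ℝ) ^ γ.card * (1 / 15) ^ γ.card = 1 := by
                rw [← mul_pow]; norm_num
              calc _ = (γ.card : ℝ) ^ 2 / l * Real.exp 1 ^ γ.card * Real.exp (-(2 * β)) ^ γ.card
                    * ((15 : ℝ) ^ γ.card * (1 / 15) ^ γ.card) := by rw [h15, mul_one]
                _ = _ := by ring
          _ ≤ (1 / 1000) / l * (1 / 15) ^ γ.card := by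
              apply mul_le_mul_of_nonneg_right _ (by positivity)
              exact div_le_div_of_nonneg_right (sq_small hy0 hsm hk) hl0.le
          _ = _ := by rw [div_div]
      · have hcv : c γ = 0 := by rw [hc]; simp only; rw [if_neg hlt]
        rw [hcv]; simp)
  rw [filter_true] at h2
  have h3 : ((touch Λ).card : ℝ) ≤ 4 * Λ.card := by exact_mod_cast touch_card_le Λ
  have h4 : ∑ γ ∈ Kon (touch Λ), (Real.exp (c γ) - 1) * Real.exp (-(2 * β * γ.card))
      ≤ Λ.card / (1000 * l) := by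
    refine h2.trans ?_
    have : ((touch Λ).card : ℝ) * (1 / (1000 * l) / 5) ≤ (4 * Λ.card) * (1 / (1000 * l) / 5) :=
      mul_le_mul_of_nonneg_right h3 (by positivity)
    refine this.trans ?_
    have e : (4 * (Λ.card : ℝ)) * (1 / (1000 * l) / 5) = (4 / 5) * (Λ.card / (1000 * l)) := by ring
    rw [e]
    have : (0 : ℝ) ≤ Λ.card / (1000 * l) := by positivity
    linarith
  have h5 := entropy_ineq hg hg1 (fun S => ∑ γ ∈ comps (bd S), c γ)
    (h1.trans (Real.exp_le_exp.mpr h4))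
  have h6 : ∀ S, Sq l S = l * ∑ γ ∈ comps (bd S), c γ := by
    intro S
    unfold Sq
    rw [mul_sum]
    apply sum_congr rfl
    intro γ _
    rw [hc]
    simp only
    split_ifs
    · field_simp
    · simp
  have h7 : Ex β Λ (fun S => g S * Sq l S) = l * Ex β Λ (fun S => g S * ∑ γ ∈ comps (bd S), c γ) := by
    rw [← Ex_mul]
    apply Ex_congr
    intro S _
    rw [h6]; ring
  rw [h7]
  calc _ ≤ l * (Hf β Λ g + Λ.card / (1000 * l)) := mul_le_mul_of_nonneg_left h5 hl0.le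
    _ = _ := by field_simp

lemma Ex_Lf (hβ : 10 ≤ β) (m : ℕ) {g : Finset V → ℝ} (hg : ∀ S, 0 < g S)
    (hg1 : Ex β (rect a₀ a₁ b₀ b₁) g = 1) :
    Ex β (rect a₀ a₁ b₀ b₁) (fun S => g S * Lf m S)
      ≤ Hf β (rect a₀ a₁ b₀ b₁) g + (rect a₀ a₁ b₀ b₁).card * (1 / 1000) ^ m := by
  classical
  set Λ := rect a₀ a₁ b₀ b₁ with hΛ
  have hsm := exp_small' hβ
  set y := 15 * (Real.exp 1 * Real.exp (-(2 * β))) with hy
  have hy0 : 0 ≤ y := by positivity
  set c : Finset E → ℝ := fun γ => if m ≤ γ.card then (γ.card : ℝ) else 0 with hc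
  have hc0 : ∀ γ, 0 ≤ c γ := fun γ => by rw [hc]; simp only; split_ifs <;> positivity
  have h1 := exp_moment (β := β) (a₀ := a₀) (a₁ := a₁) (b₀ := b₀) (b₁ := b₁) c hc0
  rw [← hΛ] at h1
  have h2 := sum_Kon (touch Λ) (fun γ => (Real.exp (c γ) - 1) * Real.exp (-(2 * β * γ.card)))
    ((1 / 1000) ^ m) (by positivity) (fun _ => True) (fun γ _ => by
      have := hc0 γ
      have := Real.add_one_le_exp (c γ)
      have : 0 ≤ Real.exp (c γ) - 1 := by linarith
      positivity) (by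
      intro γ _ _
      by_cases hlt : m ≤ γ.card
      · have hcv : c γ = γ.card := by rw [hc]; simp only; rw [if_pos hlt]
        rw [hcv]
        calc (Real.exp γ.card - 1) * Real.exp (-(2 * β * γ.card))
            ≤ Real.exp γ.card * Real.exp (-(2 * β * γ.card)) :=
              mul_le_mul_of_nonneg_right (by linarith) (Real.exp_pos _).le
          _ = y ^ γ.card * (1 / 15) ^ γ.card := by
              rw [exp_card, hy, ← mul_pow]
              have : Real.exp (γ.card : ℝ) = Real.exp 1 ^ γ.card := by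
                rw [← Real.exp_nat_mul, mul_one]
              rw [this, ← mul_pow]
              congr 1; ring
          _ ≤ (1 / 1000) ^ m * (1 / 15) ^ γ.card := by
              apply mul_le_mul_of_nonneg_right _ (by positivity)
              calc y ^ γ.card ≤ (1 / 1000) ^ γ.card := pow_le_pow_left₀ hy0 hsm _
                _ ≤ (1 / 1000) ^ m := pow_le_pow_of_le_one (by norm_num) (by norm_num) hlt
      · have hcv : c γ = 0 := by rw [hc]; simp only; rw [if_neg hlt]
        rw [hcv]; simp)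
  rw [filter_true] at h2
  have h3 : ((touch Λ).card : ℝ) ≤ 4 * Λ.card := by exact_mod_cast touch_card_le Λ
  have h4 : ∑ γ ∈ Kon (touch Λ), (Real.exp (c γ) - 1) * Real.exp (-(2 * β * γ.card))
      ≤ Λ.card * (1 / 1000) ^ m := by
    refine h2.trans ?_
    have h5 : ((touch Λ).card : ℝ) * ((1 / 1000) ^ m / 5) ≤ (4 * Λ.card) * ((1 / 1000) ^ m / 5) :=
      mul_le_mul_of_nonneg_right h3 (by positivity)
    refine h5.trans ?_
    have : (0 : ℝ) ≤ Λ.card * (1 / 1000) ^ m := by positivity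
    linarith
  exact entropy_ineq hg hg1 (fun S => ∑ γ ∈ comps (bd S), c γ) (h1.trans (Real.exp_le_exp.mpr h4))

end rectangles

/-- The minus phase persists in the squares of side `R` for the time `K * R`. -/
def Good (β K : ℝ) (R : ℕ) : Prop :=
  ∀ (a b : ℤ) (n : ℝ), (R : ℝ) ^ 2 ≤ n → ∀ t : ℕ, (t : ℝ) / n ≤ K * R →
    (7 / 8) * (R : ℝ) ^ 2
      ≤ Ex β (sqr a b R) (fun T => Qt β n (sqr a b R) t (fun S => (S.card : ℝ)) (sqr a b R \ T))

/-- Persistence of the minus phase. -/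
theorem stepA_core {β : ℝ} (hβ : 10 ≤ β) {K : ℝ} (hK : 0 ≤ K) {m : ℕ} (hm1 : 1 ≤ m)
    (hm : 800 * β * K * (14 * 2000 ^ 4) * ((m : ℝ) ^ 4 * (1 / 1000) ^ m) ≤ 1 / 100) {R : ℕ}
    (hR1 : (1 : ℝ) ≤ R)
    (hRM0 : 100 * (28 * ((5 + 28 * m : ℕ) : ℝ) ^ 2 + ((5 + 28 * m : ℕ) : ℝ) * (8 * β)
      + 800 * β * K * (14 * 2000 ^ 4 * (m : ℝ) ^ 4) * (8 * β)) ≤ R) : Good β K R := by
  intro a b n hn t ht
  set l : ℕ := 5 + 28 * m with hl
  set c : ℝ := ((4 + 56 * l) ^ 4 : ℕ) * 14 with hc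
  have hcle : c ≤ 14 * 2000 ^ 4 * (m : ℝ) ^ 4 := by
    have h1 : (4 + 56 * l) ≤ 2000 * m := by omega
    have h2 : (((4 + 56 * l) ^ 4 : ℕ) : ℝ) ≤ (((2000 * m) ^ 4 : ℕ) : ℝ) := by
      exact_mod_cast Nat.pow_le_pow_left h1 4
    rw [hc]
    push_cast at h2 ⊢
    rw [mul_pow] at h2
    linarith
  have hc0 : 0 ≤ c := by rw [hc]; positivity
  set M : ℝ := 28 * (l : ℝ) ^ 2 + l * (8 * β) + 800 * β * K * c * (8 * β) with hM
  have hRM : 100 * M ≤ R := by
    refine le_trans ?_ hRM0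
    have h1 : 800 * β * K * c * (8 * β)
        ≤ 800 * β * K * (14 * 2000 ^ 4 * (m : ℝ) ^ 4) * (8 * β) := by
      apply mul_le_mul_of_nonneg_right _ (by linarith)
      apply mul_le_mul_of_nonneg_left hcle
      have : 0 ≤ β := by linarith
      positivity
    rw [hM]
    linarith
  have hn0 : 0 < n := lt_of_lt_of_le (by positivity) hn
  set Λ := sqr a b R with hΛ
  have hcard : (Λ.card : ℝ) = (R : ℝ) ^ 2 := by rw [hΛ, sqr_card]; push_cast; rfl
  have hΛn : (Λ.card : ℝ) ≤ n := by rw [hcard]; exact hn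
  have hβ0 : 0 ≤ β := by linarith
  have hbc : (bc Λ : ℝ) ≤ 4 * R := by exact_mod_cast bc_sqr a b R
  set h : ℝ := 8 * β * R with hh
  have hH : Hf β Λ (g0 β Λ) ≤ h := by
    refine (Hf_g0 hβ0 Λ).trans ?_
    rw [hh]; nlinarith
  have hg1 : Ex β Λ (g0 β Λ) = 1 := by
    have := Ex_g0 β Λ (fun _ => 1)
    simp only [mul_one] at this
    rw [this, Ex_const]
  set G : ℝ := c * (h + Λ.card * (1 / 1000) ^ m) with hG
  have hGb : ∀ u : Finset V → ℝ, (∀ S, 0 < u S) → Ex β Λ u = 1 → Hf β Λ u ≤ h →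
      ∑ x ∈ Λ, Ex β Λ (fun S => u S * gr (Afun l Λ) x S ^ 2) ≤ G := by
    intro u hu hu1 huh
    rw [← Ex_sum]
    have h1 : Ex β Λ (fun S => ∑ x ∈ Λ, u S * gr (Afun l Λ) x S ^ 2)
        ≤ Ex β Λ (fun S => c * (u S * Lf m S)) := by
      apply Ex_mono
      intro S hS
      rw [← mul_sum]
      have h2 := sum_gr (l := l) (m := m) (by omega) (S := S) hS
      calc u S * ∑ x ∈ Λ, gr (Afun l Λ) x S ^ 2 ≤ u S * (c * Lf m S) :=
            mul_le_mul_of_nonneg_left h2 (hu S).le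
        _ = _ := by ring
    rw [Ex_mul] at h1
    refine h1.trans ?_
    apply mul_le_mul_of_nonneg_left _ hc0
    have h3 := Ex_Lf (a₀ := a) (a₁ := a + R - 1) (b₀ := b) (b₁ := b + R - 1) hβ m hu hu1
    refine h3.trans ?_
    exact add_le_add huh le_rfl
  set lam : ℝ := R / (800 * β) with hlam
  have hlam0 : 0 < lam := by rw [hlam]; positivity
  have hem := entropy_method (β := β) hn0 hΛn (g0_pos β Λ) hg1 hH (Afun l Λ) hlam0 hGb t
  set gt := Qt β n Λ t (g0 β Λ) with hgt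
  have hgtpos : ∀ S, 0 < gt S := Qt_pos hn0 hΛn t (g0_pos β Λ)
  have hgt1 : Ex β Λ gt = 1 := by rw [hgt, Ex_Qt β n subset_rfl, hg1]
  have hHt0 : 0 ≤ Hf β Λ gt := Hf_nonneg hgtpos hgt1
  have hHt : Hf β Λ gt ≤ h := by
    have : ∀ t, Hf β Λ (Qt β n Λ t (g0 β Λ)) ≤ h := by
      intro t
      induction t with
      | zero => exact hH
      | succ t ih =>
        rw [Qt_succ]
        have hp := Qt_pos (β := β) hn0 hΛn t (g0_pos β Λ)
        refine (Hf_step hn0 hΛn hp).trans ?_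
        have : 0 ≤ (1 / n) * ∑ x ∈ Λ, Dx β Λ x (Qt β n Λ t (g0 β Λ)) :=
          mul_nonneg (by positivity) (sum_nonneg fun x hx =>
            (Ex_nonneg (fun _ _ => sq_nonneg _)).trans (Dx_lower hx hp))
        linarith
    exact this t
  -- lower bound for the initial value of the functional
  have hA0 : (R : ℝ) ^ 2 - (2 * ((R : ℝ) ^ 2 / 1000) + 28 * R * (l : ℝ) ^ 2)
      ≤ Ex β Λ (fun S => g0 β Λ S * Afun l Λ S) := by
    rw [Ex_g0]
    have h1 : Ex β Λ (fun T => (R : ℝ) ^ 2 - (2 * Sqa T + 28 * R * (l : ℝ) ^ 2))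
        ≤ Ex β Λ (fun T => Afun l Λ (Λ \ T)) := by
      apply Ex_mono
      intro T hT
      have h2 := A_compl (a₀ := a) (a₁ := a + R - 1) (b₀ := b) (b₁ := b + R - 1) l hT
      have h3 : (7 * (bc Λ : ℝ)) * (l : ℝ) ^ 2 ≤ 28 * R * (l : ℝ) ^ 2 := by
        apply mul_le_mul_of_nonneg_right _ (by positivity)
        linarith
      change (Λ.card : ℝ) - Afun l Λ (Λ \ T) ≤ 2 * Sqa T + (7 * (bc Λ : ℝ)) * (l : ℝ) ^ 2 at h2
      rw [hcard] at h2
      linarith
    rw [Ex_sub, Ex_const, Ex_add, Ex_const, Ex_mul] at h1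
    have h4 := Ex_Sqa (β := β) (a₀ := a) (a₁ := a + R - 1) (b₀ := b) (b₁ := b + R - 1)
      (by linarith)
    change Ex β Λ Sqa ≤ (Λ.card : ℝ) / 1000 at h4
    rw [hcard] at h4
    linarith
  -- from the functional to the number of minus spins
  have hfin : Ex β Λ (fun S => g0 β Λ S * Qt β n Λ t (Afun l Λ) S)
      - Ex β Λ (fun S => gt S * Sq l S)
      ≤ Ex β Λ (fun T => Qt β n Λ t (fun S => (S.card : ℝ)) (Λ \ T)) := by
    rw [← Ex_g0 β Λ (Qt β n Λ t (fun S => (S.card : ℝ))), Ex_Qt_symm β n subset_rfl t,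
      Ex_Qt_symm β n subset_rfl t, ← hgt, ← Ex_sub]
    apply Ex_mono
    intro S hS
    have h1 := A_le (a₀ := a) (a₁ := a + R - 1) (b₀ := b) (b₁ := b + R - 1) l hS
    change Afun l Λ S ≤ S.card + Sq l S at h1
    have h2 := mul_le_mul_of_nonneg_left h1 (hgtpos S).le
    linarith
  have hSq := Ex_Sq (a₀ := a) (a₁ := a + R - 1) (b₀ := b) (b₁ := b + R - 1) hβ
    (l := l) (by omega) hgtpos hgt1
  change Ex β Λ (fun S => gt S * Sq l S) ≤ l * Hf β Λ gt + (Λ.card : ℝ) / 1000 at hSq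
  rw [hcard] at hSq
  -- numbers
  have n1 : lam * (Hf β Λ (g0 β Λ) - Hf β Λ gt) ≤ (R : ℝ) ^ 2 / 100 := by
    have : lam * (Hf β Λ (g0 β Λ) - Hf β Λ gt) ≤ lam * h :=
      mul_le_mul_of_nonneg_left (by linarith) hlam0.le
    refine this.trans (le_of_eq ?_)
    rw [hlam, hh]
    have : β ≠ 0 := by linarith
    field_simp
    norm_num
  have hG0 : 0 ≤ G := by rw [hG, hh]; positivity
  have n2 : t / n * (G / lam) ≤ 800 * β * K * G := by
    have h1 : t / n * (G / lam) ≤ (K * R) * (G / lam) :=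
      mul_le_mul_of_nonneg_right ht (by positivity)
    refine h1.trans (le_of_eq ?_)
    rw [hlam]
    have : (R : ℝ) ≠ 0 := by positivity
    have : β ≠ 0 := by linarith
    field_simp
  have n3 : 800 * β * K * G ≤ 800 * β * K * c * (8 * β) * R + (R : ℝ) ^ 2 / 100 := by
    rw [hG, hh, hcard]
    have h1 : 800 * β * K * (c * (8 * β * R + (R : ℝ) ^ 2 * (1 / 1000) ^ m))
        = 800 * β * K * c * (8 * β) * R + (800 * β * K * (c * (1 / 1000) ^ m)) * (R : ℝ) ^ 2 := by
      ring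
    rw [h1]
    have h2 : 800 * β * K * (c * (1 / 1000) ^ m) ≤ 1 / 100 := by
      calc 800 * β * K * (c * (1 / 1000) ^ m)
          ≤ 800 * β * K * ((14 * 2000 ^ 4 * (m : ℝ) ^ 4) * (1 / 1000) ^ m) := by
            apply mul_le_mul_of_nonneg_left _ (by positivity)
            exact mul_le_mul_of_nonneg_right hcle (by positivity)
        _ = 800 * β * K * (14 * 2000 ^ 4) * ((m : ℝ) ^ 4 * (1 / 1000) ^ m) := by ring
        _ ≤ 1 / 100 := hm
    have h3 : (800 * β * K * (c * (1 / 1000) ^ m)) * (R : ℝ) ^ 2 ≤ (1 / 100) * (R : ℝ) ^ 2 :=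
      mul_le_mul_of_nonneg_right h2 (by positivity)
    linarith
  have n4 : l * Hf β Λ gt ≤ l * (8 * β) * R := by
    calc _ ≤ l * h := mul_le_mul_of_nonneg_left hHt (by positivity)
      _ = _ := by rw [hh]; ring
  have n5 : M * R ≤ (R : ℝ) ^ 2 / 100 := by
    have h1 : (100 * M) * R ≤ R * R := mul_le_mul_of_nonneg_right hRM (by positivity)
    have h2 : (R : ℝ) ^ 2 = R * R := sq _
    rw [h2]
    linarith
  have n6 : M * R = 28 * R * (l : ℝ) ^ 2 + l * (8 * β) * R + 800 * β * K * c * (8 * β) * R := by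
    rw [hM]; ring
  have hab := (abs_le.mp hem).1
  have hR2 : 0 ≤ (R : ℝ) ^ 2 := by positivity
  linarith

lemma evt (A : ℝ) {b : ℝ} (hb : b < 1) (k : ℕ) :
    ∀ᶠ x : ℝ in Filter.atTop, A * x ^ b * Real.log x ^ k ≤ x := by
  have h := (isLittleO_log_rpow_rpow_atTop (k : ℝ) (sub_pos.2 hb)).bound
    (c := 1 / (|A| + 1)) (by positivity)
  filter_upwards [h, Filter.eventually_gt_atTop 1] with x hx h1
  have hx0 : 0 < x := by linarith
  have hl : 0 ≤ Real.log x := Real.log_nonneg h1.le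
  rw [Real.rpow_natCast, Real.norm_of_nonneg (by positivity),
    Real.norm_of_nonneg (by positivity)] at hx
  have hA : A ≤ |A| + 1 := (le_abs_self A).trans (by linarith)
  calc A * x ^ b * Real.log x ^ k ≤ (|A| + 1) * x ^ b * Real.log x ^ k := by gcongr
    _ ≤ (|A| + 1) * x ^ b * (1 / (|A| + 1) * x ^ (1 - b)) := by gcongr
    _ = x ^ b * x ^ (1 - b) := by
        have : |A| + 1 ≠ 0 := by positivity
        field_simp
    _ = x := by
        rw [← Real.rpow_add hx0]
        simp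

/-- Persistence of the minus phase for times `R ^ (1 + b)`, `b < 1`. -/
theorem stepA {β : ℝ} (hβ : 10 ≤ β) {b : ℝ} (hb : b < 1) :
    ∃ R₀ : ℕ, ∀ R : ℕ, R₀ ≤ R → Good β ((R : ℝ) ^ b) R := by
  set A₁ : ℝ := 100 * (800 * β * (14 * 2000 ^ 4) * 16) with hA₁
  set A₂ : ℝ := 300 * (800 * β * (14 * 2000 ^ 4 * 16) * (8 * β)) with hA₂
  have e1 := (tendsto_natCast_atTop_atTop (R := ℝ)).eventually (evt A₁ hb 4)
  have e2 := (tendsto_natCast_atTop_atTop (R := ℝ)).eventually (evt A₂ hb 4)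
  have e3 := (tendsto_natCast_atTop_atTop (R := ℝ)).eventually
    (evt (300 * (28 * (33 * 2) ^ 2)) (b := 0) (by norm_num) 2)
  have e4 := (tendsto_natCast_atTop_atTop (R := ℝ)).eventually
    (evt (300 * (33 * 2 * (8 * β))) (b := 0) (by norm_num) 1)
  obtain ⟨R₀, hR₀⟩ := Filter.eventually_atTop.mp
    (((e1.and e2).and (e3.and e4)).and (Filter.eventually_ge_atTop 3))
  refine ⟨R₀, fun R hR => ?_⟩
  obtain ⟨⟨⟨h1, h2⟩, h3, h4⟩, h5⟩ := hR₀ R hR
  have hR3 : (3 : ℝ) ≤ R := by exact_mod_cast h5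
  have hR0 : (0 : ℝ) < R := by linarith
  have hlog : 1 ≤ Real.log R := by
    rw [Real.le_log_iff_exp_le hR0]
    have := Real.exp_one_lt_d9
    linarith
  set m : ℕ := ⌈Real.log R⌉₊ with hm
  have hm1 : 1 ≤ m := by
    rw [hm]
    exact Nat.one_le_ceil_iff.mpr (by linarith)
  have hmle : (m : ℝ) ≤ 2 * Real.log R := by
    have := Nat.ceil_lt_add_one (a := Real.log R) (by linarith)
    rw [← hm] at this
    linarith
  have hmge : Real.log R ≤ m := Nat.le_ceil _
  have hm4 : (m : ℝ) ^ 4 ≤ 16 * Real.log R ^ 4 := by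
    calc (m : ℝ) ^ 4 ≤ (2 * Real.log R) ^ 4 := pow_le_pow_left₀ (by positivity) hmle 4
      _ = _ := by ring
  have hpow : (1 / 1000 : ℝ) ^ m ≤ 1 / (R : ℝ) ^ 2 := by
    have hE : (1 / 1000 : ℝ) ≤ Real.exp (-2) := by
      rw [Real.exp_neg, ← one_div]
      apply one_div_le_one_div_of_le (Real.exp_pos _)
      have h6 : Real.exp 2 = Real.exp 1 * Real.exp 1 := by rw [← Real.exp_add]; norm_num
      rw [h6]
      have := Real.exp_one_lt_d9
      have := Real.exp_pos 1
      nlinarith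
    calc (1 / 1000 : ℝ) ^ m ≤ Real.exp (-2) ^ m := pow_le_pow_left₀ (by norm_num) hE m
      _ = Real.exp (-(2 * m)) := by rw [← Real.exp_nat_mul]; congr 1; ring
      _ ≤ Real.exp (-(2 * Real.log R)) := Real.exp_le_exp.mpr (by linarith)
      _ = 1 / (R : ℝ) ^ 2 := by
          rw [Real.exp_neg, two_mul, Real.exp_add, Real.exp_log hR0, ← sq, one_div]
  have hK : 0 ≤ (R : ℝ) ^ b := by positivity
  have hβ0 : 0 ≤ β := by linarith
  have hlm : (((5 + 28 * m : ℕ) : ℕ) : ℝ) ≤ 33 * 2 * Real.log R := by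
    have : 5 + 28 * m ≤ 33 * m := by omega
    have h6 : ((5 + 28 * m : ℕ) : ℝ) ≤ 33 * m := by exact_mod_cast this
    linarith
  apply stepA_core hβ hK hm1
  · calc 800 * β * (R : ℝ) ^ b * (14 * 2000 ^ 4) * ((m : ℝ) ^ 4 * (1 / 1000) ^ m)
        ≤ 800 * β * (R : ℝ) ^ b * (14 * 2000 ^ 4) * ((16 * Real.log R ^ 4) * (1 / (R : ℝ) ^ 2)) := by
          gcongr
      _ = (A₁ * (R : ℝ) ^ b * Real.log R ^ 4) / (100 * (R : ℝ) ^ 2) := by
          rw [hA₁]; field_simp
      _ ≤ R / (100 * (R : ℝ) ^ 2) := by gcongr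
      _ ≤ 1 / 100 := by
          rw [div_le_div_iff₀ (by positivity) (by norm_num)]
          nlinarith
  · linarith
  · have a1 : 28 * ((5 + 28 * m : ℕ) : ℝ) ^ 2 ≤ R / 300 := by
      calc 28 * ((5 + 28 * m : ℕ) : ℝ) ^ 2 ≤ 28 * (33 * 2 * Real.log R) ^ 2 := by gcongr
        _ = (300 * (28 * (33 * 2) ^ 2) * (R : ℝ) ^ (0 : ℝ) * Real.log R ^ 2) / 300 := by
            rw [Real.rpow_zero]; ring
        _ ≤ R / 300 := by gcongr
    have a2 : ((5 + 28 * m : ℕ) : ℝ) * (8 * β) ≤ R / 300 := by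
      calc ((5 + 28 * m : ℕ) : ℝ) * (8 * β) ≤ (33 * 2 * Real.log R) * (8 * β) := by gcongr
        _ = (300 * (33 * 2 * (8 * β)) * (R : ℝ) ^ (0 : ℝ) * Real.log R ^ 1) / 300 := by
            rw [Real.rpow_zero]; ring
        _ ≤ R / 300 := by gcongr
    have a3 : 800 * β * (R : ℝ) ^ b * (14 * 2000 ^ 4 * (m : ℝ) ^ 4) * (8 * β) ≤ R / 300 := by
      calc 800 * β * (R : ℝ) ^ b * (14 * 2000 ^ 4 * (m : ℝ) ^ 4) * (8 * β)
          ≤ 800 * β * (R : ℝ) ^ b * (14 * 2000 ^ 4 * (16 * Real.log R ^ 4)) * (8 * β) := by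
            gcongr
        _ = (A₂ * (R : ℝ) ^ b * Real.log R ^ 4) / 300 := by rw [hA₂]; ring
        _ ≤ R / 300 := by gcongr
    linarith

end Pool.Agent.Work.MP_4cb49c_pr
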