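import Pool.Agent.Work.MP_4cb49c_pr.StepA

/-!
# Comparison of the all-plus start with equilibrium
-/

namespace Pool.Agent.Work.MP_4cb49c_pr

open Finset

/-- Indicator of a minus spin at `x`. -/
noncomputable def mi (x : V) (S : Finset V) : ℝ := if x ∈ S then 1 else 0

lemma mi_nonneg (x : V) (S : Finset V) : 0 ≤ mi x S := by unfold mi; split_ifs <;> norm_num

lemma mi_le_one (x : V) (S : Finset V) : mi x S ≤ 1 := by unfold mi; split_ifs <;> norm_num

lemma mi_inc (x : V) : Inc (mi x) := by
  intro S T h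
  unfold mi
  by_cases hx : x ∈ S
  · rw [if_pos hx, if_pos (h hx)]
  · rw [if_neg hx]; split_ifs <;> norm_num

lemma sum_mi {Λ S : Finset V} (h : S ⊆ Λ) : ∑ x ∈ Λ, mi x S = S.card := by
  unfold mi
  rw [← sum_filter, sum_const, nsmul_eq_mul, mul_one]
  congr 2
  ext x
  rw [mem_filter]
  exact ⟨fun hx => hx.2, fun hx => ⟨h hx, hx⟩⟩

/-- Splitting of the sum over configurations. -/
lemma sum_split {Λ Λ' : Finset V} (h : Λ ⊆ Λ') (f : Finset V → ℝ) :
    ∑ S ∈ Λ'.powerset, f S = ∑ T ∈ (Λ' \ Λ).powerset, ∑ U ∈ Λ.powerset, f (T ∪ U) := by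
  rw [← sum_product']
  apply sum_nbij' (fun S => (S \ Λ, S ∩ Λ)) (fun p => p.1 ∪ p.2)
  · intro S hS
    rw [mem_powerset] at hS
    rw [mem_product, mem_powerset, mem_powerset]
    exact ⟨sdiff_subset_sdiff hS subset_rfl, inter_subset_right⟩
  · intro p hp
    rw [mem_product, mem_powerset, mem_powerset] at hp
    rw [mem_powerset]
    exact union_subset (hp.1.trans sdiff_subset) (hp.2.trans h)
  · intro S _
    exact sdiff_union_inter S Λ
  · intro p hp
    rw [mem_product, mem_powerset, mem_powerset] at hp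
    have h1 : ∀ y ∈ p.1, y ∉ Λ := fun y hy => (mem_sdiff.mp (hp.1 hy)).2
    ext y
    · simp only [mem_sdiff, mem_union]
      constructor
      · rintro ⟨h2 | h2, h3⟩
        · exact h2
        · exact absurd (hp.2 h2) h3
      · exact fun h2 => ⟨Or.inl h2, h1 y h2⟩
    · simp only [mem_inter, mem_union]
      constructor
      · rintro ⟨h2 | h2, h3⟩
        · exact absurd h3 (h1 y h2)
        · exact h2
      · exact fun h2 => ⟨Or.inr h2, hp.2 h2⟩
  · intro S _
    rw [sdiff_union_inter]

/-- Outer boundary. -/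
noncomputable def ring' (Λ : Finset V) : Finset V := (Λ.biUnion nbrs) \ Λ

lemma bc_ring {Λ T U : Finset V} (hT : Disjoint T Λ) (hr : ring' Λ ⊆ T) (hU : U ⊆ Λ) :
    bc (T ∪ U) = bc (T ∪ Λ) + bc (Λ \ U) := by
  have h0 : T ∪ U = symmDiff (T ∪ Λ) (Λ \ U) := by
    ext y
    have h1 : y ∈ T → y ∉ Λ := fun h => disjoint_left.mp hT h
    have h2 : y ∈ U → y ∈ Λ := fun h => hU h
    simp only [mem_union, mem_symmDiff, mem_sdiff]
    tauto
  unfold bc
  rw [h0, bd_symmDiff, symmDiff_def, sup_eq_union]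
  have hd' : Disjoint (bd (T ∪ Λ)) (bd (Λ \ U)) := by
    rw [disjoint_left]
    intro e he he'
    rw [mem_bd] at he he'
    have hn1 : hd e ∈ nbrs e.1 := by
      unfold hd nbrs
      split_ifs <;> simp
    have hn2 : e.1 ∈ nbrs (hd e) := by
      unfold hd nbrs
      split_ifs <;> simp
    have hin : ∀ x y : V, x ∈ Λ → y ∈ nbrs x → y ∈ T ∪ Λ := by
      intro x y hx hy
      rw [mem_union]
      by_cases hyΛ : y ∈ Λ
      · exact Or.inr hyΛ
      · left
        apply hr
        unfold ring'
        rw [mem_sdiff, mem_biUnion]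
        exact ⟨⟨x, hx, hy⟩, hyΛ⟩
    apply he
    by_cases h1 : e.1 ∈ Λ
    · have a1 : e.1 ∈ T ∪ Λ := mem_union_right _ h1
      have a2 := hin _ _ h1 hn1
      exact ⟨fun _ => a2, fun _ => a1⟩
    · by_cases h2 : hd e ∈ Λ
      · have a1 : hd e ∈ T ∪ Λ := mem_union_right _ h2
        have a2 := hin _ _ h2 hn2
        exact ⟨fun _ => a1, fun _ => a2⟩
      · exfalso
        apply he'
        simp [h1, h2]
  have hd1 : bd (T ∪ Λ) \ bd (Λ \ U) = bd (T ∪ Λ) := sdiff_eq_self_of_disjoint hd'
  have hd2 : bd (Λ \ U) \ bd (T ∪ Λ) = bd (Λ \ U) := sdiff_eq_self_of_disjoint hd'.symm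
  rw [hd1, hd2, card_union_of_disjoint hd']

/-- Finite energy. -/
lemma finite_energy {β : ℝ} (hβ : 0 ≤ β) {Λ : Finset V} (K : Finset V) (hK : K ⊆ Λ) :
    (1 / (1 + Real.exp (8 * β))) ^ K.card
      ≤ Ex β Λ (fun S => if K ⊆ S then 1 else 0) := by
  classical
  induction K using Finset.induction_on with
  | empty => simp [Ex_const]
  | insert y K hy ih =>
    have hyΛ : y ∈ Λ := hK (mem_insert_self _ _)
    have hKΛ : K ⊆ Λ := (subset_insert _ _).trans hK
    have h1 := ih hKΛ
    have e1 : Ex β Λ (fun S => if insert y K ⊆ S then 1 else 0)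
        = Ex β Λ (fun S => (if K ⊆ S then 1 else 0) * q β y S) := by
      rw [← Ex_P β hyΛ]
      apply Ex_congr
      intro S _
      unfold P
      have a1 : insert y K ⊆ insert y S ↔ K ⊆ S := by
        constructor
        · intro h z hz
          have := h (mem_insert_of_mem hz)
          rw [mem_insert] at this
          rcases this with rfl | h2
          · exact absurd hz hy
          · exact h2
        · exact fun h => insert_subset_insert _ h
      have a2 : ¬ (insert y K ⊆ S.erase y) := by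
        intro h
        have := h (mem_insert_self _ _)
        simp at this
      simp only [a1, a2, if_false, mul_zero, add_zero]
      rw [mul_comm]
    rw [e1, card_insert_of_notMem hy, pow_succ]
    have h2 : Ex β Λ (fun S => (1 / (1 + Real.exp (8 * β))) * (if K ⊆ S then 1 else 0))
        ≤ Ex β Λ (fun S => (if K ⊆ S then 1 else 0) * q β y S) := by
      apply Ex_mono
      intro S _
      rw [mul_comm]
      apply mul_le_mul_of_nonneg_left (q_lower hβ y S)
      split_ifs <;> norm_num
    rw [Ex_mul] at h2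
    calc _ = (1 / (1 + Real.exp (8 * β))) * (1 / (1 + Real.exp (8 * β))) ^ K.card := by ring
      _ ≤ (1 / (1 + Real.exp (8 * β))) * Ex β Λ (fun S => if K ⊆ S then 1 else 0) :=
          mul_le_mul_of_nonneg_left h1 (by positivity)
      _ ≤ _ := h2

/-- Comparison of the all-plus start with equilibrium. -/
theorem stepB {β n : ℝ} (hβ : 0 ≤ β) (hn : 0 < n) {Λ Λ' : Finset V} (hΛ : Λ ⊆ Λ')
    (hΛ' : (Λ'.card : ℝ) ≤ n) (hr : ring' Λ ⊆ Λ') (x : V) (t : ℕ)
    (hA : 7 / 8 ≤ Ex β Λ (fun T => Qt β n Λ t (mi x) (Λ \ T)))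
    (hp : Ex β Λ' (mi x) ≤ 1 / 1000) :
    Qt β n Λ' t (mi x) ∅
      ≤ Ex β Λ' (mi x) - (1 / 2) * (1 / (1 + Real.exp (8 * β))) ^ (ring' Λ).card := by
  classical
  set h := Qt β n Λ' t (mi x) with hh
  have hinc : Inc h := Qt_inc hβ hn hΛ' t (mi_inc x)
  have hstat : Ex β Λ' h = Ex β Λ' (mi x) := Ex_Qt β n subset_rfl t _
  set h0 := h ∅ with hh0
  have hmin : ∀ S, h0 ≤ h S := fun S => hinc ∅ S (empty_subset _)
  have h0le : h0 ≤ 1 / 1000 := by
    have : Ex β Λ' (fun _ => h0) ≤ Ex β Λ' h := Ex_mono fun S _ => hmin S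
    rw [Ex_const, hstat] at this
    exact this.trans hp
  set F := ring' Λ with hF
  have hFdis : F ⊆ Λ' \ Λ := by
    intro y hy
    rw [mem_sdiff]
    refine ⟨hr hy, ?_⟩
    rw [hF] at hy
    unfold ring' at hy
    exact (mem_sdiff.mp hy).2
  -- the main estimate
  have key : (7 / 8 - h0) * Ex β Λ' (fun S => if F ⊆ S then 1 else 0)
      ≤ Ex β Λ' (fun S => (h S - h0) * (if F ⊆ S then 1 else 0)) := by
    unfold Ex
    rw [← mul_div_assoc]
    apply div_le_div_of_nonneg_right _ (Z_pos β Λ').le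
    rw [sum_split hΛ, sum_split hΛ, mul_sum]
    apply sum_le_sum
    intro T hT
    rw [mem_powerset] at hT
    have hTd : Disjoint T Λ := by
      rw [disjoint_left]
      intro y hy
      exact (mem_sdiff.mp (hT hy)).2
    have hFT : ∀ U ∈ Λ.powerset, (F ⊆ T ∪ U ↔ F ⊆ T) := by
      intro U hU
      rw [mem_powerset] at hU
      constructor
      · intro h1 y hy
        have := h1 hy
        rw [mem_union] at this
        rcases this with h2 | h2
        · exact h2
        · exact absurd (hU h2) (mem_sdiff.mp (hFdis hy)).2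
      · exact fun h1 => h1.trans subset_union_left
    by_cases hFT' : F ⊆ T
    · have e1 : ∑ U ∈ Λ.powerset, w β (T ∪ U) * (if F ⊆ T ∪ U then 1 else 0)
          = w β (T ∪ Λ) * ∑ U ∈ Λ.powerset, w β (Λ \ U) := by
        rw [mul_sum]
        apply sum_congr rfl
        intro U hU
        rw [if_pos ((hFT U hU).mpr hFT'), mul_one]
        unfold w
        rw [← Real.exp_add, bc_ring hTd hFT' (mem_powerset.mp hU)]
        congr 1
        push_cast; ring
      have e2 : ∑ U ∈ Λ.powerset, w β (T ∪ U) * ((h (T ∪ U) - h0) * (if F ⊆ T ∪ U then 1 else 0))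
          = w β (T ∪ Λ) * ∑ U ∈ Λ.powerset, w β (Λ \ U) * (h (T ∪ U) - h0) := by
        rw [mul_sum]
        apply sum_congr rfl
        intro U hU
        rw [if_pos ((hFT U hU).mpr hFT'), mul_one]
        unfold w
        rw [← mul_assoc, ← Real.exp_add, bc_ring hTd hFT' (mem_powerset.mp hU)]
        congr 2
        push_cast; ring
      rw [e1, e2, mul_left_comm]
      apply mul_le_mul_of_nonneg_left _ (w_pos _ _).le
      -- reduce to the minus phase in the box
      have e3 : ∀ f : Finset V → ℝ, ∑ U ∈ Λ.powerset, w β (Λ \ U) * f U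
          = ∑ U ∈ Λ.powerset, w β U * f (Λ \ U) := by
        intro f
        apply sum_nbij' (fun S => Λ \ S) (fun S => Λ \ S)
        · intro S _; rw [mem_powerset]; exact sdiff_subset
        · intro S _; rw [mem_powerset]; exact sdiff_subset
        · intro S hS
          rw [mem_powerset] at hS
          exact Finset.sdiff_sdiff_eq_self hS
        · intro S hS
          rw [mem_powerset] at hS
          exact Finset.sdiff_sdiff_eq_self hS
        · intro S hS
          rw [mem_powerset] at hS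
          rw [Finset.sdiff_sdiff_eq_self hS]
      have e4 : ∑ U ∈ Λ.powerset, w β (Λ \ U) = Z β Λ := by
        have := e3 (fun _ => 1)
        simp only [mul_one] at this
        exact this
      have h5 : ∑ U ∈ Λ.powerset, w β (Λ \ U) * (Qt β n Λ t (mi x) U - h0)
          ≤ ∑ U ∈ Λ.powerset, w β (Λ \ U) * (h (T ∪ U) - h0) := by
        apply sum_le_sum
        intro U hU
        rw [mem_powerset] at hU
        apply mul_le_mul_of_nonneg_left _ (w_pos _ _).le
        have := Qt_domain (A := Λ) (A' := Λ') hβ hn hΛ hΛ' t (mi_inc x) (S := T ∪ U) (T := U)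
          hU subset_union_right
        linarith
      refine le_trans ?_ h5
      have e5 : ∑ U ∈ Λ.powerset, w β (Λ \ U) * (Qt β n Λ t (mi x) U - h0)
          = Z β Λ * Ex β Λ (fun T => Qt β n Λ t (mi x) (Λ \ T)) - Z β Λ * h0 := by
        rw [e3 (fun U => Qt β n Λ t (mi x) U - h0)]
        unfold Ex
        rw [mul_div_cancel₀ _ (Z_pos β Λ).ne']
        unfold Z
        rw [sum_mul, ← sum_sub_distrib]
        exact sum_congr rfl fun _ _ => by ring
      rw [e5, e4]
      have := mul_le_mul_of_nonneg_left hA (Z_pos β Λ).le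
      linarith
    · have e1 : ∑ U ∈ Λ.powerset, w β (T ∪ U) * (if F ⊆ T ∪ U then (1 : ℝ) else 0) = 0 := by
        apply sum_eq_zero
        intro U hU
        rw [if_neg (fun h => hFT' ((hFT U hU).mp h)), mul_zero]
      have e2 : ∑ U ∈ Λ.powerset, w β (T ∪ U) * ((h (T ∪ U) - h0) *
          (if F ⊆ T ∪ U then (1 : ℝ) else 0)) = 0 := by
        apply sum_eq_zero
        intro U hU
        rw [if_neg (fun h => hFT' ((hFT U hU).mp h)), mul_zero, mul_zero]
      rw [e1, e2, mul_zero]
  have h2 : Ex β Λ' (fun S => (h S - h0) * (if F ⊆ S then 1 else 0))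
      ≤ Ex β Λ' (fun S => h S - h0) := by
    apply Ex_mono
    intro S _
    have := hmin S
    split_ifs
    · rw [mul_one]
    · rw [mul_zero]; linarith
  have h3 : Ex β Λ' (fun S => h S - h0) = Ex β Λ' (mi x) - h0 := by
    rw [Ex_sub, Ex_const, hstat]
  have h4 := finite_energy (β := β) hβ (Λ := Λ') F hr
  have h5 : (1 / 2) * (1 / (1 + Real.exp (8 * β))) ^ F.card
      ≤ (7 / 8 - h0) * Ex β Λ' (fun S => if F ⊆ S then 1 else 0) := by
    have : (0 : ℝ) ≤ (1 / (1 + Real.exp (8 * β))) ^ F.card := by positivity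
    nlinarith
  linarith

end Pool.Agent.Work.MP_4cb49c_pr
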