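import Pool.Agent.Work.MP_4cb49c_pr.StepB

/-!
# Many boxes: concentration and distinction of the two laws
-/

namespace Pool.Agent.Work.MP_4cb49c_pr

open Finset
open scoped FinsetFamily

lemma Qt_nonneg {β n : ℝ} {A : Finset V} (hn : 0 < n) (hA : (A.card : ℝ) ≤ n) (t : ℕ)
    {f : Finset V → ℝ} (hf : ∀ S, 0 ≤ f S) (S : Finset V) : 0 ≤ Qt β n A t f S := by
  have := Qt_mono (β := β) hn hA t hf S
  rwa [Qt_const] at this

lemma Qt_mi_osc {β n : ℝ} {A : Finset V} (hn : 0 < n) (hA : (A.card : ℝ) ≤ n) (t : ℕ) (x y : V) :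
    Osc (Qt β n A t (mi x)) y 1 := by
  intro S
  have h1 : ∀ S, 0 ≤ Qt β n A t (mi x) S := Qt_nonneg hn hA t (mi_nonneg x)
  have h2 : ∀ S, Qt β n A t (mi x) S ≤ 1 := by
    intro S
    have := Qt_mono (β := β) hn hA t (mi_le_one x) S
    rwa [Qt_const] at this
  rw [abs_le]
  constructor
  · linarith [h1 (insert y S), h2 (S.erase y)]
  · linarith [h2 (insert y S), h1 (S.erase y)]

lemma influence' {β n : ℝ} {A : Finset V} (hn : 0 < n) (hA : (A.card : ℝ) ≤ n) (x₀ : V) {s t : ℕ}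
    (hst : s ≤ t) {D : ℕ} {y : V} (hD : D ≤ dist1 y x₀) :
    Osc (Qt β n A s (mi x₀)) y ((1 + 8 / n) ^ t * (1 / 2) ^ D) := by
  intro S
  refine (influence hn hA x₀ s y S).trans ?_
  have h1 : (1 + 8 / n) ^ s ≤ (1 + 8 / n) ^ t :=
    pow_le_pow_right₀ (by have : 0 < 8 / n := by positivity
                          linarith) hst
  have h2 : (1 / 2 : ℝ) ^ dist1 y x₀ ≤ (1 / 2) ^ D :=
    pow_le_pow_of_le_one (by norm_num) (by norm_num) hD
  exact mul_le_mul h1 h2 (by positivity) (by positivity)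

/-- Comparison of the dynamics in two domains. -/
lemma Qt_compare {β n : ℝ} {A A' : Finset V} (hn : 0 < n) (hAA : A ⊆ A')
    (hA' : (A'.card : ℝ) ≤ n) (f : Finset V → ℝ) {r : ℝ} (hr : 0 ≤ r) (t : ℕ)
    (h : ∀ s < t, ∀ y ∈ A' \ A, Osc (Qt β n A s f) y r) (S : Finset V) :
    Qt β n A' t f S ≤ Qt β n A t f S + t * r := by
  induction t generalizing S with
  | zero => simp [Qt_zero]
  | succ t ih =>
    rw [Qt_succ, Qt_succ]
    have ih' := ih (fun s hs y hy => h s (by omega) y hy)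
    set u := Qt β n A t f with hu
    have h1 : Q β n A' (Qt β n A' t f) S ≤ Q β n A' (fun T => u T + t * r) S :=
      Q_mono hn hA' ih' S
    have e1 : Q β n A' (fun T => u T + t * r) S = Q β n A' u S + t * r := by
      rw [Q_add β n A' u (fun _ => t * r), Q_const]
    have h2 : Q β n A' u S ≤ Q β n A u S + r := by
      unfold Q
      rw [← sum_sdiff hAA (f := fun x => (P β x u S - u S)), mul_add]
      have h3 : ∀ y ∈ A' \ A, P β y u S - u S ≤ r := by
        intro y hy
        have h4 := h t (by omega) y hy S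
        rw [← hu, abs_le] at h4
        have a1 := q_pos β y S
        have a2 := q_lt_one β y S
        unfold P
        by_cases hyS : y ∈ S
        · rw [insert_eq_of_mem hyS] at h4 ⊢
          nlinarith
        · rw [erase_eq_of_notMem hyS] at h4 ⊢
          nlinarith
      have h5 := sum_le_sum h3
      rw [sum_const, nsmul_eq_mul] at h5
      have h6 : ((A' \ A).card : ℝ) ≤ n :=
        le_trans (by exact_mod_cast card_le_card sdiff_subset) hA'
      have h7 : (1 / n) * ∑ x ∈ A' \ A, (P β x u S - u S) ≤ r := by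
        calc _ ≤ (1 / n) * ((A' \ A).card * r) := mul_le_mul_of_nonneg_left h5 (by positivity)
          _ ≤ (1 / n) * (n * r) := by gcongr
          _ = r := by field_simp
      linarith
    push_cast
    linarith

/-- Holley-type inequality for one box. -/
lemma holley_one {β : ℝ} (hβ : 0 ≤ β) {B T : Finset V} (hT : Disjoint T B)
    {φ : Finset V → ℝ} (hφ0 : ∀ S, 0 ≤ φ S) (hφ : ∀ S U, S ⊆ U → φ U ≤ φ S) :
    ∑ U ∈ B.powerset, w β (T ∪ U) * φ U
      ≤ Ex β B φ * ∑ U ∈ B.powerset, w β (T ∪ U) := by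
  classical
  have key := Finset.four_functions_theorem (f₁ := fun U => w β (T ∪ U) * φ U)
    (f₂ := fun U => w β U) (f₃ := fun U => w β U * φ U) (f₄ := fun U => w β (T ∪ U)) B
    (fun U => mul_nonneg (w_pos _ _).le (hφ0 U)) (fun U => (w_pos _ _).le)
    (fun U => mul_nonneg (w_pos _ _).le (hφ0 U)) (fun U => (w_pos _ _).le)
    (by
      intro U hU U' hU'
      have h1 := w_submod hβ (T ∪ U) U'
      have h2 : (T ∪ U) ∩ U' = U ∩ U' := by
        ext y
        simp only [mem_inter, mem_union]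
        constructor
        · rintro ⟨h3 | h3, h4⟩
          · exact absurd (hU' h4) (disjoint_left.mp hT h3)
          · exact ⟨h3, h4⟩
        · exact fun h => ⟨Or.inr h.1, h.2⟩
      have h3 : T ∪ U ∪ U' = T ∪ (U ∪ U') := union_assoc _ _ _
      rw [h2, h3] at h1
      have h4 := hφ (U ∩ U') U inter_subset_left
      calc w β (T ∪ U) * φ U * w β U' = (w β (T ∪ U) * w β U') * φ U := by ring
        _ ≤ (w β (U ∩ U') * w β (T ∪ (U ∪ U'))) * φ U :=
            mul_le_mul_of_nonneg_right h1 (hφ0 _)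
        _ ≤ (w β (U ∩ U') * w β (T ∪ (U ∪ U'))) * φ (U ∩ U') :=
            mul_le_mul_of_nonneg_left h4 (mul_nonneg (w_pos _ _).le (w_pos _ _).le)
        _ = _ := by ring)
    (𝒜 := B.powerset) (ℬ := B.powerset) subset_rfl subset_rfl
  have hinf : B.powerset ⊼ B.powerset = B.powerset := by
    ext U
    rw [mem_infs]
    constructor
    · rintro ⟨X, hX, Y, _, rfl⟩
      rw [mem_powerset] at hX ⊢
      exact inter_subset_left.trans hX
    · intro hU
      exact ⟨U, hU, U, hU, inter_self U⟩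
  have hsup : B.powerset ⊻ B.powerset = B.powerset := by
    ext U
    rw [mem_sups]
    constructor
    · rintro ⟨X, hX, Y, hY, rfl⟩
      rw [mem_powerset] at hX hY ⊢
      exact union_subset hX hY
    · intro hU
      exact ⟨U, hU, U, hU, union_self U⟩
  rw [hinf, hsup] at key
  unfold Ex
  rw [div_mul_eq_mul_div, le_div_iff₀ (Z_pos β B)]
  exact key

lemma holley_single {β : ℝ} (hβ : 0 ≤ β) {Λ B : Finset V} (hB : B ⊆ Λ)
    {φ Ψ : Finset V → ℝ} (hφ0 : ∀ S, 0 ≤ φ S) (hφ : ∀ S U, S ⊆ U → φ U ≤ φ S)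
    (hΨ0 : ∀ S, 0 ≤ Ψ S) (hΨ : ∀ T ⊆ Λ \ B, ∀ U ⊆ B, Ψ (T ∪ U) = Ψ T) :
    Ex β Λ (fun S => φ (S ∩ B) * Ψ S) ≤ Ex β B φ * Ex β Λ Ψ := by
  have h1 : ∑ S ∈ Λ.powerset, w β S * (φ (S ∩ B) * Ψ S)
      ≤ Ex β B φ * ∑ S ∈ Λ.powerset, w β S * Ψ S := by
    rw [sum_split hB, sum_split hB, mul_sum]
    apply sum_le_sum
    intro T hT
    rw [mem_powerset] at hT
    have hTd : Disjoint T B := by
      rw [disjoint_left]
      intro y hy
      exact (mem_sdiff.mp (hT hy)).2
    have e1 : ∑ U ∈ B.powerset, w β (T ∪ U) * (φ ((T ∪ U) ∩ B) * Ψ (T ∪ U))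
        = Ψ T * ∑ U ∈ B.powerset, w β (T ∪ U) * φ U := by
      rw [mul_sum]
      apply sum_congr rfl
      intro U hU
      rw [mem_powerset] at hU
      have h2 : (T ∪ U) ∩ B = U := by
        ext y
        simp only [mem_inter, mem_union]
        constructor
        · rintro ⟨h3 | h3, h4⟩
          · exact absurd h4 (disjoint_left.mp hTd h3)
          · exact h3
        · exact fun h => ⟨Or.inr h, hU h⟩
      rw [h2, hΨ T hT U hU]; ring
    have e2 : ∑ U ∈ B.powerset, w β (T ∪ U) * Ψ (T ∪ U)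
        = Ψ T * ∑ U ∈ B.powerset, w β (T ∪ U) := by
      rw [mul_sum]
      apply sum_congr rfl
      intro U hU
      rw [hΨ T hT U (mem_powerset.mp hU)]; ring
    rw [e1, e2, mul_left_comm]
    exact mul_le_mul_of_nonneg_left (holley_one hβ hTd hφ0 hφ) (hΨ0 T)
  unfold Ex at h1 ⊢
  rw [← mul_div_assoc]
  exact div_le_div_of_nonneg_right h1 (Z_pos β Λ).le

lemma holley_prod {β : ℝ} (hβ : 0 ≤ β) {Λ : Finset V} {ι : Type*} (J : Finset ι)
    (B : ι → Finset V) (hB : ∀ j ∈ J, B j ⊆ Λ)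
    (hd : ∀ j ∈ J, ∀ k ∈ J, j ≠ k → Disjoint (B j) (B k))
    (φ : ι → Finset V → ℝ) (hφ0 : ∀ j S, 0 ≤ φ j S) (hφ : ∀ j S U, S ⊆ U → φ j U ≤ φ j S) :
    Ex β Λ (fun S => ∏ j ∈ J, φ j (S ∩ B j)) ≤ ∏ j ∈ J, Ex β (B j) (φ j) := by
  classical
  induction J using Finset.induction_on with
  | empty => simp [Ex_const]
  | insert k J hk ih =>
    have ih' := ih (fun j hj => hB j (mem_insert_of_mem hj))
      (fun j hj i hi => hd j (mem_insert_of_mem hj) i (mem_insert_of_mem hi))
    have e : (fun S => ∏ j ∈ insert k J, φ j (S ∩ B j))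
        = fun S => φ k (S ∩ B k) * ∏ j ∈ J, φ j (S ∩ B j) := by
      funext S
      rw [prod_insert hk]
    rw [e, prod_insert hk]
    refine (holley_single hβ (hB k (mem_insert_self _ _)) (hφ0 k) (hφ k)
      (fun S => prod_nonneg fun j _ => hφ0 j _) ?_).trans ?_
    · intro T hT U hU
      apply prod_congr rfl
      intro j hj
      congr 1
      have hdis := hd k (mem_insert_self _ _) j (mem_insert_of_mem hj) (by
        rintro rfl; exact hk hj)
      ext y
      simp only [mem_inter, mem_union]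
      constructor
      · rintro ⟨h3 | h3, h4⟩
        · exact ⟨h3, h4⟩
        · exact absurd h4 (disjoint_left.mp hdis (hU h3))
      · exact fun h => ⟨Or.inl h.1, h.2⟩
    · exact mul_le_mul_of_nonneg_left ih' (Ex_nonneg fun S _ => hφ0 k S)

lemma exp_bound {p l : ℝ} (hp0 : 0 ≤ p) (hl : 0 ≤ l) :
    1 - p * (1 - Real.exp (-l)) ≤ Real.exp (-(p * (l - l ^ 2 / 2))) := by
  have h1 : Real.exp (-l) ≤ 1 - l + l ^ 2 / 2 := by
    have h := Real.quadratic_le_exp_of_nonneg hl
    have h2 : (1 - l + l ^ 2 / 2) * (1 + l + l ^ 2 / 2) = 1 + l ^ 4 / 4 := by ring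
    have h3 : 0 < 1 + l + l ^ 2 / 2 := by positivity
    have h4 : 1 ≤ (1 - l + l ^ 2 / 2) * Real.exp l := by
      have h5 : 0 ≤ 1 - l + l ^ 2 / 2 := by nlinarith [sq_nonneg (l - 1)]
      calc (1 : ℝ) ≤ 1 + l ^ 4 / 4 := by
            have : 0 ≤ l ^ 4 / 4 := by positivity
            linarith
        _ = (1 - l + l ^ 2 / 2) * (1 + l + l ^ 2 / 2) := h2.symm
        _ ≤ _ := mul_le_mul_of_nonneg_left h h5
    rw [Real.exp_neg, inv_le_iff_one_le_mul₀ (Real.exp_pos l)]
    exact h4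
  have h2 : 1 - p * (1 - Real.exp (-l)) ≤ 1 - p * (l - l ^ 2 / 2) := by nlinarith
  have h3 := Real.add_one_le_exp (-(p * (l - l ^ 2 / 2)))
  linarith

/-- Distinguishing statistic. -/
theorem stepC {β n : ℝ} (hβ : 0 ≤ β) (hn : 0 < n) {Λ : Finset V} (hΛ : (Λ.card : ℝ) ≤ n)
    {ι : Type*} (J : Finset ι) (hJ : 0 < J.card) (B : ι → Finset V) (x : ι → V)
    (hB : ∀ j ∈ J, B j ⊆ Λ)
    (hd : ∀ j ∈ J, ∀ k ∈ J, j ≠ k → Disjoint (B j) (B k)) (hx : ∀ j ∈ J, x j ∈ B j)
    (D : ℕ) (hfar : ∀ j ∈ J, ∀ y ∈ Λ \ B j, D ≤ dist1 y (x j)) (t : ℕ) {r : ℝ}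
    (hr : (1 + 8 / n) ^ t * (1 / 2) ^ D ≤ r) (hJr : J.card * r ≤ 1) {α : ℝ} (hα : 0 < α)
    (htr : t * r ≤ α)
    (h : ∀ j ∈ J, Qt β n (B j) t (mi (x j)) ∅ ≤ Ex β (B j) (mi (x j)) - 2 * α) :
    ∃ y : ℝ, Qt β n Λ t (fun S => if y ≤ ∑ j ∈ J, mi (x j) S then 1 else 0) ∅
        ≤ 16 * t / (α ^ 2 * J.card ^ 2) ∧
      Ex β Λ (fun S => if y ≤ ∑ j ∈ J, mi (x j) S then 0 else 1)
        ≤ Real.exp (-(α ^ 2 * J.card / 8)) := by
  classical
  have hJ' : (0 : ℝ) < J.card := by exact_mod_cast hJ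
  have hr0 : 0 ≤ r := le_trans (by positivity) hr
  set p : ι → ℝ := fun j => Ex β (B j) (mi (x j)) with hpdef
  set Y : Finset V → ℝ := fun S => ∑ j ∈ J, mi (x j) S with hY
  set y := ∑ j ∈ J, p j - α * J.card / 2 with hy
  refine ⟨y, ?_, ?_⟩
  · -- the dynamics
    have hmean : Qt β n Λ t Y ∅ ≤ ∑ j ∈ J, p j - α * J.card := by
      rw [hY, Qt_sum]
      have h1 : ∀ j ∈ J, Qt β n Λ t (mi (x j)) ∅ ≤ p j - α := by
        intro j hj
        have hBj : ((B j).card : ℝ) ≤ n :=
          le_trans (by exact_mod_cast card_le_card (hB j hj)) hΛ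
        have h2 := Qt_compare (β := β) hn (hB j hj) hΛ (mi (x j)) hr0 t
          (fun s hs y hy S => (influence' hn hBj (x j) hs.le (hfar j hj y hy) S).trans hr) ∅
        have h3 := h j hj
        simp only [hpdef]
        linarith
      have h4 := sum_le_sum h1
      rw [sum_sub_distrib, sum_const, nsmul_eq_mul] at h4
      linarith
    have hosc : ∀ s < t, ∀ z ∈ Λ, Osc (Qt β n Λ s Y) z 2 := by
      intro s hs z hz S
      have e1 : Qt β n Λ s Y = fun T => ∑ j ∈ J, Qt β n Λ s (mi (x j)) T := by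
        funext T
        rw [hY, Qt_sum]
      rw [e1]
      have h1 : ∀ j ∈ J, Osc (Qt β n Λ s (mi (x j))) z (r + if z ∈ B j then 1 else 0) := by
        intro j hj T
        by_cases hzB : z ∈ B j
        · rw [if_pos hzB]
          refine (Qt_mi_osc hn hΛ s (x j) z T).trans ?_
          linarith
        · rw [if_neg hzB, add_zero]
          exact (influence' hn hΛ (x j) hs.le (hfar j hj z (mem_sdiff.mpr ⟨hz, hzB⟩)) T).trans hr
      refine (Osc_sum h1 S).trans ?_
      rw [sum_add_distrib, sum_const, nsmul_eq_mul]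
      have h2 : ∑ j ∈ J, (if z ∈ B j then (1 : ℝ) else 0) ≤ 1 := by
        rw [← sum_filter, sum_const, nsmul_eq_mul, mul_one]
        have : (J.filter (fun j => z ∈ B j)).card ≤ 1 := by
          rw [card_le_one]
          intro j hj k hk
          rw [mem_filter] at hj hk
          by_contra hne
          exact disjoint_left.mp (hd j hj.1 k hk.1 hne) hj.2 hk.2
        exact_mod_cast this
      linarith
    have hvar := variance (β := β) hn hΛ (K := 2) (by norm_num) t Y hosc ∅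
    set m := Qt β n Λ t Y ∅ with hm
    -- Chebyshev
    have h5 : ∀ S, (if y ≤ Y S then (1 : ℝ) else 0)
        ≤ (4 / (α ^ 2 * J.card ^ 2)) * ((Y S ^ 2 + (-(2 * m)) * Y S) + m ^ 2) := by
      intro S
      have e : (Y S ^ 2 + (-(2 * m)) * Y S) + m ^ 2 = (Y S - m) ^ 2 := by ring
      rw [e]
      split_ifs with hc
      · have h6 : α * J.card / 2 ≤ Y S - m := by rw [hy] at hc; linarith
        have h7 : (α * J.card / 2) ^ 2 ≤ (Y S - m) ^ 2 := pow_le_pow_left₀ (by positivity) h6 2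
        calc (1 : ℝ) = (4 / (α ^ 2 * J.card ^ 2)) * (α * J.card / 2) ^ 2 := by
              field_simp; norm_num
          _ ≤ _ := mul_le_mul_of_nonneg_left h7 (by positivity)
      · positivity
    have h6 := Qt_mono (β := β) hn hΛ t h5 ∅
    rw [Qt_mul, Qt_add t (fun S => Y S ^ 2 + (-(2 * m)) * Y S) (fun _ => m ^ 2), Qt_const,
      Qt_add t (fun S => Y S ^ 2) (fun S => (-(2 * m)) * Y S), Qt_mul, ← hm] at h6
    refine h6.trans ?_
    have h7 : Qt β n Λ t (fun S => Y S ^ 2) ∅ + -(2 * m) * m + m ^ 2 ≤ 4 * t := by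
      have e : ((2 : ℝ)) ^ 2 = 4 := by norm_num
      rw [e] at hvar
      nlinarith
    calc _ ≤ (4 / (α ^ 2 * J.card ^ 2)) * (4 * t) := mul_le_mul_of_nonneg_left h7 (by positivity)
      _ = _ := by ring
  · -- equilibrium
    set l := α / 2 with hl
    have hl0 : 0 < l := by positivity
    have hp1 : ∀ j, p j ≤ 1 := by
      intro j
      have : Ex β (B j) (mi (x j)) ≤ Ex β (B j) (fun _ => 1) := Ex_mono fun S _ => mi_le_one _ S
      rwa [Ex_const] at this
    have hp0 : ∀ j, 0 ≤ p j := fun j => Ex_nonneg fun S _ => mi_nonneg _ S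
    have h1 : ∀ S ⊆ Λ, (if y ≤ Y S then (0 : ℝ) else 1)
        ≤ Real.exp (l * y) * ∏ j ∈ J, Real.exp (-(l * mi (x j) (S ∩ B j))) := by
      intro S _
      have e1 : ∏ j ∈ J, Real.exp (-(l * mi (x j) (S ∩ B j))) = Real.exp (-(l * Y S)) := by
        rw [← Real.exp_sum]
        congr 1
        rw [hY]
        simp only
        rw [mul_sum, ← sum_neg_distrib]
        apply sum_congr rfl
        intro j hj
        have : mi (x j) (S ∩ B j) = mi (x j) S := by
          unfold mi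
          have h2 : x j ∈ S ∩ B j ↔ x j ∈ S := by
            rw [mem_inter]
            exact ⟨fun h => h.1, fun h => ⟨h, hx j hj⟩⟩
          simp only [h2]
        rw [this]
      rw [e1, ← Real.exp_add]
      split_ifs with hc
      · positivity
      · rw [← Real.exp_zero]
        apply Real.exp_le_exp.mpr
        push Not at hc
        nlinarith
    refine (Ex_mono h1).trans ?_
    rw [Ex_mul]
    have h2 := holley_prod hβ J B hB hd (fun j S => Real.exp (-(l * mi (x j) S)))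
      (fun j S => (Real.exp_pos _).le) (fun j S U hSU => by
        apply Real.exp_le_exp.mpr
        have := mi_inc (x j) S U hSU
        nlinarith)
    have h3 : ∏ j ∈ J, Ex β (B j) (fun S => Real.exp (-(l * mi (x j) S)))
        ≤ ∏ j ∈ J, Real.exp (-(p j * (l - l ^ 2 / 2))) := by
      apply prod_le_prod
      · intro j _
        exact Ex_nonneg fun S _ => (Real.exp_pos _).le
      · intro j _
        refine le_trans (le_of_eq ?_) (exp_bound (hp0 j) hl0.le)
        have : ∀ S, Real.exp (-(l * mi (x j) S)) = 1 - (1 - Real.exp (-l)) * mi (x j) S := by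
          intro S
          unfold mi
          split_ifs
          · rw [mul_one]; ring
          · rw [mul_zero]; simp
        simp only [this]
        rw [Ex_sub, Ex_const, Ex_mul]
        simp only [hpdef]
        ring
    rw [← Real.exp_sum] at h3
    refine (mul_le_mul_of_nonneg_left (h2.trans h3) (Real.exp_pos _).le).trans ?_
    rw [← Real.exp_add]
    apply Real.exp_le_exp.mpr
    rw [sum_neg_distrib, ← sum_mul, hy]
    have h4 : ∑ j ∈ J, p j ≤ J.card := by
      have := sum_le_sum fun j (_ : j ∈ J) => hp1 j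
      rw [sum_const, nsmul_eq_mul, mul_one] at this
      exact this
    have e : l * (∑ j ∈ J, p j - α * J.card / 2) + -((∑ j ∈ J, p j) * (l - l ^ 2 / 2))
        = (∑ j ∈ J, p j) * (α ^ 2 / 8) - α ^ 2 * J.card / 4 := by
      rw [hl]; ring
    rw [e]
    have h5 : (∑ j ∈ J, p j) * (α ^ 2 / 8) ≤ J.card * (α ^ 2 / 8) :=
      mul_le_mul_of_nonneg_right h4 (by positivity)
    linarith

end Pool.Agent.Work.MP_4cb49c_pr
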