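import Pool.Agent.Work.MP_4cb49c_pr.StepC

/-!
# Boxes inside the big box
-/

namespace Pool.Agent.Work.MP_4cb49c_pr

open Finset

lemma mem_sqr {a b : ℤ} {R : ℕ} {x : V} :
    x ∈ sqr a b R ↔ (a ≤ x.1 ∧ x.1 ≤ a + R - 1) ∧ (b ≤ x.2 ∧ x.2 ≤ b + R - 1) := by
  unfold sqr
  exact mem_rect

lemma box_eq' (L : ℕ) : box L = rect 1 L 1 L := rfl

lemma mem_nbrs {x y : V} : y ∈ nbrs x ↔
    (y.1 = x.1 + 1 ∧ y.2 = x.2) ∨ (y.1 = x.1 - 1 ∧ y.2 = x.2) ∨ (y.1 = x.1 ∧ y.2 = x.2 + 1) ∨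
      (y.1 = x.1 ∧ y.2 = x.2 - 1) := by
  obtain ⟨a, b⟩ := x
  obtain ⟨u, v⟩ := y
  simp [nbrs]

lemma ring_card (Λ : Finset V) : (ring' Λ).card ≤ bc Λ := by
  classical
  have hsub : ring' Λ ⊆ (bd Λ).image (fun e => if e.1 ∈ Λ then hd e else e.1) := by
    intro y hy
    unfold ring' at hy
    rw [mem_sdiff, mem_biUnion] at hy
    obtain ⟨⟨x, hx, hxy⟩, hyΛ⟩ := hy
    rw [mem_nbrs] at hxy
    rw [mem_image]
    obtain ⟨u, v⟩ := y
    obtain ⟨a, b⟩ := x
    simp only at hxy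
    rcases hxy with ⟨h1, h2⟩ | ⟨h1, h2⟩ | ⟨h1, h2⟩ | ⟨h1, h2⟩
    · refine ⟨((a, b), false), ?_, ?_⟩
      · rw [mem_bd]
        subst h1 h2
        simp [hd, hx, hyΛ]
      · subst h1 h2
        simp [hd, hx]
    · refine ⟨((u, v), false), ?_, ?_⟩
      · rw [mem_bd]
        subst h1 h2
        simp [hd, hx, hyΛ]
      · simp [hyΛ]
    · refine ⟨((a, b), true), ?_, ?_⟩
      · rw [mem_bd]
        subst h1 h2
        simp [hd, hx, hyΛ]
      · subst h1 h2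
        simp [hd, hx]
    · refine ⟨((u, v), true), ?_, ?_⟩
      · rw [mem_bd]
        subst h1 h2
        simp [hd, hx, hyΛ]
      · simp [hyΛ]
  exact (card_le_card hsub).trans card_image_le

lemma Q_congr {β n : ℝ} {Λ : Finset V} {f g : Finset V → ℝ} (h : ∀ S ⊆ Λ, f S = g S) :
    ∀ S ⊆ Λ, Q β n Λ f S = Q β n Λ g S := by
  intro S hS
  unfold Q
  rw [h S hS]
  congr 2
  apply sum_congr rfl
  intro x hx
  unfold P
  rw [h _ (insert_subset hx hS), h _ ((erase_subset _ _).trans hS)]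

lemma Qt_congr {β n : ℝ} {Λ : Finset V} {f g : Finset V → ℝ} (h : ∀ S ⊆ Λ, f S = g S) (t : ℕ) :
    ∀ S ⊆ Λ, Qt β n Λ t f S = Qt β n Λ t g S := by
  induction t with
  | zero => exact h
  | succ t ih =>
    rw [Qt_succ, Qt_succ]
    exact Q_congr ih

/-- A site where the minus phase persists. -/
lemma exists_site {β K : ℝ} {R : ℕ} (h : Good β K R) (hR1 : 1 ≤ R) (a b : ℤ) (n : ℝ)
    (hn : (R : ℝ) ^ 2 ≤ n) (t : ℕ) (ht : (t : ℝ) / n ≤ K * R) : ∃ x ∈ sqr a b R,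
      7 / 8 ≤ Ex β (sqr a b R) (fun T => Qt β n (sqr a b R) t (mi x) (sqr a b R \ T)) := by
  have h1 := h a b n hn t ht
  set Λ := sqr a b R with hΛ
  by_contra hcon
  push Not at hcon
  have h2 : Ex β Λ (fun T => Qt β n Λ t (fun S => (S.card : ℝ)) (Λ \ T))
      = ∑ x ∈ Λ, Ex β Λ (fun T => Qt β n Λ t (mi x) (Λ \ T)) := by
    rw [← Ex_sum]
    apply Ex_congr
    intro T _
    rw [Qt_congr (g := fun S => ∑ x ∈ Λ, mi x S) (fun S hS => (sum_mi hS).symm) t (Λ \ T)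
      sdiff_subset, Qt_sum]
  have hne : Λ.Nonempty := by
    rw [← card_pos, hΛ, sqr_card]; positivity
  have h3 : ∑ x ∈ Λ, Ex β Λ (fun T => Qt β n Λ t (mi x) (Λ \ T)) < ∑ _x ∈ Λ, (7 / 8 : ℝ) :=
    sum_lt_sum_of_nonempty hne hcon
  rw [sum_const, nsmul_eq_mul, hΛ, sqr_card] at h3
  rw [h2] at h1
  rw [← hΛ] at h3
  push_cast at h3
  linarith

/-- The statement for one box. -/
lemma one_box {β K : ℝ} (hβ : 10 ≤ β) {R : ℕ} (h : Good β K R) (hR1 : 1 ≤ R) {D : ℕ} (hD : 1 ≤ D)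
    (a b : ℤ) (n : ℝ) (hn : ((R + 2 * D : ℕ) : ℝ) ^ 2 ≤ n) (t : ℕ) (ht : (t : ℝ) / n ≤ K * R) :
    ∃ x ∈ sqr (a + D) (b + D) R,
        Qt β n (sqr a b (R + 2 * D)) t (mi x) ∅ ≤ Ex β (sqr a b (R + 2 * D)) (mi x)
          - (1 / 2) * (1 / (1 + Real.exp (8 * β))) ^ (4 * R) := by
  have hRn : (R : ℝ) ^ 2 ≤ n := by
    refine le_trans ?_ hn
    apply pow_le_pow_left₀ (by positivity)
    push_cast
    have : (0 : ℝ) ≤ D := by positivity
    linarith
  have hn0 : 0 < n := by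
    refine lt_of_lt_of_le ?_ hn
    have : 0 < R + 2 * D := by omega
    positivity
  obtain ⟨x, hx, hx'⟩ := exists_site h hR1 (a + D) (b + D) n hRn t ht
  refine ⟨x, hx, ?_⟩
  set Λ := sqr (a + D) (b + D) R with hΛ
  set Λ' := sqr a b (R + 2 * D) with hΛ'
  have hsub : Λ ⊆ Λ' := by
    intro y hy
    rw [hΛ, mem_sqr] at hy
    rw [hΛ', mem_sqr]
    push_cast
    omega
  have hring : ring' Λ ⊆ Λ' := by
    intro y hy
    unfold ring' at hy
    rw [mem_sdiff, mem_biUnion] at hy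
    obtain ⟨⟨z, hz, hzy⟩, _⟩ := hy
    rw [mem_nbrs] at hzy
    rw [hΛ, mem_sqr] at hz
    rw [hΛ', mem_sqr]
    push_cast
    omega
  have hcard : (Λ'.card : ℝ) ≤ n := by
    rw [hΛ', sqr_card]; push_cast at hn ⊢; exact hn
  have hp : Ex β Λ' (mi x) ≤ 1 / 1000 :=
    peierls (β := β) (by linarith) (a₀ := a) (a₁ := a + (R + 2 * D : ℕ) - 1) (b₀ := b)
      (b₁ := b + (R + 2 * D : ℕ) - 1) x
  have h1 := stepB (β := β) (by linarith) hn0 hsub hcard hring x t hx' hp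
  refine h1.trans ?_
  have h2 : (ring' Λ).card ≤ 4 * R := (ring_card Λ).trans (bc_sqr _ _ _)
  have h3 : (1 / (1 + Real.exp (8 * β))) ^ (4 * R)
      ≤ (1 / (1 + Real.exp (8 * β))) ^ (ring' Λ).card := by
    apply pow_le_pow_of_le_one (by positivity) _ h2
    rw [div_le_one (by positivity)]
    linarith [Real.exp_pos (8 * β)]
  linarith

/-- The statement for the big box. -/
theorem big_box {β K : ℝ} (hβ : 10 ≤ β) {R : ℕ} (h : Good β K R) (hR1 : 1 ≤ R) {L D : ℕ}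
    (hD : 1 ≤ D) (hRD : R + 2 * D ≤ L) (n : ℝ) (hnL : n = (L : ℝ) ^ 2) (t : ℕ)
    (ht : (t : ℝ) / n ≤ K * R) (r α : ℝ) (hr : (1 + 8 / n) ^ t * (1 / 2) ^ D ≤ r)
    (hnr : n * r ≤ 1) (hα : 0 < α) (htr : t * r ≤ α)
    (hακ : 4 * α ≤ (1 / (1 + Real.exp (8 * β))) ^ (4 * R)) :
    ∃ G : Finset V → ℝ, (∀ S, 0 ≤ G S) ∧ (∀ S, G S ≤ 1) ∧
        Qt β n (box L) t G ∅ ≤ 16 * t / (α ^ 2 * ((L / (R + 2 * D) : ℕ) : ℝ) ^ 4) ∧
        1 - Real.exp (-(α ^ 2 * ((L / (R + 2 * D) : ℕ) : ℝ) ^ 2 / 8)) ≤ Ex β (box L) G := by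
  classical
  set s := R + 2 * D with hs
  set m := L / s with hm
  have hs0 : 0 < s := by omega
  have hm0 : 0 < m := Nat.div_pos hRD hs0
  have hms : m * s ≤ L := Nat.div_mul_le_self L s
  have hL0 : 0 < L := by omega
  have hn0 : 0 < n := by rw [hnL]; positivity
  have hsn : ((s : ℕ) : ℝ) ^ 2 ≤ n := by
    rw [hnL]
    apply pow_le_pow_left₀ (by positivity)
    exact_mod_cast hRD
  have hbox : ((box L).card : ℝ) ≤ n := by
    have : box L = sqr 1 1 L := by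
      unfold sqr
      rw [box_eq']
      congr 1 <;> ring
    rw [this, sqr_card, hnL]; push_cast; exact le_rfl
  have hone : ∀ p : ℕ × ℕ, ∃ x ∈ sqr (1 + p.1 * s + D) (1 + p.2 * s + D) R,
      Qt β n (sqr (1 + p.1 * s) (1 + p.2 * s) s) t (mi x) ∅
        ≤ Ex β (sqr (1 + p.1 * s) (1 + p.2 * s) s) (mi x)
          - (1 / 2) * (1 / (1 + Real.exp (8 * β))) ^ (4 * R) :=
    fun p => one_box hβ h hR1 hD (1 + p.1 * s) (1 + p.2 * s) n hsn t ht
  choose x hx1 hx2 using hone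
  set J := range m ×ˢ range m with hJ
  have hJc : J.card = m ^ 2 := by rw [hJ, card_product, card_range, sq]
  have hJpos : 0 < J.card := by rw [hJc]; positivity
  have hmz : ∀ i : ℕ, i < m → ((i : ℤ) + 1) * s ≤ L := by
    intro i hi
    have h1 : (i + 1) * s ≤ m * s := Nat.mul_le_mul_right _ hi
    exact_mod_cast h1.trans hms
  have hsz : (s : ℤ) = R + 2 * D := by rw [hs]; push_cast; ring
  obtain ⟨y, hy1, hy2⟩ := stepC (β := β) (by linarith) hn0 hbox J hJpos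
    (fun p => sqr (1 + p.1 * s) (1 + p.2 * s) s) x
    (by
      intro p hp z hz
      rw [hJ, mem_product, mem_range, mem_range] at hp
      have h1 := hmz p.1 hp.1
      have h2 := hmz p.2 hp.2
      have h3 : (0 : ℤ) ≤ p.1 * s := by positivity
      have h4 : (0 : ℤ) ≤ p.2 * s := by positivity
      rw [mem_sqr] at hz
      rw [box_eq', mem_rect]
      rw [add_mul, one_mul] at h1 h2
      omega)
    (by
      intro p hp p' hp' hne
      rw [disjoint_left]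
      intro z hz hz'
      rw [mem_sqr] at hz hz'
      apply hne
      have key : ∀ i i' : ℕ, ∀ u : ℤ, 1 + (i : ℤ) * s ≤ u → u ≤ 1 + i * s + s - 1 →
          1 + (i' : ℤ) * s ≤ u → u ≤ 1 + i' * s + s - 1 → i = i' := by
        intro i i' u h1 h2 h3 h4
        have hsp : (0 : ℤ) < s := by exact_mod_cast hs0
        have h5 : (i : ℤ) * s < (i' + 1) * s := by rw [add_mul, one_mul]; omega
        have h6 : (i' : ℤ) * s < (i + 1) * s := by rw [add_mul, one_mul]; omega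
        have h7 := lt_of_mul_lt_mul_right h5 hsp.le
        have h8 := lt_of_mul_lt_mul_right h6 hsp.le
        omega
      exact Prod.ext (key _ _ _ hz.1.1 hz.1.2 hz'.1.1 hz'.1.2)
        (key _ _ _ hz.2.1 hz.2.2 hz'.2.1 hz'.2.2))
    (by
      intro p _
      have h1 := hx1 p
      rw [mem_sqr] at h1 ⊢
      omega)
    D
    (by
      intro p _ z hz
      rw [mem_sdiff, mem_sqr] at hz
      have h1 := hx1 p
      rw [mem_sqr] at h1
      unfold dist1
      omega)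
    t hr
    (by
      have h1 : (J.card : ℝ) ≤ n := by
        rw [hJc, hnL]
        push_cast
        apply pow_le_pow_left₀ (by positivity)
        exact_mod_cast Nat.div_le_self L s
      have hr0 : 0 ≤ r := le_trans (by positivity) hr
      exact (mul_le_mul_of_nonneg_right h1 hr0).trans hnr)
    hα htr
    (by
      intro p _
      have h1 := hx2 p
      linarith)
  refine ⟨fun S => if y ≤ ∑ j ∈ J, mi (x j) S then 1 else 0, fun S => by beta_reduce; split_ifs <;> norm_num,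
    fun S => by beta_reduce; split_ifs <;> norm_num, ?_, ?_⟩
  · refine hy1.trans (le_of_eq ?_)
    rw [hJc]
    push_cast
    ring
  · have e : (fun S => if y ≤ ∑ j ∈ J, mi (x j) S then (1 : ℝ) else 0)
        = fun S => 1 - (if y ≤ ∑ j ∈ J, mi (x j) S then (0 : ℝ) else 1) := by
      funext S
      split_ifs <;> norm_num
    rw [e, Ex_sub, Ex_const]
    rw [hJc] at hy2
    push_cast at hy2
    linarith

end Pool.Agent.Work.MP_4cb49c_pr
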