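import Pool.Agent.Work.MP_4cb49c_pr.Main

/-!
# The uniform start: spin-flip symmetry away from the boundary
-/

namespace Pool.Agent.Work.MP_4cb49c_pr

open Finset

/-- The box with its outer boundary. -/
noncomputable def plusBd (Λ : Finset V) : Finset V := Λ ∪ ring' Λ

lemma nbrs_subset {Λ : Finset V} {x : V} (hx : x ∈ Λ) : nbrs x ⊆ plusBd Λ := by
  intro y hy
  unfold plusBd ring'
  rw [mem_union, mem_sdiff, mem_biUnion]
  by_cases h : y ∈ Λ
  · exact Or.inl h
  · exact Or.inr ⟨⟨x, hx, hy⟩, h⟩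

lemma kk_flip {Λ : Finset V} {x : V} (hx : x ∈ Λ) (S : Finset V) :
    kk x (plusBd Λ \ S) + kk x S = 4 := by
  have h1 : (nbrs x).filter (fun y => y ∈ plusBd Λ \ S) = (nbrs x).filter (fun y => ¬ y ∈ S) := by
    ext y
    simp only [mem_filter, mem_sdiff]
    constructor
    · exact fun h => ⟨h.1, h.2.2⟩
    · exact fun h => ⟨h.1, nbrs_subset hx h.1, h.2⟩
  have h2 : (nbrs x).card = 4 := by
    unfold nbrs
    rw [card_insert_of_notMem, card_insert_of_notMem, card_pair]
    · simp
      omega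
    · simp
    · simp
      omega
  unfold kk
  rw [h1, add_comm, card_filter_add_card_filter_not, h2]

lemma q_flip (β : ℝ) {Λ : Finset V} {x : V} (hx : x ∈ Λ) (S : Finset V) :
    q β x (plusBd Λ \ S) = 1 - q β x S := by
  have h := kk_flip hx S
  have h' : (kk x (plusBd Λ \ S) : ℝ) = 4 - kk x S := by
    have : ((kk x (plusBd Λ \ S) + kk x S : ℕ) : ℝ) = 4 := by rw [h]; norm_num
    push_cast at this
    linarith
  unfold q
  rw [h']
  have e : 2 * β * (4 - 2 * (4 - (kk x S : ℝ))) = -(2 * β * (4 - 2 * kk x S)) := by ring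
  rw [e, Real.exp_neg]
  have := Real.exp_pos (2 * β * (4 - 2 * kk x S))
  field_simp
  ring

lemma flip_mi {β n : ℝ} {Λ : Finset V} {x : V} (hx : x ∈ Λ) (t : ℕ) :
    ∀ S ⊆ plusBd Λ, Qt β n Λ t (mi x) (plusBd Λ \ S) = 1 - Qt β n Λ t (mi x) S := by
  have hΛ : Λ ⊆ plusBd Λ := subset_union_left
  induction t with
  | zero =>
    intro S _
    rw [Qt_zero]
    unfold mi
    have : x ∈ plusBd Λ \ S ↔ ¬ x ∈ S := by
      rw [mem_sdiff]
      exact ⟨fun h => h.2, fun h => ⟨hΛ hx, h⟩⟩
    by_cases h : x ∈ S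
    · simp [this, h]
    · simp [this, h]
  | succ t ih =>
    intro S hS
    rw [Qt_succ]
    set u := Qt β n Λ t (mi x)
    have h1 : ∀ z ∈ Λ, P β z u (plusBd Λ \ S) = 1 - P β z u S := by
      intro z hz
      have e1 : insert z (plusBd Λ \ S) = plusBd Λ \ (S.erase z) := by
        ext y
        simp only [mem_insert, mem_sdiff, mem_erase]
        constructor
        · rintro (h | h)
          · subst h; exact ⟨hΛ hz, fun h => h.1 rfl⟩
          · exact ⟨h.1, fun h' => h.2 h'.2⟩
        · rintro ⟨h2, h3⟩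
          by_cases hy : y = z
          · exact Or.inl hy
          · exact Or.inr ⟨h2, fun h4 => h3 ⟨hy, h4⟩⟩
      have e2 : (plusBd Λ \ S).erase z = plusBd Λ \ (insert z S) := by
        ext y
        simp only [mem_insert, mem_sdiff, mem_erase]
        tauto
      unfold P
      rw [e1, e2, ih _ ((erase_subset _ _).trans hS), ih _ (insert_subset (hΛ hz) hS),
        q_flip β hz]
      ring
    rw [Q_eq, Q_eq, ih S hS, sum_congr rfl h1, sum_sub_distrib, sum_const, nsmul_eq_mul]
    ring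

lemma add_osc {f : Finset V → ℝ} {r : ℝ} (F : Finset V) (h : ∀ y ∈ F, Osc f y r)
    (S : Finset V) (hS : Disjoint S F) : f (S ∪ F) ≤ f S + F.card * r := by
  induction F using Finset.induction_on with
  | empty => simp
  | insert y F hy ih =>
    have h1 := ih (fun z hz => h z (mem_insert_of_mem hz))
      (disjoint_of_subset_right (subset_insert _ _) hS)
    have h2 := h y (mem_insert_self _ _) (S ∪ F)
    have h3 : y ∉ S ∪ F := by
      rw [mem_union]
      rintro (h4 | h4)
      · exact disjoint_left.mp hS h4 (mem_insert_self _ _)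
      · exact hy h4
    rw [erase_eq_of_notMem h3, abs_le] at h2
    rw [union_insert, card_insert_of_notMem hy]
    push_cast
    linarith

lemma mean_uniform {β n : ℝ} (hn : 0 < n) {Λ : Finset V} (hΛ : (Λ.card : ℝ) ≤ n) {x : V}
    (hx : x ∈ Λ) (t D : ℕ) (hD : ∀ y ∈ ring' Λ, D ≤ dist1 y x) :
    (1 - (ring' Λ).card * ((1 + 8 / n) ^ t * (1 / 2) ^ D)) / 2 * (Λ.powerset.card : ℝ)
      ≤ ∑ S ∈ Λ.powerset, Qt β n Λ t (mi x) S := by
  set r := (1 + 8 / n) ^ t * (1 / 2 : ℝ) ^ D with hr
  set u := Qt β n Λ t (mi x) with hu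
  have h1 : ∀ S ∈ Λ.powerset, 1 - (ring' Λ).card * r ≤ u S + u (Λ \ S) := by
    intro S hS
    rw [mem_powerset] at hS
    have h2 := flip_mi (β := β) (n := n) hx t S (hS.trans subset_union_left)
    have e : plusBd Λ \ S = (Λ \ S) ∪ ring' Λ := by
      unfold plusBd
      rw [union_sdiff_distrib]
      congr 1
      rw [Finset.sdiff_eq_self_iff_disjoint]
      rw [disjoint_left]
      intro y hy hyS
      unfold ring' at hy
      exact (mem_sdiff.mp hy).2 (hS hyS)
    rw [e, ← hu] at h2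
    have h3 := add_osc (f := u) (r := r) (ring' Λ)
      (fun y hy => influence' hn hΛ x le_rfl (hD y hy)) (Λ \ S) (by
        rw [disjoint_left]
        intro y hy hy'
        unfold ring' at hy'
        exact (mem_sdiff.mp hy').2 (mem_sdiff.mp hy).1)
    linarith
  have h2 := sum_le_sum h1
  rw [sum_const, nsmul_eq_mul, sum_add_distrib] at h2
  have h3 : ∑ S ∈ Λ.powerset, u (Λ \ S) = ∑ S ∈ Λ.powerset, u S := by
    apply sum_nbij' (fun S => Λ \ S) (fun S => Λ \ S)
    · intro S _; rw [mem_powerset]; exact sdiff_subset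
    · intro S _; rw [mem_powerset]; exact sdiff_subset
    · intro S hS
      rw [mem_powerset] at hS
      exact Finset.sdiff_sdiff_eq_self hS
    · intro S hS
      rw [mem_powerset] at hS
      exact Finset.sdiff_sdiff_eq_self hS
    · intro S _; rfl
  rw [h3] at h2
  linarith

/-- The lower bound for the uniform start. -/
theorem uniform_lower {β : ℝ} (hβ : 9 ≤ β) : ∃ L₀ : ℕ, ∀ L : ℕ, L₀ ≤ L → ∀ t : ℕ,
    (t : ℝ) ≤ (1 / 50) * (L : ℝ) ^ 3 →
    1 / 4 < tv (law β (box L) (uniformLaw (box L)) t) (gibbs β (box L)) := by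
  have E1 := (tendsto_natCast_atTop_atTop (R := ℝ)).eventually
    ((Filter.tendsto_id.const_mul_atTop (show (0 : ℝ) < 1 / 10 by norm_num)).eventually
      ((evp 1600 1).and (Filter.eventually_ge_atTop 0)))
  obtain ⟨L₀, hL₀⟩ := Filter.eventually_atTop.mp E1
  refine ⟨max L₀ 1, fun L hL t ht => ?_⟩
  have hL1 : 1 ≤ L := (le_max_right _ _).trans hL
  have hL1' : (1 : ℝ) ≤ L := by exact_mod_cast hL1
  have hE := (hL₀ L ((le_max_left _ _).trans hL)).1
  simp only [id] at hE
  set Λ := box L with hΛ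
  set n : ℝ := (L : ℝ) ^ 2 with hn
  have hn0 : 0 < n := by positivity
  have hbs : box L = sqr 1 1 L := by
    unfold sqr
    rw [box_eq']
    congr 1 <;> ring
  have hcard : (Λ.card : ℝ) = n := by
    rw [hΛ, hbs, sqr_card]; push_cast; rfl
  set D : ℕ := (L + 1) / 2 with hD
  set x : V := ((D : ℤ), (D : ℤ)) with hx
  have hDpos : 1 ≤ D := by omega
  have hxΛ : x ∈ Λ := by
    rw [hΛ, box_eq', mem_rect, hx]
    simp only
    omega
  have hfar : ∀ y ∈ ring' Λ, D ≤ dist1 y x := by
    intro y hy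
    unfold ring' at hy
    rw [mem_sdiff, hΛ, box_eq', mem_rect] at hy
    have h1 := hy.2
    unfold dist1
    rw [hx]
    simp only
    omega
  have hm := mean_uniform (β := β) hn0 hcard.le hxΛ t D hfar
  have hring : ((ring' Λ).card : ℝ) ≤ 4 * L := by
    have h1 := ring_card Λ
    have h2 : bc Λ ≤ 4 * L := by rw [hΛ, hbs]; exact bc_sqr 1 1 L
    exact_mod_cast h1.trans h2
  -- smallness
  have hr : (1 + 8 / n) ^ t * (1 / 2 : ℝ) ^ D ≤ Real.exp (-((1 / 10 * L) / 2)) := by
    have e1 : (1 + 8 / n) ^ t ≤ Real.exp (8 / 50 * L) := by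
      calc (1 + 8 / n) ^ t ≤ Real.exp (8 / n) ^ t := by
            apply pow_le_pow_left₀ (by positivity)
            have := Real.add_one_le_exp (8 / n); linarith
        _ = Real.exp (8 * (t / n)) := by rw [← Real.exp_nat_mul]; congr 1; ring
        _ ≤ Real.exp (8 / 50 * L) := by
            apply Real.exp_le_exp.mpr
            have : (t : ℝ) / n ≤ 1 / 50 * L := by
              rw [div_le_iff₀ hn0, hn]
              calc (t : ℝ) ≤ 1 / 50 * (L : ℝ) ^ 3 := ht
                _ = _ := by ring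
            linarith
    have e2 : (1 / 2 : ℝ) ^ D ≤ Real.exp (-(L * (3 / 10))) := by
      have h1 : (1 / 2 : ℝ) = Real.exp (-Real.log 2) := by
        rw [Real.exp_neg, Real.exp_log (by norm_num)]; norm_num
      rw [h1, ← Real.exp_nat_mul]
      apply Real.exp_le_exp.mpr
      have h2 : (0.6 : ℝ) ≤ Real.log 2 := by
        have := Real.log_two_gt_d9; linarith
      have h3 : (L : ℝ) / 2 ≤ D := by
        have : L ≤ 2 * D := by omega
        have h4 : (L : ℝ) ≤ 2 * D := by exact_mod_cast this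
        linarith
      nlinarith
    calc _ ≤ Real.exp (8 / 50 * L) * Real.exp (-(L * (3 / 10))) :=
          mul_le_mul e1 e2 (by positivity) (by positivity)
      _ = Real.exp (-(L * (14 / 100))) := by rw [← Real.exp_add]; congr 1; ring
      _ ≤ _ := Real.exp_le_exp.mpr (by linarith)
  have hsmall : (ring' Λ).card * ((1 + 8 / n) ^ t * (1 / 2 : ℝ) ^ D) ≤ 1 / 40 := by
    calc _ ≤ (4 * L) * Real.exp (-((1 / 10 * L) / 2)) :=
          mul_le_mul hring hr (by positivity) (by positivity)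
      _ = (1600 * (1 / 10 * (L : ℝ)) ^ 1) * Real.exp (-((1 / 10 * L) / 2)) / 40 := by ring
      _ ≤ Real.exp ((1 / 10 * L) / 2) * Real.exp (-((1 / 10 * L) / 2)) / 40 := by gcongr
      _ = 1 / 40 := by rw [← Real.exp_add]; simp
  have hne : Λ.Nonempty := ⟨x, hxΛ⟩
  have htv := tv_lower β hne (uniformLaw Λ) uniform_sum t (fun S => 1 - mi x S)
    (fun S => by have := mi_le_one x S; linarith) (fun S => by have := mi_nonneg x S; linarith)
  have hp : Ex β Λ (mi x) ≤ 1 / 1000 := peierls (β := β) hβ (a₀ := 1) (a₁ := L) (b₀ := 1)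
    (b₁ := L) x
  rw [Ex_sub, Ex_const, hcard] at htv
  have hav : ∑ σ : Config Λ, uniformLaw Λ σ * Qt β n Λ t (fun S => 1 - mi x S) (ms Λ σ)
      = 1 - (∑ S ∈ Λ.powerset, Qt β n Λ t (mi x) S) / (Λ.powerset.card : ℝ) := by
    have e1 : ∀ S, Qt β n Λ t (fun S => 1 - mi x S) S = 1 - Qt β n Λ t (mi x) S := by
      intro S
      rw [Qt_sub t (fun _ => 1) (mi x), Qt_const]
    have e2 : (Fintype.card (Config Λ) : ℝ) = (Λ.powerset.card : ℝ) := by
      have := sum_ms (Λ := Λ) (fun _ => 1)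
      rw [sum_const, sum_const, nsmul_eq_mul, nsmul_eq_mul, mul_one, mul_one, card_univ] at this
      exact this
    unfold uniformLaw
    simp only [e1]
    rw [← mul_sum, sum_ms (fun S => 1 - Qt β n Λ t (mi x) S), e2, sum_sub_distrib, sum_const,
      nsmul_eq_mul, mul_one]
    have : (Λ.powerset.card : ℝ) ≠ 0 := by
      have : 0 < Λ.powerset.card := card_pos.mpr ⟨∅, empty_mem_powerset _⟩
      positivity
    field_simp
  rw [hav] at htv
  have hpc : (0 : ℝ) < (Λ.powerset.card : ℝ) := by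
    have : 0 < Λ.powerset.card := card_pos.mpr ⟨∅, empty_mem_powerset _⟩
    positivity
  have hq : 39 / 80 ≤ (∑ S ∈ Λ.powerset, Qt β n Λ t (mi x) S) / (Λ.powerset.card : ℝ) := by
    rw [le_div_iff₀ hpc]
    refine le_trans ?_ hm
    apply mul_le_mul_of_nonneg_right _ hpc.le
    linarith
  linarith

end Pool.Agent.Work.MP_4cb49c_pr
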